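import Pool.Agent.Helper79.GQ.Defs

/-!
# GQ-MA: measurability

All conditions are countable intersections or unions of comparisons of the functions
`c ↦ T c x y` (`measurable_T_cfg`) and of `c ↦ c e`.
-/

set_option autoImplicit false

namespace Pool.Agent.Helper79.GQ

open MeasureTheory ProbabilityTheory Pool.Agent.Helper79.GR

private lemma MA_le {d : ℕ} {f g : (Edge d → ℝ) → ℝ} (hf : Measurable f) (hg : Measurable g) :
    Measurable fun c => f c ≤ g c :=
  measurableSet_setOfPred.1 (measurableSet_le hf hg)

private lemma MA_lt {d : ℕ} {f g : (Edge d → ℝ) → ℝ} (hf : Measurable f) (hg : Measurable g) :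
    Measurable fun c => f c < g c :=
  measurableSet_setOfPred.1 (measurableSet_lt hf hg)

private lemma MA_eq {d : ℕ} {f g : (Edge d → ℝ) → ℝ} (hf : Measurable f) (hg : Measurable g) :
    Measurable fun c => f c = g c :=
  measurableSet_setOfPred.1 (measurableSet_eq_fun hf hg)

private instance MA_countable {d : ℕ} : Countable (Edge d) := by
  have : Countable (Sym2 (V d)) := Quot.mk_surjective.countable
  exact inferInstance

theorem measurableSet_Bd {d : ℕ} (a b : ℝ) : MeasurableSet {c : Edge d → ℝ | Bd a b c} := by
  refine measurableSet_setOfPred.2 ?_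
  unfold Bd
  exact measurable_const.and (Measurable.forall fun e =>
    (MA_le measurable_const (measurable_pi_apply e)).and
      (MA_le (measurable_pi_apply e) measurable_const))

theorem measurableSet_H1 {d : ℕ} (μ : F d → ℝ) (C δ r : ℝ) :
    MeasurableSet {c : Edge d → ℝ | H1 μ c C δ r} := by
  refine measurableSet_setOfPred.2 ?_
  unfold H1
  exact Measurable.forall fun v => measurable_const.imp
    (MA_le (((measurable_T_cfg 0 v).sub measurable_const).abs) measurable_const)

theorem measurableSet_H2 {d : ℕ} (ρ : F d →L[ℝ] ℝ) (C δ r : ℝ) (z : V d) :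
    MeasurableSet {c : Edge d → ℝ | H2 c ρ C δ r z} := by
  refine measurableSet_setOfPred.2 ?_
  unfold H2
  exact Measurable.forall fun x => Measurable.forall fun y => measurable_const.imp
    (measurable_const.imp (MA_le ((measurable_T_cfg x z).sub (measurable_T_cfg y z))
      measurable_const))

theorem measurableSet_H3 {d : ℕ} (w : F d) (n : ℕ) (δ : ℝ) (s : ℕ) :
    MeasurableSet {c : Edge d → ℝ | H3 c w n δ s} := by
  refine measurableSet_setOfPred.2 ?_
  unfold H3
  exact Measurable.forall fun l => measurable_const.imp
    (MA_le (measurable_T_cfg _ _) measurable_const)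

theorem measurableSet_GG {d N : ℕ} (μ : F d → ℝ) (ε r : ℝ) (w : Fin N → F d)
    (z : Fin N → V d) : MeasurableSet {c : Edge d → ℝ | GG μ ε r w c z} := by
  refine measurableSet_setOfPred.2 ?_
  unfold GG
  refine Measurable.forall fun i => Measurable.and ?_ ?_
  · exact Measurable.exists fun q => measurable_const.and (measurable_const.and
      (MA_eq ((measurable_T_cfg 0 q).add (measurable_T_cfg q (z i))) (measurable_T_cfg 0 (z i))))
  · exact Measurable.forall fun j => measurable_const.imp (Measurable.forall fun q =>
      measurable_const.imp (measurable_const.imp (MA_lt (measurable_T_cfg 0 (z i))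
        ((measurable_T_cfg 0 q).add (measurable_T_cfg q (z i))))))

end Pool.Agent.Helper79.GQ
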