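import Mathlib

/-!
# GQ-AA: König's lemma and infinitely often
-/

set_option autoImplicit false

namespace Pool.Agent.Helper79.GQ

open MeasureTheory

/-- Call `l` good if for all `n` there is `l'` with `n ≤ l'.length`, `l <+: l'`, `Q l'`.  The empty
list is good, a good list has a good extension by one letter (finitely many letters, the property
is monotone in `n`), and good lists satisfy `Q` (they are closed under initial parts by `hQ`). -/
theorem konig_gen {α : Type} [Finite α] (Q : List α → Prop)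
    (hQ : ∀ (l : List α) (x : α), Q (l ++ [x]) → Q l)
    (h : ∀ n : ℕ, ∃ l : List α, l.length = n ∧ Q l) :
    ∃ f : ℕ → α, ∀ n, Q ((List.range n).map f) := by
  classical
  have hpre : ∀ (t l : List α), Q (l ++ t) → Q l := by
    intro t
    induction t using List.reverseRecOn with
    | nil => intro l hl; simpa using hl
    | append_singleton t x ih =>
      intro l hl
      apply ih
      apply hQ _ x
      rwa [List.append_assoc]
  have h0 : ∀ n : ℕ, ∃ l' : List α, n ≤ l'.length ∧ [] <+: l' ∧ Q l' := by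
    intro n
    obtain ⟨l, h1, h2⟩ := h n
    exact ⟨l, h1.ge, List.nil_prefix, h2⟩
  have hstep : ∀ l : List α, (∀ n : ℕ, ∃ l' : List α, n ≤ l'.length ∧ l <+: l' ∧ Q l') →
      ∃ x : α, ∀ n : ℕ, ∃ l' : List α, n ≤ l'.length ∧ (l ++ [x]) <+: l' ∧ Q l' := by
    intro l hl
    by_contra hcon
    push Not at hcon
    choose N hN using hcon
    obtain ⟨M, hM⟩ := (Set.finite_range N).bddAbove
    obtain ⟨l', h1, ⟨t, rfl⟩, h3⟩ := hl (max M (l.length + 1))
    cases t with
    | nil =>
      have := le_trans (le_max_right M (l.length + 1)) h1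
      simp at this
    | cons x t =>
      have hx : N x ≤ M := hM ⟨x, rfl⟩
      exact hN x (l ++ x :: t) (hx.trans ((le_max_left _ _).trans h1)) ⟨t, by simp⟩ h3
  obtain ⟨x0, _⟩ := hstep [] h0
  have : Nonempty α := ⟨x0⟩
  choose! nx hnx using hstep
  have hgood : ∀ n : ℕ, ∀ k : ℕ, ∃ l' : List α, k ≤ l'.length ∧
      (Nat.rec (motive := fun _ => List α) [] (fun _ l => l ++ [nx l]) n : List α) <+: l' ∧
        Q l' := by
    intro n
    induction n with
    | zero => exact h0
    | succ n ih => exact hnx _ ih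
  refine ⟨fun n => nx (Nat.rec (motive := fun _ => List α) [] (fun _ l => l ++ [nx l]) n), ?_⟩
  intro n
  have hmap : (List.range n).map (fun n => nx (Nat.rec (motive := fun _ => List α) []
      (fun _ l => l ++ [nx l]) n)) =
      Nat.rec (motive := fun _ => List α) [] (fun _ l => l ++ [nx l]) n := by
    induction n with
    | zero => rfl
    | succ n ih => rw [List.range_succ, List.map_append, ih]; rfl
  rw [hmap]
  obtain ⟨l', _, ⟨t, ht⟩, h3⟩ := hgood n 0
  exact hpre t _ (ht ▸ h3)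

/-- `measure_iInter` of the decreasing sets `⋃ k ≥ n, E k` (`tendsto_measure_iInter_atTop`). -/
theorem prob_io {Ω : Type*} [MeasurableSpace Ω] (P : Measure Ω) [IsProbabilityMeasure P]
    (E : ℕ → Set Ω) (hE : ∀ n, MeasurableSet (E n)) (q : ℝ) (hq : ∀ n, q ≤ P.real (E n)) :
    MeasurableSet {ω | ∀ n, ∃ k ≥ n, ω ∈ E k} ∧ q ≤ P.real {ω | ∀ n, ∃ k ≥ n, ω ∈ E k} := by
  have hset : {ω | ∀ n, ∃ k ≥ n, ω ∈ E k} = ⋂ n : ℕ, ⋃ k : ℕ, ⋃ _ : n ≤ k, E k := by
    ext ω
    simp [ge_iff_le]
  have hmeas : ∀ n : ℕ, MeasurableSet (⋃ k : ℕ, ⋃ _ : n ≤ k, E k) := fun n =>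
    MeasurableSet.iUnion fun k => MeasurableSet.iUnion fun _ => hE k
  have hS : MeasurableSet (⋂ n : ℕ, ⋃ k : ℕ, ⋃ _ : n ≤ k, E k) := MeasurableSet.iInter hmeas
  rw [hset]
  refine ⟨hS, ?_⟩
  have hanti : Antitone (fun n : ℕ => ⋃ k : ℕ, ⋃ _ : n ≤ k, E k) := by
    intro a b hab
    apply Set.iUnion_mono
    intro k
    apply Set.iUnion_subset
    intro hk
    exact Set.subset_iUnion_of_subset (hab.trans hk) (subset_refl _)
  have ht := tendsto_measure_iInter_atTop (μ := P)
    (s := fun n : ℕ => ⋃ k : ℕ, ⋃ _ : n ≤ k, E k)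
    (fun n => (hmeas n).nullMeasurableSet) hanti ⟨0, measure_ne_top P _⟩
  have hge : ENNReal.ofReal q ≤ P (⋂ n : ℕ, ⋃ k : ℕ, ⋃ _ : n ≤ k, E k) := by
    refine ge_of_tendsto' ht fun n => ?_
    calc ENNReal.ofReal q ≤ ENNReal.ofReal (P.real (E n)) := ENNReal.ofReal_le_ofReal (hq n)
      _ = P (E n) := by rw [ofReal_measureReal]
      _ ≤ P (⋃ k : ℕ, ⋃ _ : n ≤ k, E k) := by
        apply measure_mono
        exact Set.subset_iUnion_of_subset n (Set.subset_iUnion_of_subset le_rfl (subset_refl _))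
  exact (ENNReal.ofReal_le_iff_le_toReal (measure_ne_top P _)).1 hge

end Pool.Agent.Helper79.GQ
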