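import Pool.Agent.Helper79.GQ.LB
import Pool.Agent.Helper79.GR.DE

/-!
# GQ-AB: geodesics to targets of different gradients are disjoint

Put `x = fl r (w i)`, `y = fl r (w j)`, both with norm `≤ C r`.  If the walks have the common
vertex `q`: `T x q + T q (z i) = T x (z i)`, `T y q + T q (z j) = T y (z j)` (`Geo.split`), so
`T x (z j) + T y (z i) ≤ T x (z i) + T y (z j)` (`T_triangle`).  But `H2` gives
`T x (z i) - T y (z i) ≤ ρ i (rv y - rv x) + δ r` and
`T y (z j) - T x (z j) ≤ ρ j (rv x - rv y) + δ r`; by `Dir.rho_fl`, `Dir.rho_fl'` the sum of the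
right sides is at most `- 2 g r + 4 m d + 2 δ r < 0`.
-/

set_option autoImplicit false

namespace Pool.Agent.Helper79.GQ

open MeasureTheory ProbabilityTheory Pool.Agent.Helper79.GR

theorem disjoint_geo {d N : ℕ} {a b m : ℝ} {c : Edge d → ℝ} (hc : Bd a b c) {μ : F d → ℝ}
    (hμ : Nrm a m μ) {w : Fin N → F d} {ρ : Fin N → F d →L[ℝ] ℝ} {g : ℝ} (hD : Dir μ w ρ g)
    (C δ : ℝ) (r : ℕ) (z : Fin N → V d) (hH : ∀ i, H2 c (ρ i) C δ r (z i))
    (hC : (r : ℝ) / a + d ≤ C * r) (hg : 4 * m * d + 2 * δ * r < 2 * g * r)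
    (i j : Fin N) (hij : i ≠ j) (u u' : List (St d)) (hu : Geo c (fl r (w i)) u)
    (huz : pos (fl r (w i)) u = z i) (hu' : Geo c (fl r (w j)) u')
    (huz' : pos (fl r (w j)) u' = z j) (k l : ℕ) :
    pos (fl r (w i)) (u.take k) ≠ pos (fl r (w j)) (u'.take l) := by
  intro hq
  have hapos := hμ.apos
  have nb : ∀ i, n1 (fl r (w i)) ≤ C * r := by
    intro i
    have h1 := n1_fl_le r (w i)
    have h2 : (r : ℝ) * nr (w i) ≤ r * (1 / a) :=
      mul_le_mul_of_nonneg_left (Dir.nr_le hμ hD i) (Nat.cast_nonneg r)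
    have h3 : (r : ℝ) * (1 / a) = r / a := by ring
    linarith
  have s1 := Geo.split hc hu k
  have s2 := Geo.split hc hu' l
  rw [← hq, huz'] at s2
  rw [huz] at s1
  have t1 := T_triangle hc (fl r (w i)) (pos (fl r (w i)) (u.take k)) (z j)
  have t2 := T_triangle hc (fl r (w j)) (pos (fl r (w i)) (u.take k)) (z i)
  have e1 := hH i (fl r (w i)) (fl r (w j)) (nb i) (nb j)
  have e2 := hH j (fl r (w j)) (fl r (w i)) (nb j) (nb i)
  rw [map_sub] at e1 e2
  have r1 := Dir.rho_fl hμ hD i r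
  have r2 := Dir.rho_fl hμ hD j r
  have r3 := Dir.rho_fl' hμ hD hij r
  have r4 := Dir.rho_fl' hμ hD hij.symm r
  linarith

end Pool.Agent.Helper79.GQ
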