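import Pool.Agent.Helper79.GQ.LB

/-!
# GQ-ID: increments from the points of a net (no probability)

Choose `x', y' ∈ A` with `n1 (x' - x), n1 (y' - y) ≤ κ r`.  `T x z ≤ T x x' + T x' z ≤
b κ r + T x' z`, `T y z ≥ T y' z - b κ r` (`T_triangle`, `T_le`).  With `u = v + y' - x'`:
`T x' z - T y' z ≤ T x' (x' + u) + T (y' + v) z - (T y' (y' + v) + T (y' + v) z - δ r)
≤ μ (rv u) - μ (rv v) + 3 δ r ≤ ρ (rv y' - rv x') + 4 δ r` (`rv u = rv v + (rv y' - rv x')`), and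
`ρ (rv y' - rv x') ≤ ρ (rv y - rv x) + 2 m κ r` (`abs_le_of_le`).
-/

set_option autoImplicit false

namespace Pool.Agent.Helper79.GQ

open MeasureTheory ProbabilityTheory Pool.Agent.Helper79.GR

theorem incr_det {d : ℕ} {a b m : ℝ} {c : Edge d → ℝ} (hc : Bd a b c) {μ : F d → ℝ}
    (hμ : Nrm a m μ) {ρ : F d →L[ℝ] ℝ} (hρ : ∀ x, ρ x ≤ μ x) (A : Finset (V d)) (v z : V d)
    (r C κ δ R : ℝ) (hb : 0 ≤ b) (hm : 0 ≤ m)
    (hnet : ∀ q : V d, n1 q ≤ C * r → ∃ x ∈ A, n1 (x - q) ≤ κ * r)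
    (h1 : ∀ x ∈ A, T c x (x + v) + T c (x + v) z - δ * r ≤ T c x z)
    (h2 : ∀ x ∈ A, ∀ u : V d, n1 u ≤ R * r → |T c x (x + u) - μ (rv u)| ≤ δ * r)
    (hR : n1 v + 2 * (C + κ) * r ≤ R * r)
    (h3 : ∀ y : F d, nr y ≤ 2 * (C + κ) * r → μ (rv v + y) - μ (rv v) ≤ ρ y + δ * r) :
    ∀ x y : V d, n1 x ≤ C * r → n1 y ≤ C * r →
      T c x z - T c y z ≤ ρ (rv y - rv x) + (4 * δ + 2 * (b + m) * κ) * r := by
  intro x y hx hy
  obtain ⟨x', hx'A, hx'⟩ := hnet x hx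
  obtain ⟨y', hy'A, hy'⟩ := hnet y hy
  have hyx : n1 (y' - x') ≤ 2 * (C + κ) * r := by
    have e : y' - x' = (y' - y) + (y + (-x + (x - x'))) := by abel
    have g1 := n1_add_le (y' - y) (y + (-x + (x - x')))
    have g2 := n1_add_le y (-x + (x - x'))
    have g3 := n1_add_le (-x) (x - x')
    rw [n1_neg, n1_sub_comm x x'] at g3
    rw [e]
    linarith
  have hyx0 : 0 ≤ n1 (y' - x') := n1_nonneg _
  -- the passage times
  have t1 : T c x z ≤ T c x x' + T c x' z := T_triangle hc x x' z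
  have t2 : T c x x' ≤ b * (κ * r) :=
    (T_le hc x x').trans (mul_le_mul_of_nonneg_left hx' hb)
  have t3 : T c y' z ≤ T c y' y + T c y z := T_triangle hc y' y z
  have t4 : T c y' y ≤ b * (κ * r) := by
    refine (T_le hc y' y).trans (mul_le_mul_of_nonneg_left ?_ hb)
    rw [n1_sub_comm]
    exact hy'
  have hu : x' + (v + (y' - x')) = y' + v := by abel
  have t5 : T c x' z ≤ T c x' (y' + v) + T c (y' + v) z := T_triangle hc _ _ _
  have t6 := (abs_le.1 (h2 x' hx'A (v + (y' - x')) (by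
    have g := n1_add_le v (y' - x')
    linarith))).2
  rw [hu, rv_add', rv_sub] at t6
  have t7 := (abs_le.1 (h2 y' hy'A v (by linarith))).1
  have t8 := h1 y' hy'A
  have t9 := h3 (rv y' - rv x') (by
    rw [← rv_sub, nr_rv]
    exact hyx)
  -- the linear form
  have l1 := (abs_le.1 (abs_le_of_le hμ hρ (rv (y' - y)))).2
  have l2 := (abs_le.1 (abs_le_of_le hμ hρ (rv (x' - x)))).1
  rw [nr_rv] at l1 l2
  have l3 : m * n1 (y' - y) ≤ m * (κ * r) := mul_le_mul_of_nonneg_left hy' hm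
  have l4 : m * n1 (x' - x) ≤ m * (κ * r) := mul_le_mul_of_nonneg_left hx' hm
  have l5 : ρ (rv y' - rv x') = ρ (rv y - rv x) + ρ (rv (y' - y)) - ρ (rv (x' - x)) := by
    rw [rv_sub, rv_sub, map_sub, map_sub, map_sub, map_sub]
    ring
  have l6 : (4 * δ + 2 * (b + m) * κ) * r =
      4 * (δ * r) + 2 * (b * (κ * r)) + 2 * (m * (κ * r)) := by ring
  rw [l6]
  linarith

end Pool.Agent.Helper79.GQ
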