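import Pool.Agent.Helper79.GQ.Defs

/-!
# GQ-LA: elementary properties of the norms
-/

set_option autoImplicit false

namespace Pool.Agent.Helper79.GQ

open MeasureTheory ProbabilityTheory Pool.Agent.Helper79.GR

theorem nr_nonneg {d : ℕ} (x : F d) : 0 ≤ nr x := Finset.sum_nonneg fun _ _ => abs_nonneg _

theorem nr_zero {d : ℕ} : nr (0 : F d) = 0 := by
  simp [nr]

theorem nr_add_le {d : ℕ} (x y : F d) : nr (x + y) ≤ nr x + nr y := by
  unfold nr
  rw [← Finset.sum_add_distrib]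
  exact Finset.sum_le_sum fun i _ => abs_add_le _ _

theorem nr_neg {d : ℕ} (x : F d) : nr (-x) = nr x := by
  unfold nr
  exact Finset.sum_congr rfl fun i _ => by rw [Pi.neg_apply, abs_neg]

theorem nr_sub_comm {d : ℕ} (x y : F d) : nr (x - y) = nr (y - x) := by
  rw [← nr_neg, neg_sub]

theorem nr_smul {d : ℕ} (t : ℝ) (x : F d) : nr (t • x) = |t| * nr x := by
  unfold nr
  rw [Finset.mul_sum]
  exact Finset.sum_congr rfl fun i _ => by rw [Pi.smul_apply, smul_eq_mul, abs_mul]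

theorem nr_rv {d : ℕ} (v : V d) : nr (rv v) = n1 v := rfl

theorem rv_sub {d : ℕ} (x y : V d) : rv (x - y) = rv x - rv y := by
  funext i
  simp [rv]

theorem rv_add' {d : ℕ} (x y : V d) : rv (x + y) = rv x + rv y := by
  funext i
  simp [rv]

theorem rv_zero {d : ℕ} : rv (0 : V d) = 0 := by
  funext i
  simp [rv]

/-- the norm of `Fin d → ℝ` is the sup norm -/
theorem norm_le_nr {d : ℕ} (x : F d) : ‖x‖ ≤ nr x := by
  rw [pi_norm_le_iff_of_nonneg (nr_nonneg x)]
  intro i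
  rw [Real.norm_eq_abs]
  exact Finset.single_le_sum (f := fun i => |x i|) (fun _ _ => abs_nonneg _) (Finset.mem_univ i)

theorem nr_le_norm {d : ℕ} (x : F d) : nr x ≤ d * ‖x‖ := by
  have h : nr x ≤ ∑ _i : Fin d, ‖x‖ := by
    unfold nr
    refine Finset.sum_le_sum fun i _ => ?_
    rw [← Real.norm_eq_abs]
    exact norm_le_pi_norm x i
  rwa [Finset.sum_const, Finset.card_univ, Fintype.card_fin, nsmul_eq_mul] at h

/-- each coordinate changes by at most `1` -/
theorem nr_fl {d : ℕ} (n : ℕ) (x : F d) : nr (rv (fl n x) - (n : ℝ) • x) ≤ d := by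
  have h : nr (rv (fl n x) - (n : ℝ) • x) ≤ ∑ _i : Fin d, (1 : ℝ) := by
    unfold nr
    refine Finset.sum_le_sum fun i _ => ?_
    change |((⌊n * x i⌋ : ℤ) : ℝ) - n * x i| ≤ 1
    rw [abs_le]
    have h1 := Int.floor_le ((n : ℝ) * x i)
    have h2 := Int.lt_floor_add_one ((n : ℝ) * x i)
    constructor <;> linarith
  simpa using h

theorem n1_fl_le {d : ℕ} (n : ℕ) (x : F d) : n1 (fl n x) ≤ n * nr x + d := by
  have h1 := nr_add_le (rv (fl n x) - (n : ℝ) • x) ((n : ℝ) • x)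
  have h2 := nr_fl n x
  rw [sub_add_cancel, nr_rv, nr_smul, abs_of_nonneg (Nat.cast_nonneg n)] at h1
  linarith

/-- each coordinate of `fl n x - fl n' x` differs from `(n - n') x` by less than `1` -/
theorem n1_fl_sub_le {d : ℕ} (n n' : ℕ) (h : n' ≤ n) (x : F d) :
    n1 (fl n x - fl n' x) ≤ (n - n') * nr x + d := by
  have hn : (n' : ℝ) ≤ n := Nat.cast_le.2 h
  have h0 : n1 (fl n x - fl n' x) ≤ ∑ i : Fin d, (((n : ℝ) - n') * |x i| + 1) := by
    unfold n1
    refine Finset.sum_le_sum fun i _ => ?_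
    change |(((⌊n * x i⌋ : ℤ) - (⌊n' * x i⌋ : ℤ) : ℤ) : ℝ)| ≤ ((n : ℝ) - n') * |x i| + 1
    have e1 : ((n : ℝ) - n') * |x i| = |(n : ℝ) * x i - n' * x i| := by
      rw [← sub_mul, abs_mul, abs_of_nonneg (sub_nonneg.2 hn)]
    rw [Int.cast_sub, e1]
    have h1 := Int.floor_le ((n : ℝ) * x i)
    have h2 := Int.lt_floor_add_one ((n : ℝ) * x i)
    have h3 := Int.floor_le ((n' : ℝ) * x i)
    have h4 := Int.lt_floor_add_one ((n' : ℝ) * x i)
    have h5 := le_abs_self ((n : ℝ) * x i - n' * x i)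
    have h6 := neg_abs_le ((n : ℝ) * x i - n' * x i)
    rw [abs_le]
    constructor <;> linarith
  refine h0.trans (le_of_eq ?_)
  rw [Finset.sum_add_distrib, ← Finset.mul_sum, Finset.sum_const, Finset.card_univ,
    Fintype.card_fin, nsmul_eq_mul, mul_one]
  rfl

end Pool.Agent.Helper79.GQ
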