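import Pool.Agent.Helper79.GQ.LA

/-!
# GQ-LB: elementary properties of `Nrm`
-/

set_option autoImplicit false

namespace Pool.Agent.Helper79.GQ

open MeasureTheory ProbabilityTheory Pool.Agent.Helper79.GR

variable {d : ℕ} {a m : ℝ} {μ : F d → ℝ}

theorem Nrm.nonneg (h : Nrm a m μ) (x : F d) : 0 ≤ μ x :=
  le_trans (mul_nonneg h.apos.le (nr_nonneg x)) (h.lo x)

theorem Nrm.zero (h : Nrm a m μ) : μ 0 = 0 := by
  have h1 := h.smul 0 le_rfl 0
  rw [zero_smul, zero_mul] at h1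
  exact h1

theorem Nrm.pos (h : Nrm a m μ) {x : F d} (hx : x ≠ 0) : 0 < μ x := by
  have h1 : 0 < nr x := lt_of_lt_of_le (norm_pos_iff.2 hx) (norm_le_nr x)
  exact lt_of_lt_of_le (mul_pos h.apos h1) (h.lo x)

/-- `μ x ≤ μ y + μ (x - y)` and conversely (`even`) -/
theorem Nrm.lip (h : Nrm a m μ) (x y : F d) : |μ x - μ y| ≤ m * nr (x - y) := by
  have h1 : ∀ x y : F d, μ x - μ y ≤ m * nr (x - y) := by
    intro x y
    have h2 := h.add y (x - y)
    rw [add_sub_cancel] at h2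
    have h3 := h.hi (x - y)
    linarith
  rw [abs_le]
  have h4 := h1 x y
  have h5 := h1 y x
  rw [nr_sub_comm] at h5
  constructor <;> linarith

theorem Nrm.lip' (h : Nrm a m μ) (x y : F d) : μ x ≤ μ y + m * nr (x - y) := by
  have h1 := (abs_le.1 (h.lip x y)).2
  linarith

/-- `lo` and `hi` at a unit vector -/
theorem Nrm.a_le_m (h : Nrm a m μ) (hd : 1 ≤ d) : a ≤ m := by
  have h1 : nr (Pi.single (⟨0, hd⟩ : Fin d) (1 : ℝ) : F d) = 1 := by
    unfold nr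
    rw [Finset.sum_eq_single (⟨0, hd⟩ : Fin d)]
    · rw [Pi.single_eq_same, abs_one]
    · intro b _ hb
      rw [Pi.single_eq_of_ne hb, abs_zero]
    · intro hb
      exact absurd (Finset.mem_univ _) hb
  have h2 := h.lo (Pi.single (⟨0, hd⟩ : Fin d) (1 : ℝ))
  have h3 := h.hi (Pi.single (⟨0, hd⟩ : Fin d) (1 : ℝ))
  rw [h1] at h2 h3
  linarith

theorem Nrm.n1_le (h : Nrm a m μ) (v : V d) : n1 v ≤ μ (rv v) / a := by
  rw [le_div_iff₀ h.apos, mul_comm]
  exact h.lo (rv v)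

theorem Nrm.continuous (h : Nrm a m μ) : Continuous μ := by
  have hK : ∃ K : NNReal, LipschitzWith K μ := by
    refine ⟨Real.toNNReal (|m| * d), LipschitzWith.of_dist_le_mul fun x y => ?_⟩
    have hc : 0 ≤ |m| * (d : ℝ) := mul_nonneg (abs_nonneg m) (Nat.cast_nonneg d)
    rw [Real.coe_toNNReal _ hc, Real.dist_eq, dist_eq_norm]
    refine (h.lip x y).trans ?_
    have h1 : m * nr (x - y) ≤ |m| * nr (x - y) :=
      mul_le_mul_of_nonneg_right (le_abs_self m) (nr_nonneg _)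
    have h2 : |m| * nr (x - y) ≤ |m| * (d * ‖x - y‖) :=
      mul_le_mul_of_nonneg_left (nr_le_norm _) (abs_nonneg m)
    linarith
  obtain ⟨K, hK⟩ := hK
  exact hK.continuous

/-- Lipschitz in the sup norm with a natural constant (`nr_le_norm`) -/
theorem Nrm.lipschitz (h : Nrm a m μ) : ∃ K : NNReal, LipschitzWith K μ := by
  refine ⟨Real.toNNReal (|m| * d), LipschitzWith.of_dist_le_mul fun x y => ?_⟩
  have hc : 0 ≤ |m| * (d : ℝ) := mul_nonneg (abs_nonneg m) (Nat.cast_nonneg d)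
  rw [Real.coe_toNNReal _ hc, Real.dist_eq, dist_eq_norm]
  refine (h.lip x y).trans ?_
  have h1 : m * nr (x - y) ≤ |m| * nr (x - y) :=
    mul_le_mul_of_nonneg_right (le_abs_self m) (nr_nonneg _)
  have h2 : |m| * nr (x - y) ≤ |m| * (d * ‖x - y‖) :=
    mul_le_mul_of_nonneg_left (nr_le_norm _) (abs_nonneg m)
  linarith

/-- a functional below `μ` (use `x` and `- x`) -/
theorem abs_le_of_le (h : Nrm a m μ) {ρ : F d →L[ℝ] ℝ} (hρ : ∀ x, ρ x ≤ μ x) (x : F d) :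
    |ρ x| ≤ m * nr x := by
  have h1 := hρ x
  have h2 := hρ (-x)
  rw [map_neg, h.even] at h2
  have h3 := h.hi x
  rw [abs_le]
  constructor <;> linarith

variable {N : ℕ} {w : Fin N → F d} {ρ : Fin N → F d →L[ℝ] ℝ} {g : ℝ}

theorem Dir.nr_le (h : Nrm a m μ) (hD : Dir μ w ρ g) (i : Fin N) : nr (w i) ≤ 1 / a := by
  rw [le_div_iff₀ h.apos, mul_comm]
  have h1 := h.lo (w i)
  rw [hD.one i] at h1
  exact h1

private theorem Dir.m_nonneg (h : Nrm a m μ) (hD : Dir μ w ρ g) (i : Fin N) : 0 ≤ m := by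
  have h1 := h.hi (w i)
  rw [hD.one i] at h1
  by_contra hc
  have h2 : m * nr (w i) ≤ 0 := mul_nonpos_of_nonpos_of_nonneg (not_le.1 hc).le (nr_nonneg _)
  linarith

/-- `ρ i (rv (fl n (w i))) ≥ n - m d` (`nr_fl`, `abs_le_of_le`) -/
theorem Dir.rho_fl (h : Nrm a m μ) (hD : Dir μ w ρ g) (i : Fin N) (n : ℕ) :
    n - m * d ≤ ρ i (rv (fl n (w i))) := by
  have hm : 0 ≤ m := Dir.m_nonneg h hD i
  have h1 : ρ i (rv (fl n (w i))) = n + ρ i (rv (fl n (w i)) - (n : ℝ) • w i) := by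
    rw [map_sub, map_smul, hD.eq i, smul_eq_mul]
    ring
  have h2 := (abs_le.1 (abs_le_of_le h (hD.le i) (rv (fl n (w i)) - (n : ℝ) • w i))).1
  have h3 : m * nr (rv (fl n (w i)) - (n : ℝ) • w i) ≤ m * d :=
    mul_le_mul_of_nonneg_left (nr_fl n (w i)) hm
  rw [h1]
  linarith

theorem Dir.rho_fl' (h : Nrm a m μ) (hD : Dir μ w ρ g) {i j : Fin N} (hij : i ≠ j) (n : ℕ) :
    ρ i (rv (fl n (w j))) ≤ (1 - g) * n + m * d := by
  have hm : 0 ≤ m := Dir.m_nonneg h hD i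
  have h1 : ρ i (rv (fl n (w j))) = n * ρ i (w j) + ρ i (rv (fl n (w j)) - (n : ℝ) • w j) := by
    rw [map_sub, map_smul, smul_eq_mul]
    ring
  have h2 := (abs_le.1 (abs_le_of_le h (hD.le i) (rv (fl n (w j)) - (n : ℝ) • w j))).2
  have h3 : m * nr (rv (fl n (w j)) - (n : ℝ) • w j) ≤ m * d :=
    mul_le_mul_of_nonneg_left (nr_fl n (w j)) hm
  have h4 : (n : ℝ) * ρ i (w j) ≤ n * (1 - g) :=
    mul_le_mul_of_nonneg_left (hD.sep i j hij) (Nat.cast_nonneg n)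
  rw [h1]
  linarith

end Pool.Agent.Helper79.GQ
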