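import Pool.Agent.Helper79.GQ.LB

/-!
# GQ-LC: gradients of a norm
-/

set_option autoImplicit false

namespace Pool.Agent.Helper79.GQ

open MeasureTheory ProbabilityTheory Pool.Agent.Helper79.GR

variable {d : ℕ} {a m : ℝ} {μ : F d → ℝ}

private theorem lc_line {w : F d} {ρ : F d →L[ℝ] ℝ} (hw : HasFDerivAt μ ρ w) (x : F d) :
    HasDerivAt (fun t : ℝ => μ (w + t • x)) (ρ x) 0 := by
  have h1 : HasDerivAt (fun t : ℝ => w + t • x) x 0 := by
    have h := ((hasDerivAt_id (0 : ℝ)).smul_const x).const_add w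
    simpa using h
  have hw' : HasFDerivAt μ ρ ((fun t : ℝ => w + t • x) 0) := by simpa using hw
  exact hw'.comp_hasDerivAt (0 : ℝ) h1

private theorem lc_lim {w : F d} {ρ : F d →L[ℝ] ℝ} (hw : HasFDerivAt μ ρ w) (x : F d) :
    Filter.Tendsto (fun t : ℝ => t⁻¹ * (μ (w + t • x) - μ w)) (nhdsWithin 0 (Set.Ioi 0))
      (nhds (ρ x)) := by
  have h := (lc_line hw x).tendsto_slope_zero_right
  simpa using h

/-- For `t > 0`: `(μ (w + t • x) - μ w) / t ≤ μ x`; let `t → 0+`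
(`HasFDerivAt.hasDerivAt` along the line, or `HasFDerivAt.lim`). -/
theorem grad_le (h : Nrm a m μ) {w : F d} {ρ : F d →L[ℝ] ℝ} (hw : HasFDerivAt μ ρ w) (x : F d) :
    ρ x ≤ μ x := by
  refine le_of_tendsto (lc_lim hw x) ?_
  filter_upwards [self_mem_nhdsWithin] with t ht
  have ht0 : (0 : ℝ) < t := ht
  have h1 : μ (w + t • x) - μ w ≤ t * μ x := by
    have h2 := h.add w (t • x)
    rw [h.smul t ht0.le] at h2
    linarith
  calc t⁻¹ * (μ (w + t • x) - μ w) ≤ t⁻¹ * (t * μ x) :=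
        mul_le_mul_of_nonneg_left h1 (inv_nonneg.mpr ht0.le)
    _ = μ x := by rw [← mul_assoc, inv_mul_cancel₀ ht0.ne', one_mul]

/-- `μ ((1 + t) • w) = (1 + t) * μ w`: derivative at `t = 0` (uniqueness of derivatives). -/
theorem grad_eq (h : Nrm a m μ) {w : F d} {ρ : F d →L[ℝ] ℝ} (hw : HasFDerivAt μ ρ w) :
    ρ w = μ w := by
  refine tendsto_nhds_unique (lc_lim hw w) ?_
  refine Filter.Tendsto.congr' ?_ tendsto_const_nhds
  filter_upwards [self_mem_nhdsWithin] with t ht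
  have ht0 : (0 : ℝ) < t := ht
  have h1 : w + t • w = (1 + t) • w := by rw [add_smul, one_smul]
  rw [h1, h.smul _ (by linarith)]
  field_simp
  ring

/-- `μ - ρ' ≥ 0` has a minimum at `w`, so its derivative `ρ - ρ'` is zero
(`IsLocalMin.hasFDerivAt_eq_zero`). -/
theorem grad_unique {w : F d} {ρ ρ' : F d →L[ℝ] ℝ} (hw : HasFDerivAt μ ρ w)
    (h1 : ∀ x, ρ' x ≤ μ x) (h2 : ρ' w = μ w) : ρ' = ρ := by
  have h3 : HasFDerivAt (fun x => μ x - ρ' x) (ρ - ρ') w := hw.sub ρ'.hasFDerivAt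
  have h4 : IsLocalMin (fun x => μ x - ρ' x) w := by
    refine Filter.Eventually.of_forall fun x => ?_
    change μ w - ρ' w ≤ μ x - ρ' x
    rw [h2, sub_self]
    exact sub_nonneg.mpr (h1 x)
  have h5 := h4.hasFDerivAt_eq_zero h3
  exact (sub_eq_zero.mp h5).symm

/-- `μ x = t * μ (t⁻¹ • x)`, chain rule. -/
theorem grad_smul (h : Nrm a m μ) {w : F d} {ρ : F d →L[ℝ] ℝ} (hw : HasFDerivAt μ ρ w) {t : ℝ}
    (ht : 0 < t) : HasFDerivAt μ ρ (t • w) := by
  have h1 : HasFDerivAt (fun x : F d => t⁻¹ • x) (t⁻¹ • ContinuousLinearMap.id ℝ (F d)) (t • w) :=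
    (hasFDerivAt_id (𝕜 := ℝ) (t • w)).const_smul t⁻¹
  have e : t⁻¹ • (t • w) = w := by rw [smul_smul, inv_mul_cancel₀ ht.ne', one_smul]
  have h2 : HasFDerivAt μ ρ ((fun x : F d => t⁻¹ • x) (t • w)) := by
    change HasFDerivAt μ ρ (t⁻¹ • (t • w))
    rw [e]
    exact hw
  have h3 := (h2.comp (t • w) h1).const_mul t
  have h4 : (fun x : F d => t * (μ ∘ fun x : F d => t⁻¹ • x) x) = μ := by
    funext x
    change t * μ (t⁻¹ • x) = μ x
    rw [h.smul _ (inv_nonneg.mpr ht.le), ← mul_assoc, mul_inv_cancel₀ ht.ne', one_mul]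
  have h5 : t • ρ.comp (t⁻¹ • ContinuousLinearMap.id ℝ (F d)) = ρ := by
    ext x
    simp [ht.ne']
  rw [h4, h5] at h3
  exact h3

/-- `μ x = μ (- x)`, chain rule. -/
theorem grad_neg (h : Nrm a m μ) {w : F d} {ρ : F d →L[ℝ] ℝ} (hw : HasFDerivAt μ ρ w) :
    HasFDerivAt μ (-ρ) (-w) := by
  have h1 : HasFDerivAt (fun x : F d => -x) (-ContinuousLinearMap.id ℝ (F d)) (-w) :=
    (hasFDerivAt_id (𝕜 := ℝ) (-w)).neg
  have h2 : HasFDerivAt μ ρ ((fun x : F d => -x) (-w)) := by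
    change HasFDerivAt μ ρ (-(-w))
    rw [neg_neg]
    exact hw
  have h3 := h2.comp (-w) h1
  have h4 : (μ ∘ fun x : F d => -x) = μ := by
    funext x
    exact h.even x
  have h5 : ρ.comp (-ContinuousLinearMap.id ℝ (F d)) = -ρ := by
    ext x
    simp
  rw [h4, h5] at h3
  exact h3

/-- A norm is not differentiable at `0`: `grad_le` for `x` and `- x` and, for `w = 0`,
`ρ x = lim μ (t • x) / t = μ x > 0` for `x` and for `- x`. -/
theorem grad_ne (h : Nrm a m μ) (hd : 1 ≤ d) {w : F d} {ρ : F d →L[ℝ] ℝ}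
    (hw : HasFDerivAt μ ρ w) : w ≠ 0 := by
  rintro rfl
  have h0 : μ 0 = 0 := by
    have h1 := h.smul 0 le_rfl 0
    rwa [zero_smul, zero_mul] at h1
  have key : ∀ x, ρ x = μ x := by
    intro x
    refine tendsto_nhds_unique (lc_lim hw x) ?_
    refine Filter.Tendsto.congr' ?_ tendsto_const_nhds
    filter_upwards [self_mem_nhdsWithin] with t ht
    have ht0 : (0 : ℝ) < t := ht
    rw [zero_add, h0, sub_zero, h.smul _ ht0.le, ← mul_assoc, inv_mul_cancel₀ ht0.ne', one_mul]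
  have i : Fin d := ⟨0, hd⟩
  have h2 := key (Pi.single i 1)
  have h3 := key (-Pi.single i 1)
  rw [map_neg, h.even, h2] at h3
  have h4 := h.lo (Pi.single i 1)
  have h5 : nr (Pi.single i (1 : ℝ) : F d) = 1 := by
    unfold nr
    rw [Finset.sum_eq_single i]
    · simp
    · intro j _ hj
      simp [Pi.single_eq_of_ne hj]
    · intro hi
      exact absurd (Finset.mem_univ _) hi
  rw [h5, mul_one] at h4
  have := h.apos
  linarith

end Pool.Agent.Helper79.GQ
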