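import Pool.Agent.Helper79.GQ.LB
import Pool.Agent.Helper79.GR.RC
import Pool.Agent.Helper79.GR.NC

/-!
# GQ-LH: the time constant is a norm
-/

set_option autoImplicit false

namespace Pool.Agent.Helper79.GQ

open MeasureTheory ProbabilityTheory Pool.Agent.Helper79.GR

private def rev {d : ℕ} (w : List (St d)) : List (St d) :=
  (w.map fun s => (s.1, !s.2)).reverse

private lemma sv_not {d : ℕ} (s : St d) : sv ((s.1, !s.2) : St d) = -sv s := by
  rcases s with ⟨i, _ | _⟩ <;> funext j <;> by_cases hj : j = i <;>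
    simp [sv, Pi.single_apply, hj]

private lemma ed_not {d : ℕ} (x : V d) (s : St d) :
    ed (x + sv s) ((s.1, !s.2) : St d) = ed x s := by
  apply Subtype.ext
  show s(x + sv s, x + sv s + sv ((s.1, !s.2) : St d)) = s(x, x + sv s)
  rw [sv_not, add_neg_cancel_right, Sym2.eq_swap]

private lemma rev_cons {d : ℕ} (s : St d) (w : List (St d)) :
    rev (s :: w) = rev w ++ [(s.1, !s.2)] := by
  simp [rev]

private lemma rev_rev {d : ℕ} (w : List (St d)) : rev (rev w) = w := by
  unfold rev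
  rw [List.map_reverse, List.reverse_reverse, List.map_map]
  have : ((fun s : St d => ((s.1, !s.2) : St d)) ∘ fun s : St d => ((s.1, !s.2) : St d)) = id := by
    funext s
    simp
  rw [this, List.map_id]

private lemma pos_rev {d : ℕ} (x : V d) (w : List (St d)) : pos (pos x w) (rev w) = x := by
  induction w generalizing x with
  | nil => rfl
  | cons s w ih =>
    rw [rev_cons, pos_append]
    show pos (pos (pos (x + sv s) w) (rev w)) [(s.1, !s.2)] = x
    rw [ih]
    show x + sv s + sv ((s.1, !s.2) : St d) = x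
    rw [sv_not, add_neg_cancel_right]

private lemma cost_rev {d : ℕ} (c : Edge d → ℝ) (x : V d) (w : List (St d)) :
    cost c (pos x w) (rev w) = cost c x w := by
  induction w generalizing x with
  | nil => rfl
  | cons s w ih =>
    rw [rev_cons, cost_append]
    show cost c (pos (x + sv s) w) (rev w) +
      cost c (pos (pos (x + sv s) w) (rev w)) [(s.1, !s.2)] = c (ed x s) + cost c (x + sv s) w
    rw [ih, pos_rev]
    show cost c (x + sv s) w + (c (ed (x + sv s) ((s.1, !s.2) : St d)) + 0) = _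
    rw [ed_not, add_zero, add_comm]

/-- reversal of walks: the reversed walk has the steps `(s.1, !s.2)` in the opposite order, the
edges are the same (`ed (x + sv s) (s.1, !s.2) = ed x s`, `Sym2.eq_swap`) -/
theorem T_symm {d : ℕ} (c : Edge d → ℝ) (x y : V d) : T c x y = T c y x := by
  unfold T
  have h1 : ∀ (x y : V d) (w : List (St d)), pos x w = y → pos y (rev w) = x := by
    rintro x y w rfl
    exact pos_rev x w
  refine Equiv.iInf_congr (⟨fun w => ⟨rev w.1, h1 _ _ _ w.2⟩, fun w => ⟨rev w.1, h1 _ _ _ w.2⟩,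
    fun w => Subtype.ext (rev_rev w.1), fun w => Subtype.ext (rev_rev w.1)⟩ :
    {w : List (St d) // pos x w = y} ≃ {w : List (St d) // pos y w = x}) ?_
  rintro ⟨w, rfl⟩
  exact cost_rev c x w

variable {Ω : Type*} [MeasurableSpace Ω] {d : ℕ} {P : Measure Ω} {X : Edge d → Ω → ℝ}
  {ν : Measure ℝ} {a b : ℝ}

/-- `integral_T` for `0, x` and `x, 0`, and `T_symm` -/
theorem mm_neg (h : Env P X ν a b) (x : V d) : mm P X (-x) = mm P X x := by
  have h1 := integral_T h x 0
  rw [zero_sub] at h1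
  rw [← h1]
  unfold mm
  simp only [T_symm _ x 0]

/-- one step: `T c 0 (sv s) ≤ c (ed 0 s)`, and the mean of a weight is `m` (`Env.law`,
`integral_map`) -/
theorem mm_sv (h : Env P X ν a b) (s : St d) : mm P X (sv s) ≤ ∫ x, x ∂ν := by
  haveI := h.prob
  have e1 : ∫ x, x ∂ν = ∫ ω, X (ed 0 s) ω ∂P := by
    rw [← h.law (ed 0 s)]
    exact integral_map (h.meas _).aemeasurable aestronglyMeasurable_id
  rw [e1]
  unfold mm
  refine integral_mono (integrable_T h 0 (sv s)) ?_ fun ω => ?_
  · refine Integrable.of_bound (h.meas _).aestronglyMeasurable b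
      (Filter.Eventually.of_forall fun ω => ?_)
    have h2 := h.bd (ed 0 s) ω
    rw [Real.norm_eq_abs, abs_of_nonneg (h.apos.le.trans h2.1)]
    exact h2.2
  · have h3 : pos (0 : V d) [s] = sv s := by
      show 0 + sv s = sv s
      rw [zero_add]
    have h4 := T_le_cost (h.cf_bd ω) h3
    have h5 : cost (cf X ω) 0 [s] = X (ed 0 s) ω := by
      show X (ed 0 s) ω + 0 = _
      rw [add_zero]
    rw [h5] at h4
    exact h4

private lemma n1_fl_neg {d : ℕ} (n : ℕ) (x : F d) : n1 (fl n (-x) - (-fl n x)) ≤ d := by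
  have h1 : ∀ i : Fin d, |(((fl n (-x) - (-fl n x)) i : ℤ) : ℝ)| ≤ 1 := by
    intro i
    have e : (((fl n (-x) - (-fl n x)) i : ℤ) : ℝ) = (⌊-((n : ℝ) * x i)⌋ : ℝ) + ⌊(n : ℝ) * x i⌋ := by
      simp [fl]
    rw [e, abs_le]
    have h2 := Int.floor_le (-((n : ℝ) * x i))
    have h3 := Int.floor_le ((n : ℝ) * x i)
    have h4 : ((-1 : ℤ) : ℝ) ≤ ((⌊-((n : ℝ) * x i)⌋ + ⌊(n : ℝ) * x i⌋ : ℤ) : ℝ) := by
      have h5 := Int.lt_floor_add_one (-((n : ℝ) * x i))
      have h6 := Int.lt_floor_add_one ((n : ℝ) * x i)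
      have h7 : ((-2 : ℤ) : ℝ) < ((⌊-((n : ℝ) * x i)⌋ + ⌊(n : ℝ) * x i⌋ : ℤ) : ℝ) := by
        push_cast
        linarith
      have h8 := Int.cast_lt.1 h7
      exact Int.cast_le.2 (by omega)
    push_cast at h4
    constructor
    · linarith
    · linarith
  unfold n1
  calc ∑ i, |(((fl n (-x) - (-fl n x)) i : ℤ) : ℝ)| ≤ ∑ _i : Fin d, (1 : ℝ) :=
        Finset.sum_le_sum fun i _ => h1 i
    _ = d := by simp

/-- `n1 (fl n (- x) + fl n x) ≤ d`, `mm_neg` and `SubM.lip`, `tendsto_tc`. -/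
theorem tc_neg (h : Env P X ν a b) (x : F d) : tc (mm P X) (-x) = tc (mm P X) x := by
  have hs := subM_mm h
  have h1 := ((tendsto_tc hs (-x)).sub (tendsto_tc hs x)).abs
  have h2 : Filter.Tendsto (fun n : ℕ => |b| * d / (n : ℝ)) Filter.atTop (nhds 0) :=
    tendsto_const_div_atTop_nhds_zero_nat (|b| * d)
  have h3 : |tc (mm P X) (-x) - tc (mm P X) x| ≤ 0 := by
    refine le_of_tendsto_of_tendsto h1 h2 (Filter.Eventually.of_forall fun n => ?_)
    show |mm P X (fl n (-x)) / n - mm P X (fl n x) / n| ≤ |b| * d / n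
    rw [← sub_div, abs_div, Nat.abs_cast]
    refine div_le_div_of_nonneg_right ?_ (Nat.cast_nonneg n)
    rw [← mm_neg h (fl n x)]
    refine (hs.lip _ _).trans ?_
    calc b * n1 (fl n (-x) - -fl n x) ≤ |b| * n1 (fl n (-x) - -fl n x) :=
          mul_le_mul_of_nonneg_right (le_abs_self b) (n1_nonneg _)
      _ ≤ |b| * d := mul_le_mul_of_nonneg_left (n1_fl_neg n x) (abs_nonneg b)
  exact sub_eq_zero.1 (abs_eq_zero.1 (le_antisymm h3 (abs_nonneg _)))

private lemma tc_zero' (h : Env P X ν a b) : tc (mm P X) (0 : F d) = 0 := by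
  have h1 := tc_smul (subM_mm h) 0 le_rfl (0 : F d)
  rwa [zero_mul, zero_smul] at h1

private lemma tc_single (h : Env P X ν a b) (i : Fin d) (t : ℝ) :
    tc (mm P X) (Pi.single i t) ≤ |t| * ∫ x, x ∂ν := by
  have hs := subM_mm h
  have e1 : rv (sv ((i, true) : St d)) = Pi.single i (1 : ℝ) := by
    funext j
    by_cases hj : j = i <;> simp [rv, sv, Pi.single_apply, hj]
  have h1 : tc (mm P X) (Pi.single i (1 : ℝ)) ≤ ∫ x, x ∂ν := by
    have h2 := mul_tc_le hs (sv ((i, true) : St d)) 1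
    rw [Nat.cast_one, one_mul, one_smul, e1] at h2
    exact h2.trans (mm_sv h _)
  have h3 : tc (mm P X) (Pi.single i |t|) = |t| * tc (mm P X) (Pi.single i (1 : ℝ)) := by
    rw [← tc_smul hs |t| (abs_nonneg t)]
    congr 1
    funext j
    by_cases hj : j = i <;> simp [Pi.single_apply, hj]
  have h4 : tc (mm P X) (Pi.single i t) = tc (mm P X) (Pi.single i |t|) := by
    rcases le_total 0 t with ht | ht
    · rw [abs_of_nonneg ht]
    · rw [abs_of_nonpos ht, ← tc_neg h (Pi.single i (-t))]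
      congr 1
      funext j
      by_cases hj : j = i <;> simp [Pi.single_apply, hj]
  rw [h4, h3]
  exact mul_le_mul_of_nonneg_left h1 (abs_nonneg t)

private lemma tc_sum (h : Env P X ν a b) (x : F d) (S : Finset (Fin d)) :
    tc (mm P X) (∑ i ∈ S, Pi.single i (x i)) ≤ ∑ i ∈ S, |x i| * ∫ x, x ∂ν := by
  classical
  induction S using Finset.induction_on with
  | empty =>
    rw [Finset.sum_empty, Finset.sum_empty, tc_zero' h]
  | insert i S hi ih =>
    rw [Finset.sum_insert hi, Finset.sum_insert hi]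
    exact (tc_add_le (subM_mm h) _ _).trans (add_le_add (tc_single h i (x i)) ih)

/-- `tc (± e i) ≤ mm (± e i) ≤ m` (`mul_tc_le` with `k = 1`, `mm_sv`), and `x` is the sum of
`|x i| • (± e i)` (`tc_add_le`, `tc_smul`, induction on a finset of coordinates). -/
theorem tc_hi (h : Env P X ν a b) (x : F d) : tc (mm P X) x ≤ (∫ x, x ∂ν) * nr x := by
  have h1 := tc_sum h x Finset.univ
  have e1 : (∑ i, Pi.single i (x i) : F d) = x := Finset.univ_sum_single x
  rw [e1, ← Finset.sum_mul] at h1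
  rw [mul_comm]
  exact h1

theorem nrm_tc (h : Env P X ν a b) : Nrm a (∫ x, x ∂ν) (tc (mm P X)) :=
  ⟨h.apos, tc_add_le (subM_mm h), fun t ht x => tc_smul (subM_mm h) t ht x, tc_neg h,
    le_tc (subM_mm h), tc_hi h⟩

end Pool.Agent.Helper79.GQ
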