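import Pool.Agent.Helper79.GQ.LC
import Mathlib.Analysis.Calculus.Rademacher

/-!
# GQ-LD: the norm is the maximum of its gradients
-/

set_option autoImplicit false

namespace Pool.Agent.Helper79.GQ

open MeasureTheory ProbabilityTheory Pool.Agent.Helper79.GR

variable {d : ℕ} {a m : ℝ} {μ : F d → ℝ}

/-- Rademacher: `LipschitzWith.ae_differentiableAt` (`Nrm.lipschitz`), and a set of full measure
is dense. -/
theorem exists_grad_near (h : Nrm a m μ) (x : F d) (ε : ℝ) (hε : 0 < ε) :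
    ∃ (w : F d) (ρ : F d →L[ℝ] ℝ), HasFDerivAt μ ρ w ∧ ‖w - x‖ < ε := by
  obtain ⟨K, hK⟩ := h.lipschitz
  have h1 : ∀ᵐ y ∂(volume : Measure (F d)), DifferentiableAt ℝ μ y := hK.ae_differentiableAt
  have h2 : Dense {y : F d | DifferentiableAt ℝ μ y} := Measure.dense_of_ae h1
  obtain ⟨w, hw, hd⟩ := h2.exists_dist_lt x hε
  exact ⟨w, fderiv ℝ μ w, DifferentiableAt.hasFDerivAt hw, by
    rw [← dist_eq_norm, dist_comm]; exact hd⟩

/-- If there are finitely many gradients then one of them is equal to `μ` at `x`: otherwise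
`ρ y < μ y` for all gradients `ρ` and all `y` near `x` (finitely many open conditions), but near
`x` there is a point with a gradient (`exists_grad_near`, `grad_eq`). -/
theorem cover (h : Nrm a m μ) (G : Finset (F d →L[ℝ] ℝ))
    (hG : ∀ (w : F d) (ρ : F d →L[ℝ] ℝ), HasFDerivAt μ ρ w → ρ ∈ G) (x : F d) :
    ∃ ρ ∈ G, μ x ≤ ρ x := by
  by_contra hcon
  push Not at hcon
  have h1 : ∀ᶠ y in nhds x, ∀ ρ ∈ G, ρ y < μ y := by
    rw [Filter.eventually_all_finset]
    intro ρ hρ
    exact ρ.continuous.continuousAt.eventually_lt h.continuous.continuousAt (hcon ρ hρ)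
  obtain ⟨ε, hε, h2⟩ := Metric.eventually_nhds_iff.1 h1
  obtain ⟨w, ρ, hw, hd⟩ := exists_grad_near h x ε hε
  have h3 := h2 (y := w) (by rw [dist_eq_norm]; exact hd) ρ (hG w ρ hw)
  rw [grad_eq h hw] at h3
  exact lt_irrefl _ h3

end Pool.Agent.Helper79.GQ
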