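import Pool.Agent.Helper79.GR.RI
import Pool.Agent.Helper79.GR.RJ
import Pool.Agent.Helper79.GR.KA
import Pool.Agent.Helper79.GR.ND
import Pool.Agent.Helper79.GR.NF
import Pool.Agent.Helper79.GR.DF

/-!
# Project GQ (MP_13b103_pr, many geodesic rays for every law in high dimension): definitions

Everything of project GR (`Pool/Agent/Helper79/GR`) is available: `V d` lattice points, `n1` their
norm, `nr` the norm of real vectors, `rv`, `St d` steps, `sv`, `Edge d`, `ed`, `pos x w`,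
`cost c x w`, `eds x w` for walks given by their list of steps, `T c x y` passage times, `Bd a b c`,
`Geo c x w`, `pre`, `Ray`, `fl n x` the integer part of `n x`, `tc`, `Env`, `cf`, `mm`.
-/

set_option autoImplicit false

namespace Pool.Agent.Helper79.GQ

open MeasureTheory ProbabilityTheory Pool.Agent.Helper79.GR

/-- real vectors -/
abbrev F (d : ℕ) : Type := Fin d → ℝ

/-- norms between `a nr` and `m nr` -/
structure Nrm {d : ℕ} (a m : ℝ) (μ : F d → ℝ) : Prop where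
  apos : 0 < a
  add : ∀ x y, μ (x + y) ≤ μ x + μ y
  smul : ∀ t : ℝ, 0 ≤ t → ∀ x, μ (t • x) = t * μ x
  even : ∀ x, μ (-x) = μ x
  lo : ∀ x, a * nr x ≤ μ x
  hi : ∀ x, μ x ≤ m * nr x

/-- `w` are unit vectors of `μ` at which `μ` has the gradients `ρ`, and these are different -/
structure Dir {d N : ℕ} (μ : F d → ℝ) (w : Fin N → F d) (ρ : Fin N → F d →L[ℝ] ℝ) (g : ℝ) :
    Prop where
  one : ∀ i, μ (w i) = 1
  der : ∀ i, HasFDerivAt μ (ρ i) (w i)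
  le : ∀ i x, ρ i x ≤ μ x
  eq : ∀ i, ρ i (w i) = 1
  gpos : 0 < g
  sep : ∀ i j, i ≠ j → ρ i (w j) ≤ 1 - g

/-- the passage times from the origin at scale `r` -/
def H1 {d : ℕ} (μ : F d → ℝ) (c : Edge d → ℝ) (C δ r : ℝ) : Prop :=
  ∀ v : V d, n1 v ≤ C * r → |T c 0 v - μ (rv v)| ≤ δ * r

/-- the increments of the passage times to the target `z` at scale `r` -/
def H2 {d : ℕ} (c : Edge d → ℝ) (ρ : F d →L[ℝ] ℝ) (C δ r : ℝ) (z : V d) : Prop :=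
  ∀ x y : V d, n1 x ≤ C * r → n1 y ≤ C * r →
    T c x z - T c y z ≤ ρ (rv y - rv x) + δ * r

/-- the passage times along the direction `w` in `n` steps of length `s` -/
def H3 {d : ℕ} (c : Edge d → ℝ) (w : F d) (n : ℕ) (δ : ℝ) (s : ℕ) : Prop :=
  ∀ l < n, T c (fl (l * s) w) (fl ((l + 1) * s) w) ≤ (1 + δ) * s

/-- the annulus -/
def Ann {d : ℕ} (μ : F d → ℝ) (r : ℝ) (x : V d) : Prop := r ≤ μ (rv x) ∧ μ (rv x) ≤ 2 * r

/-- the tube of the direction `w` -/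
def Tub {d : ℕ} (μ : F d → ℝ) (ε r : ℝ) (w : F d) (x : V d) : Prop :=
  nr (rv x - μ (rv x) • w) ≤ ε * r

/-- the edges of the wall: the edges with an end in the annulus outside of all tubes -/
def Wal {d N : ℕ} (μ : F d → ℝ) (ε r : ℝ) (w : Fin N → F d) (e : Edge d) : Prop :=
  ∃ x ∈ e.1, Ann μ r x ∧ ∀ i, ¬ Tub μ ε r (w i) x

/-- the geodesics from `0` to `z i` pass through the tube `i` and not through the others -/
def GG {d N : ℕ} (μ : F d → ℝ) (ε r : ℝ) (w : Fin N → F d) (c : Edge d → ℝ)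
    (z : Fin N → V d) : Prop :=
  ∀ i, (∃ q, Ann μ r q ∧ Tub μ ε r (w i) q ∧ T c 0 q + T c q (z i) = T c 0 (z i)) ∧
    ∀ j, j ≠ i → ∀ q, Ann μ r q → Tub μ ε r (w j) q → T c 0 (z i) < T c 0 q + T c q (z i)

/-- The scenario: `c` are good weights, `c'` are the weights with the wall (`r = n₀ s`). -/
structure Scn {d N : ℕ} (a b m : ℝ) (μ : F d → ℝ) (w : Fin N → F d)
    (ρ : Fin N → F d →L[ℝ] ℝ) (g ε δ C b₁ η : ℝ) (n₀ s : ℕ) (c c' : Edge d → ℝ)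
    (W : Finset (Edge d)) (z : Fin N → V d) : Prop where
  bd : Bd a b c
  bd' : Bd a b c'
  nrm : Nrm a m μ
  dir : Dir μ w ρ g
  wal : ∀ e, e ∈ W ↔ Wal μ ε (n₀ * s) w e
  off : ∀ e ∉ W, c' e = c e
  low : ∀ e ∈ W, c e - η ≤ c' e
  hig : ∀ e ∈ W, b₁ ≤ c' e
  eta : 0 ≤ η
  card : W.card * η ≤ 1
  h1 : H1 μ c C δ (n₀ * s)
  h2 : ∀ i, H2 c (ρ i) C δ (n₀ * s) (z i)
  h3 : ∀ i, H3 c (w i) (3 * n₀) δ s
  far : ∀ i, 2 * ((n₀ : ℝ) * s) < μ (rv (z i))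
  mpos : 0 < m
  b1 : m ≤ b₁
  dpos : 0 ≤ δ
  spos : m < (n₀ : ℝ) * s
  nE : ((b / a) * ((s : ℝ) / a + d) + d) * (1 + m / a) ≤ ε * ((n₀ : ℝ) * s)
  nC : 3 * ((n₀ : ℝ) * s) / a + d ≤ C * ((n₀ : ℝ) * s)
  nC' : (2 * ((n₀ : ℝ) * s) + m) / a ≤ C * ((n₀ : ℝ) * s)
  nT : 5 * δ * ((n₀ : ℝ) * s) + m * d + 2 < (g - m * ε) * ((n₀ : ℝ) * s)
  nW : 5 * δ * ((n₀ : ℝ) * s) + m * d + 2 < (b₁ - m) * (((n₀ : ℝ) * s) / m)
  nF : δ * ((n₀ : ℝ) * s) + m * d < (n₀ : ℝ) * s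

end Pool.Agent.Helper79.GQ
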