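import Pool.Agent.Helper79.GQ.AA
import Pool.Agent.Helper79.GQ.Defs
import Pool.Agent.Helper79.GR.DE

/-!
# GQ-AC: disjoint infinite geodesics as limits

`konig_gen` with `α = Fin N → St d` and `Q l`: for all `i` the walk `l.map (· i)` from `x i` is a
geodesic, and the walks have no common vertex (`pos (x i) ((l.map (· i)).take k)`).  `Q` is closed
under initial parts (`Geo.take`), and for every `n` the first `n` steps of the given walks give a list
of length `n` (`List.ofFn` or `(List.range n).map fun k i => (u i)[k]`).
-/

set_option autoImplicit false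

namespace Pool.Agent.Helper79.GQ

open MeasureTheory ProbabilityTheory Pool.Agent.Helper79.GR

private theorem take_pre {d : ℕ} (s : ℕ → St d) {k n : ℕ} (h : k ≤ n) :
    (pre s n).take k = pre s k := by
  unfold pre
  rw [← List.map_take, List.take_range, min_eq_left h]

private theorem take_ext {β : Type} (l r : List β) (k : ℕ) :
    (l ++ r).take (min k l.length) = l.take k := by
  rw [← List.take_take, List.take_left]

/-- the property of the lists of simultaneous steps -/
private def QQ {d N : ℕ} (c : Edge d → ℝ) (x : Fin N → V d) (l : List (Fin N → St d)) : Prop :=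
  (∀ i, Geo c (x i) (l.map fun g => g i)) ∧
    ∀ i j, i ≠ j → ∀ k m, pos (x i) ((l.map fun g => g i).take k) ≠
      pos (x j) ((l.map fun g => g j).take m)

private theorem QQ_init {d N : ℕ} {c : Edge d → ℝ} {x : Fin N → V d}
    (l : List (Fin N → St d)) (a : Fin N → St d) (h : QQ c x (l ++ [a])) : QQ c x l := by
  refine ⟨fun i => ?_, fun i j hij k m => ?_⟩
  · have h1 := (h.1 i).take (l.map fun g => g i).length
    rwa [List.map_append, List.take_left] at h1
  · have h1 := h.2 i j hij (min k (l.map fun g => g i).length)
      (min m (l.map fun g => g j).length)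
    rwa [List.map_append, List.map_append, take_ext, take_ext] at h1

theorem disj_rays {d N : ℕ} (c : Edge d → ℝ) (x : Fin N → V d)
    (h : ∀ n : ℕ, ∃ u : Fin N → List (St d), (∀ i, n ≤ (u i).length ∧ Geo c (x i) (u i)) ∧
      ∀ i j, i ≠ j → ∀ k l, pos (x i) ((u i).take k) ≠ pos (x j) ((u j).take l)) :
    ∃ s : Fin N → ℕ → St d, (∀ i n, Geo c (x i) (pre (s i) n)) ∧
      ∀ i j, i ≠ j → ∀ k l, pos (x i) (pre (s i) k) ≠ pos (x j) (pre (s j) l) := by
  have h1 : ∀ n : ℕ, ∃ l : List (Fin N → St d), l.length = n ∧ QQ c x l := by
    intro n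
    obtain ⟨u, hu, hd⟩ := h n
    have hlen : ∀ (i : Fin N) (k : Fin n), k.val < (u i).length := fun i k =>
      lt_of_lt_of_le k.isLt (hu i).1
    have hm : ∀ i, (List.ofFn fun k : Fin n => fun i => (u i)[k.val]'(hlen i k)).map
        (fun g => g i) = (u i).take n := by
      intro i
      apply List.ext_getElem
      · rw [List.length_map, List.length_ofFn, List.length_take, min_eq_left (hu i).1]
      · intro k h2 h3
        simp
    refine ⟨List.ofFn fun k : Fin n => fun i => (u i)[k.val]'(hlen i k), List.length_ofFn,
      fun i => ?_, fun i j hij k m => ?_⟩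
    · rw [hm]
      exact (hu i).2.take n
    · rw [hm, hm, List.take_take, List.take_take]
      exact hd i j hij _ _
  obtain ⟨f, hf⟩ := konig_gen (QQ c x) QQ_init h1
  have hp : ∀ (i : Fin N) (n : ℕ), ((List.range n).map f).map (fun g => g i) =
      pre (fun k => f k i) n := by
    intro i n
    unfold pre
    rw [List.map_map]
    rfl
  refine ⟨fun i k => f k i, fun i n => ?_, fun i j hij k l => ?_⟩
  · rw [← hp]
    exact (hf n).1 i
  · have h2 := (hf (max k l)).2 i j hij k l
    rwa [hp, hp, take_pre _ (le_max_left k l), take_pre _ (le_max_right k l)] at h2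

end Pool.Agent.Helper79.GQ
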