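import Pool.Agent.Helper79.GQ.IE
import Pool.Agent.Helper79.GQ.AB
import Pool.Agent.Helper79.GQ.AC
import Pool.Agent.Helper79.GQ.MA

/-!
# GQ-AD: almost surely there are `N` disjoint infinite geodesics

Let `μ = tc (mm P X)` (`nrm_tc`), `p > 0`; it is enough that the event has probability `≥ 1 - p`
(outer measure of the complement `≤ p`).  `C = 1 / a + d`, `δ = g / 2`, `increments` for every `i`
with `p / (N + 1)` (`Dir.der`, `w i ≠ 0` because `μ (w i) = 1`), `r` larger than all `r₀`, `≥ 1` and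
with `4 m d < g r`; `v i`.  For every `n` choose `k i > n` with
`P.real {¬ H2 .. (k i • v i)} ≤ p / (N + 1)`, and let `E n` be the event that `H2` holds for all
`i`: `P.real (E n) ≥ 1 - p`.  `prob_io`.  If `ω` is in infinitely many `E n`: with `x i = fl r (w i)`
take geodesics `u i` from `x i` to `k i • v i` (`exists_min`, `geo_iff`); they have at least
`n1 (k i • v i) - n1 (x i) ≥ k i - n1 (x i)` steps (`n1_pos_sub_le`; `n1 (v i) ≥ 1`), and they are
disjoint by `disjoint_geo`; so `disj_rays` applies.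
-/

set_option autoImplicit false

namespace Pool.Agent.Helper79.GQ

open MeasureTheory ProbabilityTheory Pool.Agent.Helper79.GR

variable {Ω : Type*} [MeasurableSpace Ω] {d : ℕ} {P : Measure Ω} {X : Edge d → Ω → ℝ}
  {ν : Measure ℝ} {a b : ℝ}

/-- the union bound for finitely many events -/
private theorem AD_union [IsProbabilityMeasure P] {N : ℕ} (E : Fin N → Set Ω) (q : ℝ)
    (hE : ∀ i, P.real (E i) ≤ q) : P.real {ω | ∃ i, ω ∈ E i} ≤ N * q := by
  have e1 : {ω | ∃ i, ω ∈ E i} = ⋃ i, E i := by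
    ext ω
    simp
  rw [e1]
  refine (measureReal_iUnion_fintype_le _).trans ?_
  refine (Finset.sum_le_sum fun i _ => hE i).trans ?_
  rw [Finset.sum_const, nsmul_eq_mul, Finset.card_univ, Fintype.card_fin]

/-- a property which holds with outer probability at least `1 - p` for all `p > 0` -/
private theorem AD_ae [IsProbabilityMeasure P] (S : Set Ω)
    (hS : ∀ p : ℝ, 0 < p → ∃ E : Set Ω, MeasurableSet E ∧ E ⊆ S ∧ 1 - p ≤ P.real E) :
    ∀ᵐ ω ∂P, ω ∈ S := by
  rw [ae_iff]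
  by_contra hne
  have hpos : 0 < P.real {ω | ¬ ω ∈ S} :=
    ENNReal.toReal_pos hne (measure_ne_top P _)
  obtain ⟨E, hE, hES, hp⟩ := hS (P.real {ω | ¬ ω ∈ S} / 2) (half_pos hpos)
  have h1 : P.real {ω | ¬ ω ∈ S} ≤ P.real Eᶜ :=
    measureReal_mono fun ω hω hωE => hω (hES hωE)
  rw [probReal_compl_eq_one_sub hE] at h1
  linarith

theorem theorem_disjoint (h : Env P X ν a b) {N : ℕ} {w : Fin N → F d}
    {ρ : Fin N → F d →L[ℝ] ℝ} {g : ℝ} (hD : Dir (tc (mm P X)) w ρ g) :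
    ∀ᵐ ω ∂P, ∃ (x : Fin N → V d) (s : Fin N → ℕ → St d),
      (∀ i n, Geo (cf X ω) (x i) (pre (s i) n)) ∧
      ∀ i j, i ≠ j → ∀ k l, pos (x i) (pre (s i) k) ≠ pos (x j) (pre (s j) l) := by
  have := h.prob
  have hN : Nrm a (∫ x, x ∂ν) (tc (mm P X)) := nrm_tc h
  obtain ⟨m, hm⟩ : ∃ m : ℝ, m = ∫ x, x ∂ν := ⟨_, rfl⟩
  rw [← hm] at hN
  refine AD_ae {ω | ∃ (x : Fin N → V d) (s : Fin N → ℕ → St d),
      (∀ i n, Geo (cf X ω) (x i) (pre (s i) n)) ∧
      ∀ i j, i ≠ j → ∀ k l, pos (x i) (pre (s i) k) ≠ pos (x j) (pre (s j) l)} fun p hp => ?_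
  have ha : 0 < a := h.apos
  have hg : 0 < g := hD.gpos
  obtain ⟨C, hC⟩ : ∃ C : ℝ, C = 1 / a + d := ⟨_, rfl⟩
  have hC0 : 0 < C := by
    rw [hC]
    positivity
  have hδ : 0 < g / 2 := half_pos hg
  have hq : 0 < p / (N + 1) := by positivity
  have hw0 : ∀ i, w i ≠ 0 := by
    intro i hi
    have h1 := hD.one i
    rw [hi, hN.zero] at h1
    exact zero_ne_one h1
  choose r₀ hr₀ using fun i => increments h (hD.der i) (hw0 i) C (g / 2) (p / (N + 1)) hC0 hδ hq
  obtain ⟨r₁, hr₁⟩ := exists_nat_ge (4 * m * d / g)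
  obtain ⟨r, hr, hr1, hrg⟩ : ∃ r : ℕ, (∀ i, r₀ i ≤ r) ∧ 1 ≤ r ∧ 4 * m * d < g * r := by
    refine ⟨(Finset.univ.sup r₀) + r₁ + 1, fun i => ?_, by omega, ?_⟩
    · have := Finset.le_sup (f := r₀) (Finset.mem_univ i)
      omega
    · rw [div_le_iff₀ hg] at hr₁
      push_cast
      have h2 : (0 : ℝ) ≤ ((Finset.univ.sup r₀ : ℕ) : ℝ) := Nat.cast_nonneg _
      nlinarith
  have hr1' : (1 : ℝ) ≤ r := by exact_mod_cast hr1
  choose v hv0 hv using fun i => hr₀ i r (hr i)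
  choose k hk hkp using fun (n : ℕ) (i : Fin N) => hv i n
  obtain ⟨E, hE⟩ : ∃ E : ℕ → Set Ω, E = fun n =>
    {ω | ∀ i, H2 (cf X ω) (ρ i) C (g / 2) r (k n i • v i)} := ⟨_, rfl⟩
  have hcf : Measurable fun ω => cf X ω := measurable_pi_iff.2 h.meas
  have hEm : ∀ n, MeasurableSet (E n) := by
    intro n
    have e1 : E n = ⋂ i, {ω | H2 (cf X ω) (ρ i) C (g / 2) r (k n i • v i)} := by
      rw [hE]
      ext ω
      simp
    rw [e1]
    exact MeasurableSet.iInter fun i => hcf (measurableSet_H2 (ρ i) C (g / 2) r (k n i • v i))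
  have hEp : ∀ n, 1 - p ≤ P.real (E n) := by
    intro n
    have h1 := AD_union (P := P)
      (fun i => {ω | ¬ H2 (cf X ω) (ρ i) C (g / 2) r (k n i • v i)}) _ (hkp n)
    have e1 : (E n)ᶜ = {ω | ∃ i, ω ∈ {ω | ¬ H2 (cf X ω) (ρ i) C (g / 2) r (k n i • v i)}} := by
      rw [hE]
      ext ω
      simp
    rw [← e1, probReal_compl_eq_one_sub (hEm n)] at h1
    have h2 : (N : ℝ) * (p / (N + 1)) ≤ p := by
      rw [mul_div_assoc', div_le_iff₀ (by positivity)]
      nlinarith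
    linarith
  obtain ⟨hm1, hm2⟩ := prob_io P E hEm (1 - p) hEp
  refine ⟨_, hm1, fun ω hω => ?_, hm2⟩
  refine ⟨fun i => fl r (w i), disj_rays (cf X ω) _ fun n => ?_⟩
  obtain ⟨K, hK⟩ := exists_nat_ge (∑ i, n1 (fl r (w i)))
  have hK' : ∀ i, n1 (fl r (w i)) ≤ K := fun i =>
    (Finset.single_le_sum (f := fun i => n1 (fl r (w i)))
      (fun j _ => n1_nonneg _) (Finset.mem_univ i)).trans hK
  obtain ⟨n', hn', hEω⟩ := hω (n + K)
  rw [hE] at hEω
  have hb := h.cf_bd ω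
  choose u hu hcost using fun i => exists_min hb (fl r (w i)) (k n' i • v i)
  have hgeo : ∀ i, Geo (cf X ω) (fl r (w i)) (u i) := by
    intro i
    rw [geo_iff hb, hcost i, hu i]
  refine ⟨u, fun i => ⟨?_, hgeo i⟩, fun i j hij k' l' => ?_⟩
  · have h1 := n1_pos_sub_le (fl r (w i)) (u i)
    rw [hu i] at h1
    have h2 := n1_add_le (k n' i • v i - fl r (w i)) (fl r (w i))
    rw [sub_add_cancel, n1_nsmul] at h2
    have h3 : 1 ≤ n1 (v i) := by
      obtain ⟨j, hj⟩ := exists_nat_n1 (v i)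
      have h0 : n1 (v i) ≠ 0 := fun h => hv0 i (n1_eq_zero.1 h)
      rw [hj] at h0 ⊢
      have : j ≠ 0 := by
        intro h
        apply h0
        rw [h]
        simp
      exact_mod_cast Nat.one_le_iff_ne_zero.2 this
    have h4 : (n : ℝ) + K ≤ k n' i := by
      have := hk n' i
      exact_mod_cast (by omega : n + K ≤ k n' i)
    have h5 : (k n' i : ℝ) ≤ k n' i * n1 (v i) :=
      le_mul_of_one_le_right (Nat.cast_nonneg _) h3
    have h6 := hK' i
    have h7 : (n : ℝ) ≤ (u i).length := by linarith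
    exact_mod_cast h7
  · refine disjoint_geo hb hN hD C (g / 2) r (fun i => k n' i • v i) hEω ?_ ?_ i j hij
      (u i) (u j) (hgeo i) (hu i) (hgeo j) (hu j) k' l'
    · rw [hC]
      have h1 : (d : ℝ) ≤ d * r := le_mul_of_one_le_right (Nat.cast_nonneg d) hr1'
      have h2 : (1 / a + (d : ℝ)) * r = r / a + d * r := by ring
      linarith
    · linarith

end Pool.Agent.Helper79.GQ
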