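import Pool.Agent.Helper79.GQ.LB
import Pool.Agent.Helper79.GR.DC

/-!
# GQ-BA: the wall is finite; walks and the wall
-/

set_option autoImplicit false

namespace Pool.Agent.Helper79.GQ

open MeasureTheory ProbabilityTheory Pool.Agent.Helper79.GR

/-- points with `n1 ≤ R` are finitely many -/
private theorem fin_n1 {d : ℕ} (R : ℝ) : {x : V d | n1 x ≤ R}.Finite := by
  refine (Set.finite_Icc (fun _ : Fin d => -⌈R⌉) (fun _ : Fin d => ⌈R⌉)).subset ?_
  intro x hx
  have hx' : n1 x ≤ R := hx
  have key : ∀ i, |(x i : ℝ)| ≤ (⌈R⌉ : ℤ) := by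
    intro i
    have h1 : |(x i : ℝ)| ≤ n1 x :=
      Finset.single_le_sum (f := fun j => |(x j : ℝ)|) (fun j _ => abs_nonneg _)
        (Finset.mem_univ i)
    exact h1.trans (hx'.trans (Int.le_ceil R))
  rw [Set.mem_Icc]
  refine ⟨fun i => ?_, fun i => ?_⟩
  · have h2 := (abs_le.1 (key i)).1
    exact_mod_cast h2
  · have h2 := (abs_le.1 (key i)).2
    exact_mod_cast h2

/-- A point `x` of the annulus has `n1 x ≤ μ (rv x) / a ≤ 2 r / a` (`Nrm.n1_le`), so there are
finitely many, and each point is an end of finitely many edges (`ed x s` and `ed (x - sv s) s`; an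
edge at `x` is `ed x s` for some `s`). -/
theorem wal_finite {d N : ℕ} {a m : ℝ} {μ : F d → ℝ} (h : Nrm a m μ) (ε r : ℝ)
    (w : Fin N → F d) : {e : Edge d | Wal μ ε r w e}.Finite := by
  set S : Set (V d) := {x : V d | n1 x ≤ 2 * r / a + 1} with hS
  have hSf : S.Finite := fin_n1 _
  have hT : ((fun p : V d × V d => s(p.1, p.2)) '' (S ×ˢ S)).Finite :=
    (hSf.prod hSf).image _
  refine (hT.preimage (f := fun e : Edge d => e.1) Subtype.val_injective.injOn).subset ?_
  rintro ⟨e, x, y, he, hxy⟩ hw
  obtain ⟨z, hz, hAnn, _⟩ := hw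
  have hz' : z ∈ s(x, y) := by
    rw [← he]
    exact hz
  have hzn : n1 z ≤ 2 * r / a :=
    (h.n1_le z).trans (div_le_div_of_nonneg_right hAnn.2 h.apos.le)
  have hd : n1 (x - y) = 1 := by
    have h1 : ((∑ i, |x i - y i| : ℤ) : ℝ) = 1 := by
      rw [hxy, Int.cast_one]
    rw [← h1]
    unfold n1
    push_cast [Pi.sub_apply]
    rfl
  have hxS : x ∈ S ∧ y ∈ S := by
    rw [Sym2.mem_iff] at hz'
    rcases hz' with h1 | h1
    · subst h1
      refine ⟨?_, ?_⟩
      · change n1 z ≤ _
        linarith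
      · change n1 y ≤ _
        have h2 : y = z + (y - z) := by abel
        have h3 := n1_add_le z (y - z)
        rw [← h2, n1_sub_comm, hd] at h3
        linarith
    · subst h1
      refine ⟨?_, ?_⟩
      · change n1 x ≤ _
        have h2 : x = z + (x - z) := by abel
        have h3 := n1_add_le z (x - z)
        rw [← h2, hd] at h3
        linarith
      · change n1 z ≤ _
        linarith
  exact ⟨(x, y), ⟨hxS.1, hxS.2⟩, he.symm⟩

/-- The edge `ed x s` has the ends `x` and `x + sv s`; the ends of the edges of a walk are vertices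
of the walk. -/
theorem mem_eds {d : ℕ} {x : V d} {u : List (St d)} {e : Edge d} (he : e ∈ eds x u) {y : V d}
    (hy : y ∈ e.1) : ∃ k ≤ u.length, y = pos x (u.take k) := by
  induction u generalizing x with
  | nil => exact absurd he List.not_mem_nil
  | cons s u ih =>
    have he' : e ∈ ed x s :: eds (x + sv s) u := he
    rw [List.mem_cons] at he'
    rcases he' with h1 | h1
    · rw [h1] at hy
      have hy' : y ∈ s(x, x + sv s) := hy
      rw [Sym2.mem_iff] at hy'
      rcases hy' with h2 | h2
      · exact ⟨0, Nat.zero_le _, h2⟩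
      · refine ⟨1, ?_, ?_⟩
        · rw [List.length_cons]
          omega
        · rw [h2]
          rfl
    · obtain ⟨k, hk, hk'⟩ := ih h1
      refine ⟨k + 1, ?_, ?_⟩
      · rw [List.length_cons]
        omega
      · rw [hk']
        rfl

/-- If every vertex of a walk is outside the annulus or in some tube then no edge is in the
wall. -/
theorem not_wal {d N : ℕ} {μ : F d → ℝ} {ε r : ℝ} {w : Fin N → F d} {x : V d}
    {u : List (St d)}
    (h : ∀ k ≤ u.length, Ann μ r (pos x (u.take k)) → ∃ i, Tub μ ε r (w i) (pos x (u.take k))) :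
    ∀ e ∈ eds x u, ¬ Wal μ ε r w e := by
  rintro e he ⟨y, hy, hA, hT⟩
  obtain ⟨k, hk, rfl⟩ := mem_eds he hy
  obtain ⟨i, hi⟩ := h k hk hA
  exact hT i hi

end Pool.Agent.Helper79.GQ
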