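import Pool.Agent.Helper79.GQ.BA
import Pool.Agent.Helper79.GR.DE

/-!
# GQ-BB: the walk in the tube

Let `x l = fl (l s) w`.  A geodesic from `x l` to `x (l + 1)` has length
`≤ (b / a) n1 (x (l + 1) - x l) ≤ (b / a) (s / a + d)` (`length_geo`, `n1_fl_sub_le`,
`nr w ≤ 1 / a`), so its vertices `q` satisfy `nr (rv q - (l s) • w) ≤ E`,
`E = (b / a) (s / a + d) + d` (`nr_fl`); hence `|μ (rv q) - l s| ≤ m E` (`μ ((l s) • w) = l s`) and
`nr (rv q - μ (rv q) • w) ≤ E + m E nr w ≤ E (1 + m / a) ≤ ε r`: all vertices are in the tube.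
Induction on `n`: there is a walk from `0` to `x n` with cost `≤ n (1 + δ) s` all of whose vertices
are in the tube (concatenate, `pos_append`, `cost_append`); take `n = 3 n₀` and `not_wal`.
-/

set_option autoImplicit false

namespace Pool.Agent.Helper79.GQ

open MeasureTheory ProbabilityTheory Pool.Agent.Helper79.GR

private theorem bb_tub {d : ℕ} {a m : ℝ} {μ : F d → ℝ} (h : Nrm a m μ) {w : F d}
    (h1 : μ w = 1) (hw : nr w ≤ 1 / a) (hm : 0 ≤ m) {t E ε r : ℝ} (ht : 0 ≤ t) {q : V d}
    (hq : nr (rv q - t • w) ≤ E) (hE : E * (1 + m / a) ≤ ε * r) : Tub μ ε r w q := by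
  have hE0 : 0 ≤ E := (nr_nonneg _).trans hq
  have e1 : rv q - μ (rv q) • w = (rv q - t • w) + (t - μ (rv q)) • w := by
    rw [sub_smul]
    abel
  have e2 : μ (t • w) = t := by rw [h.smul t ht, h1, mul_one]
  have e3 : |t - μ (rv q)| ≤ m * E := by
    have h2 := h.lip (rv q) (t • w)
    rw [e2, abs_sub_comm] at h2
    exact h2.trans (mul_le_mul_of_nonneg_left hq hm)
  unfold Tub
  rw [e1]
  have h3 := nr_add_le (rv q - t • w) ((t - μ (rv q)) • w)
  rw [nr_smul] at h3
  have h4 : |t - μ (rv q)| * nr w ≤ m * E * (1 / a) :=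
    mul_le_mul e3 hw (nr_nonneg _) (mul_nonneg hm hE0)
  have h5 : E * (1 + m / a) = E + m * E * (1 / a) := by ring
  linarith

theorem tube_walk {d N : ℕ} {a b m : ℝ} {c : Edge d → ℝ} (hc : Bd a b c) {μ : F d → ℝ}
    (hμ : Nrm a m μ) {w : Fin N → F d} {ρ : Fin N → F d →L[ℝ] ℝ} {g : ℝ} (hD : Dir μ w ρ g)
    (i : Fin N) (ε δ r : ℝ) (n s : ℕ) (h3 : H3 c (w i) n δ s) (hb : 0 ≤ b)
    (hE : ((b / a) * ((s : ℝ) / a + d) + d) * (1 + m / a) ≤ ε * r) :
    ∃ u : List (St d), pos 0 u = fl (n * s) (w i) ∧ cost c 0 u ≤ n * ((1 + δ) * s) ∧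
      ∀ e ∈ eds 0 u, ¬ Wal μ ε r w e := by
  have ha : 0 < a := hμ.apos
  have hm : 0 ≤ m := by
    have h1 := hμ.hi (w i)
    rw [hD.one i] at h1
    by_contra hc'
    have h2 : m * nr (w i) ≤ 0 := mul_nonpos_of_nonpos_of_nonneg (not_le.1 hc').le (nr_nonneg _)
    linarith
  have hnr : nr (w i) ≤ 1 / a := Dir.nr_le hμ hD i
  have hnr0 : 0 ≤ nr (w i) := nr_nonneg _
  have hs0 : (0 : ℝ) ≤ s := Nat.cast_nonneg s
  have hd0 : (0 : ℝ) ≤ d := Nat.cast_nonneg d
  have hba : 0 ≤ b / a := div_nonneg hb ha.le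
  have hsa : 0 ≤ (s : ℝ) / a := div_nonneg hs0 ha.le
  have key : ∀ k ≤ n, ∃ u : List (St d), pos 0 u = fl (k * s) (w i) ∧
      cost c 0 u ≤ k * ((1 + δ) * s) ∧
      ∀ j, Tub μ ε r (w i) (pos 0 (u.take j)) := by
    intro k
    induction k with
    | zero =>
      intro _
      have hfl : fl (0 * s) (w i) = 0 := by
        funext x
        simp [fl]
      refine ⟨[], ?_, ?_, ?_⟩
      · rw [hfl]
        rfl
      · change (0 : ℝ) ≤ _
        simp
      · intro j
        rw [List.take_nil]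
        change Tub μ ε r (w i) (0 : V d)
        refine bb_tub hμ (hD.one i) hnr hm le_rfl ?_ hE
        rw [rv_zero, zero_smul, sub_zero, nr_zero]
        have := mul_nonneg hba (add_nonneg hsa hd0)
        linarith
    | succ k ih =>
      intro hk
      obtain ⟨u, hu1, hu2, hu3⟩ := ih (Nat.le_of_succ_le hk)
      obtain ⟨v, hv1, hv2⟩ := exists_min hc (fl (k * s) (w i)) (fl ((k + 1) * s) (w i))
      have hgeo : Geo c (fl (k * s) (w i)) v := by
        rw [geo_iff hc, hv1]
        exact hv2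
      have hlen : (v.length : ℝ) ≤ (b / a) * ((s : ℝ) / a + d) := by
        have h1 := length_geo hc hgeo
        rw [hv1] at h1
        have h2 := n1_fl_sub_le ((k + 1) * s) (k * s)
          (Nat.mul_le_mul_right s (Nat.le_succ k)) (w i)
        have h3 : (((k + 1) * s : ℕ) : ℝ) - ((k * s : ℕ) : ℝ) = s := by
          push_cast
          ring
        rw [h3] at h2
        have h4 : (s : ℝ) * nr (w i) ≤ (s : ℝ) / a := by
          have := mul_le_mul_of_nonneg_left hnr hs0
          rwa [mul_one_div] at this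
        have h5 : n1 (fl ((k + 1) * s) (w i) - fl (k * s) (w i)) ≤ (s : ℝ) / a + d := by
          linarith
        have h6 := mul_le_mul_of_nonneg_left h5 hb
        rw [div_mul_eq_mul_div, le_div_iff₀ ha, mul_comm]
        linarith
      refine ⟨u ++ v, ?_, ?_, ?_⟩
      · rw [pos_append, hu1, hv1]
      · rw [cost_append, hu1, hv2]
        have h1 := h3 k hk
        push_cast
        linarith
      · intro j
        rw [List.take_append, pos_append]
        rcases le_total j u.length with hj | hj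
        · rw [Nat.sub_eq_zero_of_le hj, List.take_zero]
          exact hu3 j
        · rw [List.take_of_length_le hj, hu1]
          refine bb_tub hμ (hD.one i) hnr hm (t := ((k * s : ℕ) : ℝ)) (Nat.cast_nonneg _) ?_ hE
          have h1 := n1_pos_sub_le (fl (k * s) (w i)) (v.take (j - u.length))
          have h2 : ((v.take (j - u.length)).length : ℝ) ≤ v.length := by
            exact_mod_cast List.length_take_le' _ _
          have h3' := nr_fl (k * s) (w i)
          have h4 := nr_add_le (rv (pos (fl (k * s) (w i)) (v.take (j - u.length))) -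
            rv (fl (k * s) (w i))) (rv (fl (k * s) (w i)) - ((k * s : ℕ) : ℝ) • w i)
          rw [sub_add_sub_cancel, ← rv_sub, nr_rv] at h4
          linarith
  obtain ⟨u, hu1, hu2, hu3⟩ := key n le_rfl
  exact ⟨u, hu1, hu2, not_wal fun k _ _ => ⟨i, hu3 k⟩⟩

end Pool.Agent.Helper79.GQ
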