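import Pool.Agent.Helper79.GQ.BA
import Pool.Agent.Helper79.GR.DE

/-!
# GQ-BC: the far geodesic avoids the annulus

Take a geodesic `u` (`exists_min`).  For a vertex `q = pos x (u.take k)`:
`T x q + T q z = T x z` (`Geo.split`), so `0 ≤ T x q = T x z - T q z`.  If `q` is in the annulus then
`n1 q ≤ 2 r / a ≤ C r` and `H2` gives `0 ≤ ρ i (rv q) - ρ i (rv x) + δ r < μ (rv q) - 2 r ≤ 0`.  So
no vertex is in the annulus; `not_wal`.
-/

set_option autoImplicit false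

namespace Pool.Agent.Helper79.GQ

open MeasureTheory ProbabilityTheory Pool.Agent.Helper79.GR

theorem far_walk {d N : ℕ} {a b m : ℝ} {c : Edge d → ℝ} (hc : Bd a b c) {μ : F d → ℝ}
    (hμ : Nrm a m μ) {w : Fin N → F d} {ρ : Fin N → F d →L[ℝ] ℝ} {g : ℝ} (hD : Dir μ w ρ g)
    (i : Fin N) (ε δ r C : ℝ) (x z : V d) (h2 : H2 c (ρ i) C δ r z)
    (hx : 2 * r + δ * r < ρ i (rv x)) (hxC : n1 x ≤ C * r) (hC : 2 * r / a ≤ C * r) :
    ∃ u : List (St d), pos x u = z ∧ cost c x u = T c x z ∧ ∀ e ∈ eds x u, ¬ Wal μ ε r w e := by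
  obtain ⟨u, hu, hcu⟩ := exists_min hc x z
  have hg : Geo c x u := by rw [geo_iff hc, hu, hcu]
  refine ⟨u, hu, hcu, not_wal ?_⟩
  intro k _ hA
  exfalso
  have h1 := hg.split hc k
  rw [hu] at h1
  have h0 : 0 ≤ T c x (pos x (u.take k)) :=
    (mul_nonneg hc.1.le (n1_nonneg _)).trans (le_T hc x _)
  have hq : n1 (pos x (u.take k)) ≤ C * r := by
    refine (hμ.n1_le _).trans (le_trans ?_ hC)
    exact div_le_div_of_nonneg_right hA.2 hμ.apos.le
  have h3 := h2 x (pos x (u.take k)) hxC hq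
  have h4 := hD.le i (rv (pos x (u.take k)))
  have h5 := hA.2
  rw [map_sub] at h3
  linarith

end Pool.Agent.Helper79.GQ
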