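import Pool.Agent.Helper79.GQ.BA
import Pool.Agent.Helper79.GR.DF

/-!
# GQ-BD: the passage times after the change of the weights
-/

set_option autoImplicit false

namespace Pool.Agent.Helper79.GQ

open MeasureTheory ProbabilityTheory Pool.Agent.Helper79.GR

private theorem bd_sum {d : ℕ} {c c' : Edge d → ℝ} (W : Finset (Edge d)) (η : ℝ) (hη : 0 ≤ η)
    (hoff : ∀ e ∉ W, c' e = c e) (hlow : ∀ e ∈ W, c e - η ≤ c' e) (L : List (Edge d))
    (hL : L.Nodup) : (L.map c).sum ≤ (L.map c').sum + W.card * η := by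
  classical
  rw [← List.sum_toFinset c hL, ← List.sum_toFinset c' hL]
  have h1 : ∑ e ∈ L.toFinset, c e ≤ ∑ e ∈ L.toFinset, (c' e + if e ∈ W then η else 0) := by
    refine Finset.sum_le_sum fun e _ => ?_
    split_ifs with h
    · have := hlow e h
      linarith
    · rw [hoff e h, add_zero]
  have h2 : ∑ e ∈ L.toFinset, (if e ∈ W then η else 0) ≤ W.card * η := by
    rw [← Finset.sum_filter, Finset.sum_const, nsmul_eq_mul]
    refine mul_le_mul_of_nonneg_right ?_ hη
    exact_mod_cast Finset.card_le_card fun e he => (Finset.mem_filter.1 he).2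
  rw [Finset.sum_add_distrib] at h1
  linarith

/-- A geodesic `u` for `c'` uses every edge at most once (`Geo.nodup`, `exists_min`, `geo_iff`), so
`cost c x u = ∑ c e ≤ ∑ c' e + (number of edges in W) * η ≤ T c' x y + card W * η`
(`cost_eq_sum`). -/
theorem T_mod_ge {d : ℕ} {a b : ℝ} {c c' : Edge d → ℝ} (hc : Bd a b c) (hc' : Bd a b c')
    (W : Finset (Edge d)) (η : ℝ) (hη : 0 ≤ η) (hoff : ∀ e ∉ W, c' e = c e)
    (hlow : ∀ e ∈ W, c e - η ≤ c' e) (x y : V d) : T c x y - W.card * η ≤ T c' x y := by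
  obtain ⟨u, hu, hcu⟩ := exists_min hc' x y
  have hg : Geo c' x u := (geo_iff hc' x u).2 (by rw [hu]; exact hcu)
  have h1 := bd_sum W η hη hoff hlow (eds x u) (hg.nodup hc')
  have h2 : T c x y ≤ cost c x u := T_le_cost hc hu
  rw [cost_eq_sum] at h2
  rw [cost_eq_sum] at hcu
  linarith

/-- The cost of a walk which does not use `W` does not change. -/
theorem cost_mod {d : ℕ} {c c' : Edge d → ℝ} (W : Finset (Edge d))
    (hoff : ∀ e ∉ W, c' e = c e) (x : V d) (u : List (St d)) (hu : ∀ e ∈ eds x u, e ∉ W) :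
    cost c' x u = cost c x u := by
  rw [cost_eq_sum, cost_eq_sum]
  congr 1
  exact List.map_congr_left fun e he => hoff e (hu e he)

end Pool.Agent.Helper79.GQ
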