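import Pool.Agent.Helper79.GQ.BB
import Pool.Agent.Helper79.GQ.BC
import Pool.Agent.Helper79.GQ.BD

/-!
# GQ-BE: bounds in the scenario

`r = n₀ s`, `x = fl (3 n₀ s) (w i)`.
-/

set_option autoImplicit false

namespace Pool.Agent.Helper79.GQ

open MeasureTheory ProbabilityTheory Pool.Agent.Helper79.GR

variable {d N : ℕ} {a b m : ℝ} {μ : F d → ℝ} {w : Fin N → F d} {ρ : Fin N → F d →L[ℝ] ℝ}
  {g ε δ C b₁ η : ℝ} {n₀ s : ℕ} {c c' : Edge d → ℝ} {W : Finset (Edge d)} {z : Fin N → V d}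

/-- `n1 x ≤ 3 r nr w + d ≤ 3 r / a + d` -/
theorem Scn.n1_x (h : Scn a b m μ w ρ g ε δ C b₁ η n₀ s c c' W z) (i : Fin N) :
    n1 (fl (3 * n₀ * s) (w i)) ≤ C * ((n₀ : ℝ) * s) := by
  have h1 := n1_fl_le (3 * n₀ * s) (w i)
  have h2 := h.dir.nr_le h.nrm i
  have h3 := h.nC
  have h4 : ((3 * n₀ * s : ℕ) : ℝ) * nr (w i) ≤ 3 * ((n₀ : ℝ) * s) / a := by
    have h5 : ((3 * n₀ * s : ℕ) : ℝ) = 3 * ((n₀ : ℝ) * s) := by push_cast; ring
    rw [h5, div_eq_mul_one_div (3 * ((n₀ : ℝ) * s)) a]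
    exact mul_le_mul_of_nonneg_left h2 (by positivity)
  linarith

private theorem be_b (h : Scn a b m μ w ρ g ε δ C b₁ η n₀ s c c' W z) (i : Fin N) : 0 ≤ b := by
  have ha := h.nrm.apos
  have h1 := h.far i
  have h2 := h.nrm.hi (rv (z i))
  have h3 := h.spos
  have h4 := h.mpos
  have h5 : 0 < n1 (z i) := by
    rw [nr_rv] at h2
    by_contra hn
    have h6 : n1 (z i) = 0 := le_antisymm (not_lt.1 hn) (n1_nonneg _)
    rw [h6, mul_zero] at h2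
    linarith
  have h6 := le_T h.bd 0 (z i)
  have h7 := T_le h.bd 0 (z i)
  rw [sub_zero] at h6 h7
  have h8 : a ≤ b := le_of_mul_le_mul_right (h6.trans h7) h5
  linarith

private theorem be_rho (h : Scn a b m μ w ρ g ε δ C b₁ η n₀ s c c' W z) (i : Fin N) :
    3 * ((n₀ : ℝ) * s) - m * d ≤ ρ i (rv (fl (3 * n₀ * s) (w i))) := by
  have h1 := h.dir.rho_fl h.nrm i (3 * n₀ * s)
  have h5 : ((3 * n₀ * s : ℕ) : ℝ) = 3 * ((n₀ : ℝ) * s) := by push_cast; ring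
  rwa [h5] at h1

/-- `tube_walk` (`n = 3 n₀`) and `far_walk` (`ρ i (rv x) ≥ 3 r - m d`, `nF`), `cost_mod`. -/
theorem Scn.upper (h : Scn a b m μ w ρ g ε δ C b₁ η n₀ s c c' W z) (i : Fin N) :
    T c' 0 (z i) ≤ 3 * (1 + δ) * ((n₀ : ℝ) * s) + T c (fl (3 * n₀ * s) (w i)) (z i) := by
  have ha := h.nrm.apos
  obtain ⟨u, hu1, hu2, hu3⟩ := tube_walk h.bd h.nrm h.dir i ε δ ((n₀ : ℝ) * s) (3 * n₀) s (h.h3 i)
    (be_b h i) h.nE
  have hF := h.nF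
  have hx : 2 * ((n₀ : ℝ) * s) + δ * ((n₀ : ℝ) * s) < ρ i (rv (fl (3 * n₀ * s) (w i))) := by
    have h1 := be_rho h i
    linarith
  have hC : 2 * ((n₀ : ℝ) * s) / a ≤ C * ((n₀ : ℝ) * s) := by
    have h1 := h.nC'
    have h2 := h.mpos
    have h3 : 2 * ((n₀ : ℝ) * s) / a ≤ (2 * ((n₀ : ℝ) * s) + m) / a :=
      div_le_div_of_nonneg_right (by linarith) ha.le
    linarith
  obtain ⟨v, hv1, hv2, hv3⟩ := far_walk h.bd h.nrm h.dir i ε δ ((n₀ : ℝ) * s) C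
    (fl (3 * n₀ * s) (w i)) (z i) (h.h2 i) hx (h.n1_x i) hC
  have e1 : cost c' 0 u = cost c 0 u :=
    cost_mod W h.off 0 u fun e he hW => hu3 e he ((h.wal e).1 hW)
  have e2 : cost c' (fl (3 * n₀ * s) (w i)) v = cost c (fl (3 * n₀ * s) (w i)) v :=
    cost_mod W h.off _ v fun e he hW => hv3 e he ((h.wal e).1 hW)
  have hp : pos 0 (u ++ v) = z i := by rw [pos_append, hu1, hv1]
  have h1 := T_le_cost h.bd' hp
  rw [cost_append, hu1, e1, e2, hv2] at h1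
  have h2 : ((3 * n₀ : ℕ) : ℝ) * ((1 + δ) * s) = 3 * (1 + δ) * ((n₀ : ℝ) * s) := by
    push_cast; ring
  rw [h2] at hu2
  linarith

/-- `T_mod_ge`, `H1` -/
theorem Scn.lower0 (h : Scn a b m μ w ρ g ε δ C b₁ η n₀ s c c' W z) {q : V d}
    (hq : n1 q ≤ C * ((n₀ : ℝ) * s)) :
    μ (rv q) - δ * ((n₀ : ℝ) * s) - 1 ≤ T c' 0 q := by
  have h1 := T_mod_ge h.bd h.bd' W η h.eta h.off h.low 0 q
  have h2 := (abs_le.1 (h.h1 q hq)).1
  have h3 := h.card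
  linarith

/-- `T_mod_ge`, and `H2` for `x` and `q`: `T c x z - T c q z ≤ ρ (rv q) - ρ (rv x) + δ r` with
`ρ (rv x) ≥ 3 r - m d` (`Dir.rho_fl`). -/
theorem Scn.lower1 (h : Scn a b m μ w ρ g ε δ C b₁ η n₀ s c c' W z) (i : Fin N) {q : V d}
    (hq : n1 q ≤ C * ((n₀ : ℝ) * s)) :
    T c (fl (3 * n₀ * s) (w i)) (z i) + 3 * ((n₀ : ℝ) * s) - m * d - ρ i (rv q) -
      δ * ((n₀ : ℝ) * s) - 1 ≤ T c' q (z i) := by
  have h1 := T_mod_ge h.bd h.bd' W η h.eta h.off h.low q (z i)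
  have h2 := h.h2 i (fl (3 * n₀ * s) (w i)) q (h.n1_x i) hq
  rw [map_sub] at h2
  have h3 := be_rho h i
  have h4 := h.card
  linarith

end Pool.Agent.Helper79.GQ
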