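import Pool.Agent.Helper79.GQ.BE

/-!
# GQ-BF: the geodesics avoid the other tubes

Let `t = μ (rv q) ∈ [r, 2 r]`, `e = rv q - t • w j`, `nr e ≤ ε r`.
`ρ i (rv q) = t ρ i (w j) + ρ i e ≤ t (1 - g) + m ε r`, so
`μ (rv q) - ρ i (rv q) ≥ g t - m ε r ≥ (g - m ε) r`.  With `n1 q ≤ 2 r / a ≤ C r` (`nC'`):
`T c' 0 q + T c' q z ≥ T c x z + 3 r + (μ (rv q) - ρ i (rv q)) - m d - 2 δ r - 2`
(`Scn.lower0`, `Scn.lower1`), `Scn.upper`, `nT`.
-/

set_option autoImplicit false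

namespace Pool.Agent.Helper79.GQ

open MeasureTheory ProbabilityTheory Pool.Agent.Helper79.GR

variable {d N : ℕ} {a b m : ℝ} {μ : F d → ℝ} {w : Fin N → F d} {ρ : Fin N → F d →L[ℝ] ℝ}
  {g ε δ C b₁ η : ℝ} {n₀ s : ℕ} {c c' : Edge d → ℝ} {W : Finset (Edge d)} {z : Fin N → V d}

theorem Scn.excl (h : Scn a b m μ w ρ g ε δ C b₁ η n₀ s c c' W z) {i j : Fin N} (hij : j ≠ i)
    {q : V d} (hq : Ann μ ((n₀ : ℝ) * s) q) (ht : Tub μ ε ((n₀ : ℝ) * s) (w j) q) :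
    T c' 0 (z i) < T c' 0 q + T c' q (z i) := by
  have ha := h.nrm.apos
  have hr : 0 < (n₀ : ℝ) * s := h.mpos.trans h.spos
  set r : ℝ := (n₀ : ℝ) * s with hrdef
  have hn : n1 q ≤ C * r := by
    refine (h.nrm.n1_le q).trans (le_trans ?_ h.nC')
    apply div_le_div_of_nonneg_right _ ha.le
    have := hq.2
    have := h.mpos
    linarith
  have h0 := h.lower0 hn
  have h1 := h.lower1 i hn
  have h2 := h.upper i
  have hT := h.nT
  have ht1 := hq.1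
  have hmp := h.mpos
  set t : ℝ := μ (rv q) with htdef
  have e1 : ρ i (rv q) = t * ρ i (w j) + ρ i (rv q - t • w j) := by
    rw [map_sub, map_smul, smul_eq_mul]
    ring
  have e2 : ρ i (rv q - t • w j) ≤ m * (ε * r) := by
    refine (h.dir.le i _).trans ((h.nrm.hi _).trans ?_)
    exact mul_le_mul_of_nonneg_left ht hmp.le
  have e3 : t * ρ i (w j) ≤ t * (1 - g) :=
    mul_le_mul_of_nonneg_left (h.dir.sep i j hij.symm) (hr.le.trans ht1)
  have e4 : g * r ≤ g * t := mul_le_mul_of_nonneg_left ht1 h.dir.gpos.le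
  rw [← hrdef] at h0 h1 h2 hT
  nlinarith [h0, h1, h2, hT, e1, e2, e3, e4]

end Pool.Agent.Helper79.GQ
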