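import Pool.Agent.Helper79.GQ.BA

/-!
# GQ-BG: the crossing of the annulus

`k₂` is the first index with `2 r < μ (rv (pos 0 (u.take k₂)))`, `k₁` the last index before `k₂`
with `μ (..) < r` (the index `0` has `μ = 0`).
-/

set_option autoImplicit false

namespace Pool.Agent.Helper79.GQ

open MeasureTheory ProbabilityTheory Pool.Agent.Helper79.GR

private theorem bg_succ {d : ℕ} (x : V d) (w : List (St d)) (i : ℕ) (hi : i < w.length) :
    pos x (w.take (i + 1)) = pos x (w.take i) + sv (w[i]'hi) := by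
  rw [List.take_add_one, List.getElem?_eq_getElem hi, pos_append]
  rfl

private theorem bg_step {d : ℕ} {a m : ℝ} {μ : F d → ℝ} (hμ : Nrm a m μ) (x : V d) (s : St d) :
    μ (rv (x + sv s)) ≤ μ (rv x) + m := by
  have h := hμ.lip' (rv (x + sv s)) (rv x)
  rw [← rv_sub, nr_rv, add_sub_cancel_left, n1_sv, mul_one] at h
  exact h

theorem exists_crossing {d : ℕ} {a m : ℝ} {μ : F d → ℝ} (hμ : Nrm a m μ) {r : ℝ} (hr : 0 < r)
    (u : List (St d)) (hu : 2 * r < μ (rv (pos 0 u))) :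
    ∃ k₁ k₂ : ℕ, k₁ < k₂ ∧ k₂ ≤ u.length ∧ μ (rv (pos 0 (u.take k₁))) < r ∧
      2 * r < μ (rv (pos 0 (u.take k₂))) ∧
      (∀ k, k₁ < k → k < k₂ → Ann μ r (pos 0 (u.take k))) ∧
      μ (rv (pos 0 (u.take k₂))) ≤ 2 * r + m := by
  classical
  have h0 : μ (rv (pos (0 : V d) (u.take 0))) = 0 := by
    rw [List.take_zero]
    show μ (rv (0 : V d)) = 0
    rw [rv_zero, hμ.zero]
  have hex : ∃ k, 2 * r < μ (rv (pos 0 (u.take k))) := ⟨u.length, by rwa [List.take_length]⟩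
  set k₂ := Nat.find hex with hk₂
  have hs₂ : 2 * r < μ (rv (pos 0 (u.take k₂))) := Nat.find_spec hex
  have hmin : ∀ k < k₂, μ (rv (pos 0 (u.take k))) ≤ 2 * r := fun k hk =>
    not_lt.1 (Nat.find_min hex hk)
  have hle : k₂ ≤ u.length := Nat.find_min' hex (by rwa [List.take_length])
  set k₁ := Nat.findGreatest (fun k => μ (rv (pos 0 (u.take k))) < r) k₂ with hk₁
  have hs₁ : μ (rv (pos 0 (u.take k₁))) < r :=
    Nat.findGreatest_spec (P := fun k => μ (rv (pos 0 (u.take k))) < r) (Nat.zero_le k₂)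
      (by show μ (rv (pos 0 (u.take 0))) < r; rw [h0]; exact hr)
  have hlt : k₁ < k₂ := by
    refine lt_of_le_of_ne (Nat.findGreatest_le k₂) fun h => ?_
    rw [h] at hs₁
    linarith
  refine ⟨k₁, k₂, hlt, hle, hs₁, hs₂, fun k h1 h2 => ⟨?_, hmin k h2⟩, ?_⟩
  · exact not_lt.1 (Nat.findGreatest_is_greatest h1 h2.le)
  · obtain ⟨j, hj⟩ : ∃ j, k₂ = j + 1 := ⟨k₂ - 1, by omega⟩
    rw [hj, bg_succ 0 u j (by omega)]
    exact (bg_step hμ _ _).trans (by linarith [hmin j (by omega)])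

private theorem bg_cost {d : ℕ} {c' : Edge d → ℝ} {b₁ : ℝ} (u : List (St d)) :
    ∀ (n k₁ : ℕ), k₁ + n ≤ u.length →
      (∀ k, k₁ ≤ k → ∀ h : k < u.length, k < k₁ + n → b₁ ≤ c' (ed (pos 0 (u.take k)) u[k])) →
      b₁ * n ≤ cost c' (pos 0 (u.take k₁)) ((u.take (k₁ + n)).drop k₁)
  | 0, k₁, _, _ => by simp [cost]
  | n + 1, k₁, h1, h2 => by
    have h3 := bg_cost u n k₁ (by omega) fun k hk h hlt => h2 k hk h (by omega)
    have h4 : k₁ + n < u.length := by omega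
    have h5 : (u.take (k₁ + (n + 1))).drop k₁ = (u.take (k₁ + n)).drop k₁ ++ [u[k₁ + n]] := by
      rw [← add_assoc, List.take_add_one, List.getElem?_eq_getElem h4, Option.toList_some,
        List.drop_append_of_le_length (by rw [List.length_take]; omega)]
    have h6 : pos (pos 0 (u.take k₁)) ((u.take (k₁ + n)).drop k₁) = pos 0 (u.take (k₁ + n)) := by
      rw [← pos_append]
      congr 1
      have h7 : u.take k₁ = (u.take (k₁ + n)).take k₁ := by
        rw [List.take_take, min_eq_left (by omega)]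
      rw [h7, List.take_append_drop]
    rw [h5, cost_append, h6]
    have h8 := h2 (k₁ + n) (by omega) h4 (by omega)
    have h9 : cost c' (pos 0 (u.take (k₁ + n))) [u[k₁ + n]] =
      c' (ed (pos 0 (u.take (k₁ + n))) u[k₁ + n]) := by simp [cost]
    rw [h9]
    push_cast
    linarith

/-- The part of the walk between the indices `k₁` and `k₂` costs at least `b₁ (k₂ - k₁)` if its
inner vertices are in the annulus and in no tube (one step changes `μ` by at most `m < r`, so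
`k₂ - k₁ ≥ 2` and every edge has an inner vertex). -/
theorem crossing_cost {d N : ℕ} {a m : ℝ} {μ : F d → ℝ} (hμ : Nrm a m μ) {ε r b₁ : ℝ}
    (hr : m < r) {w : Fin N → F d} {c' : Edge d → ℝ} (hig : ∀ e, Wal μ ε r w e → b₁ ≤ c' e)
    (u : List (St d)) {k₁ k₂ : ℕ} (hk : k₁ < k₂) (hk₂ : k₂ ≤ u.length)
    (h1 : μ (rv (pos 0 (u.take k₁))) < r) (h2 : 2 * r < μ (rv (pos 0 (u.take k₂))))
    (h3 : ∀ k, k₁ < k → k < k₂ → Ann μ r (pos 0 (u.take k)) ∧
      ∀ i, ¬ Tub μ ε r (w i) (pos 0 (u.take k))) :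
    b₁ * ((k₂ : ℝ) - k₁) ≤ cost c' (pos 0 (u.take k₁)) ((u.take k₂).drop k₁) := by
  obtain ⟨n, rfl⟩ : ∃ n, k₂ = k₁ + n := ⟨k₂ - k₁, by omega⟩
  have hr0 : 0 ≤ r := by
    have h5 := hμ.nonneg (rv (pos 0 (u.take k₁)))
    linarith
  have hn : 2 ≤ n := by
    by_contra hn
    obtain rfl : n = 1 := by omega
    rw [bg_succ 0 u k₁ (by omega)] at h2
    have h5 := bg_step hμ (pos 0 (u.take k₁)) (u[k₁]'(by omega))
    linarith
  have h4 := bg_cost (c' := c') (b₁ := b₁) u n k₁ hk₂ fun k hk h hlt => ?_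
  · have h5 : b₁ * (((k₁ + n : ℕ) : ℝ) - k₁) = b₁ * n := by
      push_cast
      ring
    rw [h5]
    exact h4
  · apply hig
    by_cases hkk : k = k₁
    · obtain ⟨h5, h6⟩ := h3 (k + 1) (by omega) (by omega)
      refine ⟨pos 0 (u.take (k + 1)), ?_, h5, h6⟩
      rw [bg_succ 0 u k h]
      show _ ∈ (s(_, _) : Sym2 (V d))
      exact Sym2.mem_mk_right _ _
    · obtain ⟨h5, h6⟩ := h3 k (by omega) hlt
      refine ⟨pos 0 (u.take k), ?_, h5, h6⟩
      show _ ∈ (s(_, _) : Sym2 (V d))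
      exact Sym2.mem_mk_left _ _

end Pool.Agent.Helper79.GQ
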