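import Pool.Agent.Helper79.GQ.BF
import Pool.Agent.Helper79.GQ.BG

/-!
# GQ-BH: the geodesics pass through their tube

Let `u` be a geodesic from `0` to `z i` for `c'` (`exists_min`, `geo_iff`); every vertex `q` of `u`
satisfies `T c' 0 q + T c' q (z i) = T c' 0 (z i)` (`Geo.split`).  If no vertex in the annulus is in
the tube `i` then, by `Scn.excl`, no vertex in the annulus is in any tube.  `exists_crossing` (`far`)
and `crossing_cost` (`hig`, `wal`) give `q₁, q₂` with `μ (rv q₁) < r`,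
`2 r < μ (rv q₂) ≤ 2 r + m` and, as the part of a geodesic between `q₁` and `q₂` has cost
`≥ b₁ (k₂ - k₁)`, `k₂ - k₁ ≥ n1 (q₂ - q₁)`,
`T c' 0 z ≥ T c' 0 q₁ + b₁ n1 (q₂ - q₁) + T c' q₂ z`
`≥ μ (rv q₁) + b₁ n1 (q₂ - q₁) + T c x z + 3 r - m d - ρ i (rv q₂) - 2 δ r - 2`
(`Scn.lower0`, `Scn.lower1`, both norms `≤ C r` by `nC'`).  Now `m n1 (q₂ - q₁) ≥ μ (rv q₂) - μ (rv q₁)
> r`, so `b₁ n1 ≥ μ (rv q₂) - μ (rv q₁) + (b₁ - m) r / m`, and `ρ i (rv q₂) ≤ μ (rv q₂)`: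
contradiction with `Scn.upper` and `nW`.
-/

set_option autoImplicit false

namespace Pool.Agent.Helper79.GQ

open MeasureTheory ProbabilityTheory Pool.Agent.Helper79.GR

variable {d N : ℕ} {a b m : ℝ} {μ : F d → ℝ} {w : Fin N → F d} {ρ : Fin N → F d →L[ℝ] ℝ}
  {g ε δ C b₁ η : ℝ} {n₀ s : ℕ} {c c' : Edge d → ℝ} {W : Finset (Edge d)} {z : Fin N → V d}

theorem Scn.meet (h : Scn a b m μ w ρ g ε δ C b₁ η n₀ s c c' W z) (i : Fin N) :
    ∃ q, Ann μ ((n₀ : ℝ) * s) q ∧ Tub μ ε ((n₀ : ℝ) * s) (w i) q ∧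
      T c' 0 q + T c' q (z i) = T c' 0 (z i) := by
  by_contra H
  push Not at H
  have hrm : m < (n₀ : ℝ) * s := h.spos
  have hm0 : 0 < m := h.mpos
  have hr0 : 0 < (n₀ : ℝ) * s := lt_trans hm0 hrm
  have ha : 0 < a := h.nrm.apos
  obtain ⟨u, hu, hcu⟩ := exists_min h.bd' 0 (z i)
  have hgeo : Geo c' 0 u := (geo_iff h.bd' 0 u).2 (by rw [hu]; exact hcu)
  have hfar : 2 * ((n₀ : ℝ) * s) < μ (rv (pos 0 u)) := by
    rw [hu]
    exact h.far i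
  obtain ⟨k₁, k₂, hk, hk₂, h1, h2, h3, h4⟩ := exists_crossing h.nrm hr0 u hfar
  have hsplit : ∀ k, T c' 0 (pos 0 (u.take k)) + T c' (pos 0 (u.take k)) (z i) =
      T c' 0 (z i) := by
    intro k
    have := hgeo.split h.bd' k
    rwa [hu] at this
  have hin : ∀ k, k₁ < k → k < k₂ → Ann μ ((n₀ : ℝ) * s) (pos 0 (u.take k)) ∧
      ∀ j, ¬ Tub μ ε ((n₀ : ℝ) * s) (w j) (pos 0 (u.take k)) := by
    intro k hk1 hk2
    refine ⟨h3 k hk1 hk2, fun j hj => ?_⟩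
    by_cases hji : j = i
    · rw [hji] at hj
      exact H _ (h3 k hk1 hk2) hj (hsplit k)
    · have := h.excl hji (h3 k hk1 hk2) hj
      rw [hsplit k] at this
      exact lt_irrefl _ this
  have hcost := crossing_cost h.nrm hrm (fun e he => h.hig e ((h.wal e).2 he)) u hk hk₂ h1 h2 hin
  set q₁ : V d := pos 0 (u.take k₁) with hq₁
  set q₂ : V d := pos 0 (u.take k₂) with hq₂
  have htt : (u.take k₂).take k₁ = u.take k₁ := by
    rw [List.take_take, min_eq_left hk.le]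
  have hdec : u.take k₁ ++ (u.take k₂).drop k₁ = u.take k₂ := by
    rw [← htt]
    exact List.take_append_drop k₁ (u.take k₂)
  have hg1 : cost c' 0 (u.take k₁) = T c' 0 q₁ := (geo_iff h.bd' 0 _).1 (hgeo.take k₁)
  have hg2 : cost c' 0 (u.take k₂) = T c' 0 q₂ := (geo_iff h.bd' 0 _).1 (hgeo.take k₂)
  have hsum : T c' 0 q₂ = T c' 0 q₁ + cost c' q₁ ((u.take k₂).drop k₁) := by
    rw [← hg1, ← hg2, ← cost_append, hdec]
  have hpos : pos q₁ ((u.take k₂).drop k₁) = q₂ := by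
    rw [hq₁, ← pos_append, hdec]
  have hlen : (((u.take k₂).drop k₁).length : ℝ) = (k₂ : ℝ) - k₁ := by
    rw [List.length_drop, List.length_take, min_eq_left hk₂, Nat.cast_sub hk.le]
  have hn := n1_pos_sub_le q₁ ((u.take k₂).drop k₁)
  rw [hpos, hlen] at hn
  have hlip := h.nrm.lip' (rv q₂) (rv q₁)
  rw [← rv_sub, nr_rv] at hlip
  have hbig : μ (rv q₂) - μ (rv q₁) ≤ m * ((k₂ : ℝ) - k₁) := by
    have := mul_le_mul_of_nonneg_left hn hm0.le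
    linarith
  have hk12 : (n₀ : ℝ) * s / m ≤ (k₂ : ℝ) - k₁ := by
    rw [div_le_iff₀ hm0]
    linarith
  have hmul : (b₁ - m) * (((n₀ : ℝ) * s) / m) ≤ (b₁ - m) * ((k₂ : ℝ) - k₁) :=
    mul_le_mul_of_nonneg_left hk12 (sub_nonneg.2 h.b1)
  have hC1 : n1 q₁ ≤ C * ((n₀ : ℝ) * s) := by
    refine (h.nrm.n1_le q₁).trans (le_trans ?_ h.nC')
    exact (div_le_div_iff_of_pos_right ha).2 (by linarith)
  have hC2 : n1 q₂ ≤ C * ((n₀ : ℝ) * s) := by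
    refine (h.nrm.n1_le q₂).trans (le_trans ?_ h.nC')
    exact (div_le_div_iff_of_pos_right ha).2 h4
  have e0 := h.lower0 hC1
  have e1 := h.lower1 i hC2
  have e2 := h.upper i
  have e3 := hsplit k₂
  have e4 := h.dir.le i (rv q₂)
  have e5 := h.nW
  have e6 : b₁ * ((k₂ : ℝ) - k₁) = m * ((k₂ : ℝ) - k₁) + (b₁ - m) * ((k₂ : ℝ) - k₁) := by ring
  have e7 : T c' 0 q₂ + T c' q₂ (z i) = T c' 0 (z i) := e3
  have e8 : 3 * (1 + δ) * ((n₀ : ℝ) * s) = 3 * ((n₀ : ℝ) * s) + 3 * (δ * ((n₀ : ℝ) * s)) := by ring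
  have e9 : 5 * δ * ((n₀ : ℝ) * s) = 5 * (δ * ((n₀ : ℝ) * s)) := by ring
  rw [e8] at e2
  rw [e9] at e5
  linarith

theorem Scn.gg (h : Scn a b m μ w ρ g ε δ C b₁ η n₀ s c c' W z) :
    GG μ ε ((n₀ : ℝ) * s) w c' z :=
  fun i => ⟨h.meet i, fun _ hj _ hq ht => h.excl hj hq ht⟩

end Pool.Agent.Helper79.GQ
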