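import Mathlib

/-!
# GQ-BI: changing finitely many coordinates

Let `XW ω = fun i : W => X i ω` and `XR ω = fun i : {i // i ∉ W} => X i ω`.  They are independent
(`iIndepFun`, `indep_iSup_of_disjoint` for the sets `W` and its complement; the σ-algebra of the
product is the supremum of the comaps), so `P.map (XW, XR)` is the product of `P.map XW` and
`κ = P.map XR`, and `P.map XW = Measure.pi (fun _ => ν)` (`iIndepFun_iff_map_fun_eq_pi_map`).  Let
`glue u v` be the configuration with `u` on `W` and `v` off `W` (a measurable map).  For fixed `v`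
let `S` be the set of the `v` such that `glue u v ∈ E` for some `u` in a set of positive measure:
`P E = ∫ (Measure.pi ν) {u | glue u v ∈ E} dκ v ≤ κ S`, `S` measurable
(`measurable_measure_prodMk_left` or right).  For `v ∈ S` and `u' ∈ Set.pi univ (fun _ => H)`:
`glue u' v ∈ G` by `hEG`.  So `P G ≥ (Measure.pi ν) (H^W) * κ S = (ν H) ^ card W * κ S`
(`Measure.pi_pi`, `Measure.prod_prod`).
-/

set_option autoImplicit false

namespace Pool.Agent.Helper79.GQ

open MeasureTheory ProbabilityTheory

theorem resample {ι Ω : Type*} [MeasurableSpace Ω] (P : Measure Ω) [IsProbabilityMeasure P]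
    (X : ι → Ω → ℝ) (hm : ∀ i, Measurable (X i)) (hi : iIndepFun X P) (ν : Measure ℝ)
    (hl : ∀ i, P.map (X i) = ν) (W : Finset ι) (H : Set ℝ) (hH : MeasurableSet H)
    (E G : Set (ι → ℝ)) (hE : MeasurableSet E) (hG : MeasurableSet G)
    (hEG : ∀ c c' : ι → ℝ, c ∈ E → (∀ i ∈ W, c' i ∈ H) → (∀ i ∉ W, c' i = c i) → c' ∈ G) :
    ν.real H ^ W.card * P.real {ω | (fun i => X i ω) ∈ E} ≤
      P.real {ω | (fun i => X i ω) ∈ G} := by
  classical
  set XW : Ω → (W → ℝ) := fun ω i => X i ω with hXW
  set XR : Ω → ({i // i ∉ W} → ℝ) := fun ω i => X i ω with hXR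
  have hXWm : Measurable XW := measurable_pi_lambda _ fun i => hm i
  have hXRm : Measurable XR := measurable_pi_lambda _ fun i => hm i
  -- independence
  have hind : IndepFun XW XR P := by
    rw [IndepFun_iff_Indep]
    have h1 : MeasurableSpace.comap XW inferInstance ≤
        ⨆ i ∈ {i | i ∈ W}, MeasurableSpace.comap (X i) inferInstance := by
      refine measurable_iff_comap_le.mp ?_
      refine @measurable_pi_lambda Ω W (fun _ => ℝ)
        (⨆ i ∈ {i | i ∈ W}, MeasurableSpace.comap (X i) inferInstance) _ XW fun i => ?_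
      refine measurable_iff_comap_le.mpr ?_
      exact le_iSup₂_of_le (i : ι) i.2 le_rfl
    have h2 : MeasurableSpace.comap XR inferInstance ≤
        ⨆ i ∈ {i | i ∉ W}, MeasurableSpace.comap (X i) inferInstance := by
      refine measurable_iff_comap_le.mp ?_
      refine @measurable_pi_lambda Ω {i // i ∉ W} (fun _ => ℝ)
        (⨆ i ∈ {i | i ∉ W}, MeasurableSpace.comap (X i) inferInstance) _ XR fun i => ?_
      refine measurable_iff_comap_le.mpr ?_
      exact le_iSup₂_of_le (i : ι) i.2 le_rfl
    have h3 := indep_iSup_of_disjoint (m := fun i => MeasurableSpace.comap (X i) inferInstance)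
      (μ := P) (fun i => (hm i).comap_le) hi.iIndep
      (S := {i | i ∈ W}) (T := {i | i ∉ W}) (by
        rw [Set.disjoint_left]
        intro i h h'
        exact h' h)
    exact indep_of_indep_of_le_left (indep_of_indep_of_le_right h3 h2) h1
  set κ : Measure ({i // i ∉ W} → ℝ) := P.map XR with hκ
  have : IsProbabilityMeasure κ := Measure.isProbabilityMeasure_map hXRm.aemeasurable
  set π : Measure (W → ℝ) := P.map XW with hπ
  have : IsProbabilityMeasure π := Measure.isProbabilityMeasure_map hXWm.aemeasurable
  have hπpi : π = Measure.pi (fun _ : W => ν) := by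
    have h0 : iIndepFun (fun i : W => X (i : ι)) P :=
      hi.precomp (g := fun i : W => (i : ι)) Subtype.val_injective
    have h1 := iIndepFun.map_fun_eq_pi_map (f := fun i : W => X (i : ι))
      (fun i => (hm i).aemeasurable) h0
    rw [hπ]
    refine h1.trans ?_
    congr 1
    funext i
    exact hl i
  have hjoint : P.map (fun ω => (XW ω, XR ω)) = π.prod κ :=
    (indepFun_iff_map_prod_eq_prod_map_map hXWm.aemeasurable hXRm.aemeasurable).mp hind
  -- glueing
  set gl : (W → ℝ) × ({i // i ∉ W} → ℝ) → (ι → ℝ) := fun p i =>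
    if h : i ∈ W then p.1 ⟨i, h⟩ else p.2 ⟨i, h⟩ with hgl
  have hglm : Measurable gl := by
    refine measurable_pi_lambda _ fun i => ?_
    by_cases h : i ∈ W
    · simp only [hgl, h, dite_true]
      fun_prop
    · simp only [hgl, h, dite_false]
      fun_prop
  have hglX : ∀ ω, gl (XW ω, XR ω) = fun i => X i ω := by
    intro ω
    funext i
    by_cases h : i ∈ W
    · simp [hgl, h, hXW]
    · simp [hgl, h, hXR]
  have hpair : Measurable fun ω => (XW ω, XR ω) := hXWm.prodMk hXRm
  have key : ∀ D : Set (ι → ℝ), MeasurableSet D →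
      P {ω | (fun i => X i ω) ∈ D} = (π.prod κ) (gl ⁻¹' D) := by
    intro D hD
    rw [← hjoint, Measure.map_apply hpair (hglm hD)]
    congr 1
    ext ω
    simp only [Set.mem_preimage, hglX]
    rfl
  set S : Set ({i // i ∉ W} → ℝ) := {v | 0 < π ((fun u => (u, v)) ⁻¹' (gl ⁻¹' E))} with hS
  have hSm : MeasurableSet S := by
    have h1 : Measurable fun v => π ((fun u => (u, v)) ⁻¹' (gl ⁻¹' E)) :=
      measurable_measure_prodMk_right (hglm hE)
    exact measurableSet_lt measurable_const h1
  have hEle : P {ω | (fun i => X i ω) ∈ E} ≤ κ S := by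
    rw [key E hE, Measure.prod_apply_symm (hglm hE)]
    calc ∫⁻ v, π ((fun u => (u, v)) ⁻¹' (gl ⁻¹' E)) ∂κ
        ≤ ∫⁻ v, S.indicator (fun _ => 1) v ∂κ := by
          refine lintegral_mono fun v => ?_
          by_cases hv : v ∈ S
          · rw [Set.indicator_of_mem hv]
            exact prob_le_one
          · rw [Set.indicator_of_notMem hv]
            have h2 : ¬ 0 < π ((fun u => (u, v)) ⁻¹' (gl ⁻¹' E)) := hv
            exact not_lt.mp h2
      _ = κ S := by
          rw [lintegral_indicator_const hSm, one_mul]
  have hGge : ν H ^ W.card * κ S ≤ P {ω | (fun i => X i ω) ∈ G} := by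
    rw [key G hG]
    have h1 : (Set.univ.pi fun _ : W => H) ×ˢ S ⊆ gl ⁻¹' G := by
      rintro ⟨u', v⟩ ⟨hu', hv⟩
      have hv' : 0 < π ((fun u => (u, v)) ⁻¹' (gl ⁻¹' E)) := hv
      obtain ⟨u, hu⟩ := nonempty_of_measure_ne_zero hv'.ne'
      refine hEG (gl (u, v)) (gl (u', v)) hu ?_ ?_
      · intro i hiW
        have := hu' ⟨i, hiW⟩ (Set.mem_univ _)
        simpa [hgl, hiW] using this
      · intro i hiW
        simp [hgl, hiW]
    calc ν H ^ W.card * κ S = (π.prod κ) ((Set.univ.pi fun _ : W => H) ×ˢ S) := by
          rw [Measure.prod_prod, hπpi]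
          have hν : IsProbabilityMeasure ν ∨ IsEmpty W := by
            rcases isEmpty_or_nonempty W with h | ⟨⟨i, _⟩⟩
            · exact Or.inr h
            · left
              rw [← hl i]
              exact Measure.isProbabilityMeasure_map (hm i).aemeasurable
          rcases hν with hν | hν
          · rw [Measure.pi_pi]
            simp
          · have hW : W = ∅ := by
              rw [Finset.eq_empty_iff_forall_notMem]
              intro i hi
              exact hν.false ⟨i, hi⟩
            have h2 : (Set.univ.pi fun _ : W => H) = Set.univ := by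
              ext u
              simp only [Set.mem_univ, iff_true]
              intro i _
              exact (hν.false i).elim
            have hc : W.card = 0 := Finset.card_eq_zero.mpr hW
            rw [h2, ← hπpi, measure_univ, hc, pow_zero]
      _ ≤ _ := measure_mono h1
  have h1 : ν H ^ W.card * P {ω | (fun i => X i ω) ∈ E} ≤ P {ω | (fun i => X i ω) ∈ G} :=
    le_trans (by gcongr) hGge
  have h2 := ENNReal.toReal_mono (measure_ne_top P _) h1
  rw [ENNReal.toReal_mul, ENNReal.toReal_pow] at h2
  exact h2

end Pool.Agent.Helper79.GQ
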