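import Pool.Agent.Helper79.GQ.LB
import Pool.Agent.Helper79.GR.KA

/-!
# GQ-BJ: different rays from the events `GG`

Let `L = ⌈(b / a) * (2 r / a)⌉₊`.  For `n` take `k` with `GG`, `k i > n`.  Let `q i` be the point of the
tube `i`; a geodesic from `0` to `q i` and a geodesic from `q i` to `k i • v i` together give a
geodesic `u i` from `0` to `k i • v i` (`exists_min`, `geo_iff`, `cost_append`), with at least
`n1 (k i • v i) ≥ k i > n` steps, and `q i = pos 0 ((u i).take l)` with
`l ≤ (b / a) n1 (q i) ≤ L` (`length_geo`, `n1 (q i) ≤ 2 r / a`).  If `(u i).take L = (u j).take L`,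
`i ≠ j`, then `q i` is a vertex of `u j` (`take_take`), so
`T 0 (q i) + T (q i) (z j) = T 0 (z j)` (`Geo.split`), contradiction to the second part of `GG` for
`j` (`q i` is in the tube `i ≠ j`).  `konig_many`.
-/

set_option autoImplicit false

namespace Pool.Agent.Helper79.GQ

open MeasureTheory ProbabilityTheory Pool.Agent.Helper79.GR

theorem rays_of_GG {d N : ℕ} {a b m : ℝ} {c : Edge d → ℝ} (hc : Bd a b c) (hb : 0 ≤ b)
    {μ : F d → ℝ} (hμ : Nrm a m μ) (ε r : ℝ) (hr : 0 < r) (w : Fin N → F d) (v : Fin N → V d)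
    (hv : ∀ i, v i ≠ 0)
    (h : ∀ n : ℕ, ∃ k : Fin N → ℕ, (∀ i, n < k i) ∧ GG μ ε r w c fun i => k i • v i) :
    ∃ s : Fin N → ℕ → St d, Function.Injective s ∧ ∀ i, Ray c (s i) := by
  have ha : 0 < a := hc.1
  apply konig_many c N ⌈(b / a) * (2 * r / a)⌉₊
  intro n
  obtain ⟨k, hk, hG⟩ := h n
  choose q hqA hqT hqe using fun i => (hG i).1
  choose w1 hw1 hc1 using fun i => exists_min hc 0 (q i)
  choose w2 hw2 hc2 using fun i => exists_min hc (q i) (k i • v i)
  have hpos : ∀ i, pos 0 (w1 i ++ w2 i) = k i • v i := fun i => by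
    rw [pos_append, hw1, hw2]
  have hgeo : ∀ i, Geo c 0 (w1 i ++ w2 i) := fun i => by
    rw [geo_iff hc, hpos, cost_append, hw1, hc1, hc2]
    exact hqe i
  refine ⟨fun i => w1 i ++ w2 i, fun i => ⟨?_, hgeo i⟩, ?_⟩
  · obtain ⟨j, hj⟩ := exists_nat_n1 (v i)
    have hj0 : j ≠ 0 := by
      rintro rfl
      rw [Nat.cast_zero] at hj
      exact hv i (n1_eq_zero.1 hj)
    have h1 := n1_pos_sub_le (0 : V d) (w1 i ++ w2 i)
    rw [hpos, sub_zero, n1_nsmul, hj] at h1
    have h2 : k i * j ≤ (w1 i ++ w2 i).length := by exact_mod_cast h1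
    have h3 : k i * 1 ≤ k i * j := Nat.mul_le_mul_left _ (Nat.one_le_iff_ne_zero.2 hj0)
    have h4 := hk i
    change n ≤ (w1 i ++ w2 i).length
    omega
  · intro i j hij
    by_contra hne
    have hij' : (w1 i ++ w2 i).take ⌈(b / a) * (2 * r / a)⌉₊ =
        (w1 j ++ w2 j).take ⌈(b / a) * (2 * r / a)⌉₊ := hij
    have hlen : (w1 i).length ≤ ⌈(b / a) * (2 * r / a)⌉₊ := by
      have hg1 : Geo c 0 (w1 i) := by
        rw [geo_iff hc, hw1, hc1]
      have h1 := length_geo hc hg1
      rw [hw1, sub_zero] at h1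
      have h2 : n1 (q i) ≤ 2 * r / a := by
        refine (hμ.n1_le (q i)).trans ?_
        exact div_le_div_of_nonneg_right (hqA i).2 ha.le
      have h3 : b * n1 (q i) ≤ b * (2 * r / a) := mul_le_mul_of_nonneg_left h2 hb
      have h4 : ((w1 i).length : ℝ) ≤ (b / a) * (2 * r / a) := by
        rw [div_mul_eq_mul_div, le_div_iff₀ ha, mul_comm]
        exact h1.trans h3
      exact_mod_cast h4.trans (Nat.le_ceil _)
    have hq : pos 0 ((w1 j ++ w2 j).take (w1 i).length) = q i := by
      have h1 : ((w1 j ++ w2 j).take ⌈(b / a) * (2 * r / a)⌉₊).take (w1 i).length =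
          (w1 j ++ w2 j).take (w1 i).length := by
        rw [List.take_take, min_eq_left hlen]
      rw [← h1, ← hij', List.take_take, min_eq_left hlen, List.take_left', hw1]
      rfl
    have hs := (hgeo j).split hc (w1 i).length
    rw [hq, hpos] at hs
    exact absurd hs ((hG j).2 i hne (q i) (hqA i) (hqT i)).ne'

end Pool.Agent.Helper79.GQ
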