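import Pool.Agent.Helper79.GQ.Defs

/-!
# GQ-BK: the choice of the constants

`ε = g / (2 m)`; `δ > 0` with `δ ≤ 1 / 4`, `5 δ ≤ g / 8`, `5 δ ≤ (b₁ - m) / (4 m)`;
`C = 3 / a + d + (2 + m) / a`; `n₀ ≥ 1` with `(b / a) (1 / a) (1 + m / a) ≤ ε n₀ / 2`; then all
inequalities hold for large `s` (each is `α + β s < γ s` or `≤` with `β < γ`).
-/

set_option autoImplicit false

namespace Pool.Agent.Helper79.GQ

open MeasureTheory ProbabilityTheory Pool.Agent.Helper79.GR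

theorem constants (d : ℕ) (a b m b₁ g : ℝ) (ha : 0 < a) (hb : 0 ≤ b) (hm : 0 < m) (hb₁ : m < b₁)
    (hg : 0 < g) : ∃ (ε δ C : ℝ) (n₀ : ℕ), 0 < ε ∧ 0 < δ ∧ 0 < C ∧ 1 ≤ n₀ ∧
      ∃ s₀ : ℕ, ∀ s ≥ s₀, 1 ≤ s ∧ m < (n₀ : ℝ) * s ∧
        ((b / a) * ((s : ℝ) / a + d) + d) * (1 + m / a) ≤ ε * ((n₀ : ℝ) * s) ∧
        3 * ((n₀ : ℝ) * s) / a + d ≤ C * ((n₀ : ℝ) * s) ∧
        (2 * ((n₀ : ℝ) * s) + m) / a ≤ C * ((n₀ : ℝ) * s) ∧
        5 * δ * ((n₀ : ℝ) * s) + m * d + 2 < (g - m * ε) * ((n₀ : ℝ) * s) ∧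
        5 * δ * ((n₀ : ℝ) * s) + m * d + 2 < (b₁ - m) * (((n₀ : ℝ) * s) / m) ∧
        δ * ((n₀ : ℝ) * s) + m * d < (n₀ : ℝ) * s := by
  have hbm : 0 < b₁ - m := by linarith
  set ε : ℝ := g / (2 * m) with hε
  have hεpos : 0 < ε := by positivity
  set δ : ℝ := min (1 / 4) (min (g / 40) ((b₁ - m) / (20 * m))) with hδ
  have hδpos : 0 < δ := by
    have : 0 < (b₁ - m) / (20 * m) := by positivity
    exact lt_min (by norm_num) (lt_min (by positivity) this)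
  have hδ1 : δ ≤ 1 / 4 := min_le_left _ _
  have hδ2 : δ ≤ g / 40 := (min_le_right _ _).trans (min_le_left _ _)
  have hδ3 : δ ≤ (b₁ - m) / (20 * m) := (min_le_right _ _).trans (min_le_right _ _)
  set C : ℝ := 3 / a + d + (2 + m) / a with hC
  have hCpos : 0 < C := by positivity
  set K : ℝ := (b / a) * (1 / a) * (1 + m / a) with hK
  have hK0 : 0 ≤ K := by positivity
  set L : ℝ := ((b / a) * d + d) * (1 + m / a) with hL
  have hL0 : 0 ≤ L := by positivity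
  obtain ⟨n₁, hn₁⟩ := exists_nat_ge (2 * K / ε)
  have hmd : 0 ≤ m * (d : ℝ) := by positivity
  have e1 : 0 ≤ 2 * L / ε := by positivity
  have e2 : 0 ≤ 8 * (m * d + 2) / g := by positivity
  have e3 : 0 ≤ 4 * m * (m * d + 2) / (b₁ - m) := by positivity
  obtain ⟨s₁, hs₁⟩ := exists_nat_ge (1 + m + 2 * L / ε + 8 * (m * d + 2) / g
    + 4 * m * (m * d + 2) / (b₁ - m) + 4 * (m * d))
  refine ⟨ε, δ, C, n₁ + 1, hεpos, hδpos, hCpos, by omega, s₁ + 1, ?_⟩
  intro s hs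
  have hsr : (s₁ : ℝ) + 1 ≤ (s : ℝ) := by exact_mod_cast hs
  have hs0 : (0 : ℝ) ≤ (s : ℝ) := Nat.cast_nonneg s
  have hn : ((n₁ + 1 : ℕ) : ℝ) = (n₁ : ℝ) + 1 := by push_cast; ring
  have hn0 : (0 : ℝ) ≤ (n₁ : ℝ) := Nat.cast_nonneg n₁
  set R : ℝ := ((n₁ + 1 : ℕ) : ℝ) * s with hR
  have hRs : (s : ℝ) ≤ R := by rw [hR, hn]; nlinarith
  have hR1 : 1 + m + 2 * L / ε + 8 * (m * d + 2) / g
    + 4 * m * (m * d + 2) / (b₁ - m) + 4 * (m * d) < R := by linarith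
  have r1 : 1 < R := by linarith
  have r2 : m < R := by linarith
  have r3 : 2 * L / ε < R := by linarith
  have r4 : 8 * (m * d + 2) / g < R := by linarith
  have r5 : 4 * m * (m * d + 2) / (b₁ - m) < R := by linarith
  have r6 : 4 * (m * d) < R := by linarith
  have q3 : L ≤ ε * R / 2 := by
    rw [div_lt_iff₀ hεpos] at r3; linarith
  have q4 : m * d + 2 < g * R / 8 := by
    rw [div_lt_iff₀ hg] at r4; linarith
  have q5 : m * d + 2 < (b₁ - m) * (R / m) / 4 := by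
    rw [div_lt_iff₀ hbm] at r5
    have h1 : 4 * (m * d + 2) < R * (b₁ - m) / m := by
      rw [lt_div_iff₀ hm]; linarith
    have h2 : (b₁ - m) * (R / m) = R * (b₁ - m) / m := by ring
    rw [h2]; linarith
  have qK : K * s ≤ ε * R / 2 := by
    rw [div_le_iff₀ hεpos] at hn₁
    have h1 : 2 * K * s ≤ (n₁ : ℝ) * ε * s := mul_le_mul_of_nonneg_right hn₁ hs0
    have h2 : ε * R = (n₁ : ℝ) * ε * s + ε * s := by rw [hR, hn]; ring
    have h3 : 0 ≤ ε * s := by positivity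
    linarith
  have hR0 : 0 < R := by linarith
  refine ⟨by omega, r2, ?_, ?_, ?_, ?_, ?_, ?_⟩
  · have h1 : ((b / a) * ((s : ℝ) / a + d) + d) * (1 + m / a) = K * s + L := by
      rw [hK, hL]; ring
    rw [h1]; linarith
  · have h1 : C * R = 3 * R / a + d * R + (2 + m) / a * R := by rw [hC]; ring
    have h2 : (0 : ℝ) ≤ (2 + m) / a * R := by positivity
    have h3 : (d : ℝ) ≤ d * R := by
      have : (0 : ℝ) ≤ (d : ℝ) := Nat.cast_nonneg d
      nlinarith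
    rw [h1]; linarith
  · have h1 : C * R = 3 * R / a + d * R + (2 * R + m * R) / a := by rw [hC]; ring
    have h2 : (2 * R + m) / a ≤ (2 * R + m * R) / a := by
      apply div_le_div_of_nonneg_right _ ha.le
      nlinarith
    have h3 : (0 : ℝ) ≤ 3 * R / a := by positivity
    have h4 : (0 : ℝ) ≤ d * R := by positivity
    rw [h1]; linarith
  · have h1 : (g - m * ε) * R = g * R / 2 := by
      rw [hε]; field_simp; ring
    have h2 : 5 * δ * R ≤ g * R / 8 := by nlinarith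
    rw [h1]; linarith
  · have h2 : 5 * δ * R ≤ (b₁ - m) * (R / m) / 4 := by
      have h3 : (b₁ - m) * (R / m) / 4 = 5 * ((b₁ - m) / (20 * m)) * R := by
        field_simp; ring
      rw [h3]
      nlinarith
    have h4 : 0 < (b₁ - m) * (R / m) := by positivity
    linarith
  · have h1 : δ * R ≤ R / 4 := by nlinarith
    linarith

end Pool.Agent.Helper79.GQ
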