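import Pool.Agent.Helper79.GQ.IA
import Pool.Agent.Helper79.GQ.LH

/-!
# GQ-IF: the passage times along a direction

`H3`: for `l < n` put `x = fl (l s) w`, `v = fl ((l + 1) s) w - x`: `n1 v ≤ s nr w + d`
(`n1_fl_sub_le`), and `μ (rv v) ≤ s + 2 m d` (`nr_fl` twice, `Nrm.lip'`, `μ (s • w) = s`).
`lln_unif_at` with `R = nr w + d + 1`, `δ / 2`, `p / (n + 1)`, union over `l < n`, and
`2 m d ≤ δ s / 2` for large `s`.  `H1` is `lln_unif`.
-/

set_option autoImplicit false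

namespace Pool.Agent.Helper79.GQ

open MeasureTheory ProbabilityTheory Pool.Agent.Helper79.GR

variable {Ω : Type*} [MeasurableSpace Ω] {d : ℕ} {P : Measure Ω} {X : Edge d → Ω → ℝ}
  {ν : Measure ℝ} {a b : ℝ}

private theorem IF_step {a m : ℝ} {μ : F d → ℝ} (h : Nrm a m μ) {w : F d} (hw : μ w = 1)
    (s l : ℕ) : μ (rv (fl ((l + 1) * s) w - fl (l * s) w)) ≤ s + 2 * |m| * d := by
  have h1 := h.lip' (rv (fl ((l + 1) * s) w - fl (l * s) w)) ((s : ℝ) • w)
  have h2 : μ ((s : ℝ) • w) = s := by rw [h.smul _ (Nat.cast_nonneg s), hw, mul_one]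
  have h3 : nr (rv (fl ((l + 1) * s) w - fl (l * s) w) - (s : ℝ) • w) ≤ 2 * d := by
    have e : rv (fl ((l + 1) * s) w - fl (l * s) w) - (s : ℝ) • w =
        (rv (fl ((l + 1) * s) w) - (((l + 1) * s : ℕ) : ℝ) • w) +
          -(rv (fl (l * s) w) - ((l * s : ℕ) : ℝ) • w) := by
      rw [rv_sub]
      funext i
      simp only [Pi.sub_apply, Pi.add_apply, Pi.neg_apply, Pi.smul_apply, smul_eq_mul]
      push_cast
      ring
    rw [e]
    refine (nr_add_le _ _).trans ?_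
    rw [nr_neg]
    have := nr_fl ((l + 1) * s) w
    have := nr_fl (l * s) w
    linarith
  have h4 : m * nr (rv (fl ((l + 1) * s) w - fl (l * s) w) - (s : ℝ) • w) ≤ |m| * (2 * d) :=
    (mul_le_mul_of_nonneg_right (le_abs_self m) (nr_nonneg _)).trans
      (mul_le_mul_of_nonneg_left h3 (abs_nonneg m))
  rw [h2] at h1
  linarith

theorem steps (h : Env P X ν a b) {w : F d} (hw : tc (mm P X) w = 1) (n : ℕ) (δ p : ℝ)
    (hδ : 0 < δ) (hp : 0 < p) :
    ∃ s₀ : ℕ, ∀ s ≥ s₀, P.real {ω | ¬ H3 (cf X ω) w n δ s} ≤ p := by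
  have := h.prob
  have hN := nrm_tc h
  set m : ℝ := ∫ x, x ∂ν with hm
  have hR : 0 < nr w + d + 1 := by
    have h1 := nr_nonneg w
    have h2 : (0 : ℝ) ≤ d := Nat.cast_nonneg d
    linarith
  have hn : (0 : ℝ) < n + 1 := by positivity
  obtain ⟨r₀, hr₀⟩ := lln_unif_at h (nr w + d + 1) (δ / 2) (p / (n + 1)) hR (by positivity)
    (by positivity)
  obtain ⟨k, hk⟩ := exists_nat_ge (4 * |m| * d / δ)
  refine ⟨max (max r₀ k) 1, fun s hs => ?_⟩
  have hs1 : 1 ≤ s := (le_max_right _ _).trans hs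
  have hsr : r₀ ≤ s := ((le_max_left _ _).trans (le_max_left _ _)).trans hs
  have hsk : k ≤ s := ((le_max_right _ _).trans (le_max_left _ _)).trans hs
  have hs1' : (1 : ℝ) ≤ s := by exact_mod_cast hs1
  have hsk' : 4 * |m| * d ≤ δ * s := by
    have h1 : 4 * |m| * d / δ ≤ s := hk.trans (by exact_mod_cast hsk)
    rw [div_le_iff₀ hδ] at h1
    linarith
  have hsub : {ω | ¬ H3 (cf X ω) w n δ s} ⊆ ⋃ l ∈ Finset.range n,
      {ω | ∃ v : V d, n1 v ≤ (nr w + d + 1) * s ∧ δ / 2 * s <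
        |T (cf X ω) (fl (l * s) w) (fl (l * s) w + v) - tc (mm P X) (rv v)|} := by
    intro ω hω
    by_contra hno
    apply hω
    intro l hl
    by_contra hlt
    apply hno
    refine Set.mem_biUnion (x := l) (Finset.mem_coe.2 (Finset.mem_range.2 hl)) ?_
    refine ⟨fl ((l + 1) * s) w - fl (l * s) w, ?_, ?_⟩
    · have h1 := n1_fl_sub_le ((l + 1) * s) (l * s)
        (Nat.mul_le_mul_right s (Nat.le_succ l)) w
      have h2 : ((((l + 1) * s : ℕ) : ℝ) - ((l * s : ℕ) : ℝ)) = s := by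
        push_cast
        ring
      rw [h2] at h1
      have h3 : (d : ℝ) ≤ d * s := le_mul_of_one_le_right (Nat.cast_nonneg d) hs1'
      have h4 : (nr w + d + 1) * s = s * nr w + d * s + s := by ring
      rw [h4]
      linarith
    · rw [add_sub_cancel]
      have h1 := IF_step hN hw s l
      have h2 := le_abs_self (T (cf X ω) (fl (l * s) w) (fl ((l + 1) * s) w) -
        tc (mm P X) (rv (fl ((l + 1) * s) w - fl (l * s) w)))
      rw [not_le] at hlt
      nlinarith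
  refine (measureReal_mono hsub (measure_ne_top P _)).trans ((measureReal_biUnion_finset_le _ _).trans ?_)
  refine (Finset.sum_le_sum fun l _ => hr₀ s hsr (fl (l * s) w)).trans ?_
  rw [Finset.sum_const, Finset.card_range, nsmul_eq_mul, mul_div_assoc', div_le_iff₀ hn]
  nlinarith

theorem near (h : Env P X ν a b) (C δ p : ℝ) (hC : 0 < C) (hδ : 0 < δ) (hp : 0 < p) :
    ∃ r₀ : ℕ, ∀ r : ℕ, r₀ ≤ r → P.real {ω | ¬ H1 (tc (mm P X)) (cf X ω) C δ r} ≤ p := by
  obtain ⟨r₀, hr₀⟩ := lln_unif h C δ p hC hδ hp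
  refine ⟨r₀, fun r hr => ?_⟩
  refine le_trans (le_of_eq ?_) (hr₀ r hr)
  congr 1
  ext ω
  constructor
  · intro hω
    by_contra hno
    apply hω
    intro v hv
    by_contra hlt
    exact hno ⟨v, hv, not_le.1 hlt⟩
  · rintro ⟨v, hv, hlt⟩ hH
    exact absurd (hH v hv) (not_le.2 hlt)

end Pool.Agent.Helper79.GQ
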