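import Pool.Agent.Helper79.GQ.IE
import Pool.Agent.Helper79.GQ.IF
import Pool.Agent.Helper79.GQ.AA
import Pool.Agent.Helper79.GQ.MA
import Pool.Agent.Helper79.GQ.BH
import Pool.Agent.Helper79.GQ.BI
import Pool.Agent.Helper79.GQ.BJ
import Pool.Agent.Helper79.GQ.BK

/-!
# GQ-BL: with positive probability there are `N` rays

Let `m = ∫ x dν`, `μ = tc (mm P X)` (`nrm_tc`), `m > 0` (`Nrm.a_le_m`), `b₁ = (m + b) / 2`, constants
from `constants`.  Choose `s` large for `constants`, for `near` and `increments` (for every `i`) at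
`r = n₀ s`, and for `steps` (`n = 3 n₀`, every `i`), each with probability `p = 1 / (4 (N + 1))`.
`W` is the finite set `wal_finite`, `η = min ((b - m) / 2) (1 / (card W + 1))`,
`H = Set.Icc (b - η) b`, `q₀ = ν.real H ^ card W / 4 > 0`.  For every `n` choose `k i > n` and
`k i > 2 r / a` with `P.real {¬ H2 .. (k i • v i)} ≤ p`; `z i = k i • v i`, `far` by
`μ (rv z) ≥ a n1 z ≥ a k i`.  `E` = `Bd`, `H1`, all `H2`, all `H3` (measurable by `MA`,
`P.real E ≥ 1 / 4`), `G` = `Bd` and `GG μ ε r w _ z`.  For `c ∈ E` and `c' = c` off `W`, `c' ∈ H` on `W` the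
scenario `Scn` holds (`a ≤ m ≤ b - η`), so `c' ∈ G` (`Scn.gg`); `resample` gives
`P.real G ≥ q₀`.  `prob_io` and `rays_of_GG`.
-/

set_option autoImplicit false

namespace Pool.Agent.Helper79.GQ

open MeasureTheory ProbabilityTheory Pool.Agent.Helper79.GR

variable {Ω : Type*} [MeasurableSpace Ω] {d : ℕ} {P : Measure Ω} {X : Edge d → Ω → ℝ}
  {ν : Measure ℝ} {a b : ℝ}

theorem theorem_rays (h : Env P X ν a b) (hd : 1 ≤ d) (hb : ∀ ε > 0, 0 < ν (Set.Icc (b - ε) b))
    (hmb : ∫ x, x ∂ν < b) {N : ℕ} {w : Fin N → F d} {ρ : Fin N → F d →L[ℝ] ℝ} {g : ℝ}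
    (hD : Dir (tc (mm P X)) w ρ g) :
    ∃ A : Set Ω, MeasurableSet A ∧ 0 < P A ∧
      ∀ ω ∈ A, ∃ s : Fin N → ℕ → St d, Function.Injective s ∧ ∀ i, Ray (cf X ω) (s i) := by
  classical
  have hP := h.prob
  have ha : 0 < a := h.apos
  have hn : Nrm a (∫ x, x ∂ν) (tc (mm P X)) := nrm_tc h
  generalize hμ : tc (mm P X) = μ at *
  generalize hm : (∫ x, x ∂ν) = m at *
  have ham : a ≤ m := hn.a_le_m hd
  have hm0 : 0 < m := lt_of_lt_of_le ha ham
  have hb0 : 0 < b := lt_trans hm0 hmb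
  have hb₁ : m < (m + b) / 2 := by linarith
  -- the law is a probability measure
  have hν : IsProbabilityMeasure ν := by
    rw [← h.law (ed 0 (⟨0, hd⟩, true))]
    exact Measure.isProbabilityMeasure_map (h.meas _).aemeasurable
  obtain ⟨ε, δ, C, n₀, hε, hδ, hC, hn₀, s₀, hs₀⟩ :=
    constants d a b m ((m + b) / 2) g ha hb0.le hm0 hb₁ hD.gpos
  have hp : (0 : ℝ) < 1 / (4 * ((N : ℝ) + 1)) := by positivity
  generalize hpp : (1 : ℝ) / (4 * ((N : ℝ) + 1)) = p at *
  have hw0 : ∀ i, w i ≠ 0 := by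
    intro i hi
    have h1 := hD.one i
    rw [hi, hn.zero] at h1
    exact zero_ne_one h1
  -- the scales
  obtain ⟨r₁, hr₁⟩ := near h C δ p hC hδ hp
  rw [hμ] at hr₁
  have hinc : ∀ i, ∃ r₀ : ℕ, ∀ r : ℕ, r₀ ≤ r → ∃ v : V d, v ≠ 0 ∧ ∀ k₀ : ℕ, ∃ k > k₀,
      P.real {ω | ¬ H2 (cf X ω) (ρ i) C δ r (k • v)} ≤ p := by
    intro i
    have hder : HasFDerivAt (tc (mm P X)) (ρ i) (w i) := by
      rw [hμ]
      exact hD.der i
    exact increments h hder (hw0 i) C δ p hC hδ hp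
  choose r₂ hr₂ using hinc
  have hst : ∀ i, ∃ s₀ : ℕ, ∀ s ≥ s₀, P.real {ω | ¬ H3 (cf X ω) (w i) (3 * n₀) δ s} ≤ p := by
    intro i
    have hone : tc (mm P X) (w i) = 1 := by
      rw [hμ]
      exact hD.one i
    exact steps h hone (3 * n₀) δ p hδ hp
  choose s₃ hs₃ using hst
  obtain ⟨s, hs_0, hs_1, hs_2, hs_3⟩ : ∃ s : ℕ, s₀ ≤ s ∧ r₁ ≤ s ∧ (∀ i, r₂ i ≤ s) ∧
      ∀ i, s₃ i ≤ s := by
    refine ⟨s₀ + r₁ + (∑ i, r₂ i) + ∑ i, s₃ i, by omega, by omega, ?_, ?_⟩
    · intro i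
      have := Finset.single_le_sum (f := r₂) (fun j _ => Nat.zero_le (r₂ j)) (Finset.mem_univ i)
      omega
    · intro i
      have := Finset.single_le_sum (f := s₃) (fun j _ => Nat.zero_le (s₃ j)) (Finset.mem_univ i)
      omega
  have hsr : s ≤ n₀ * s := Nat.le_mul_of_pos_left s hn₀
  have hcast : ((n₀ * s : ℕ) : ℝ) = (n₀ : ℝ) * s := Nat.cast_mul n₀ s
  obtain ⟨hs1, c1, c2, c3, c4, c5, c6, c7⟩ := hs₀ s hs_0
  have hr0 : 0 < (n₀ : ℝ) * s := lt_trans hm0 c1
  have e1 : P.real {ω | ¬ H1 μ (cf X ω) C δ ((n₀ : ℝ) * s)} ≤ p := by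
    have := hr₁ (n₀ * s) (hs_1.trans hsr)
    rwa [hcast] at this
  have e3 : ∀ i, P.real {ω | ¬ H3 (cf X ω) (w i) (3 * n₀) δ s} ≤ p := fun i =>
    hs₃ i s (hs_3 i)
  have e2 : ∀ i, ∃ v : V d, v ≠ 0 ∧ ∀ k₀ : ℕ, ∃ k > k₀,
      P.real {ω | ¬ H2 (cf X ω) (ρ i) C δ ((n₀ : ℝ) * s) (k • v)} ≤ p := by
    intro i
    have := hr₂ i (n₀ * s) ((hs_2 i).trans hsr)
    rwa [hcast] at this
  choose v hv0 hv using e2
  -- the wall
  set W : Finset (Edge d) := (wal_finite hn ε ((n₀ : ℝ) * s) w).toFinset with hW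
  have hWm : ∀ e, e ∈ W ↔ Wal μ ε ((n₀ : ℝ) * s) w e := by
    intro e
    rw [hW, Set.Finite.mem_toFinset]
    rfl
  obtain ⟨η, hη0, hη1, hη2⟩ : ∃ η : ℝ, 0 < η ∧ η ≤ (b - m) / 2 ∧ W.card * η ≤ 1 := by
    have hc0 : (0 : ℝ) < (W.card : ℝ) + 1 := by positivity
    refine ⟨min ((b - m) / 2) (1 / ((W.card : ℝ) + 1)), lt_min (by linarith) (by positivity),
      min_le_left _ _, ?_⟩
    calc (W.card : ℝ) * min ((b - m) / 2) (1 / ((W.card : ℝ) + 1))
        ≤ ((W.card : ℝ) + 1) * (1 / ((W.card : ℝ) + 1)) := by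
          apply mul_le_mul (by linarith) (min_le_right _ _) _ hc0.le
          exact le_min (by linarith) (by positivity)
      _ = 1 := mul_one_div_cancel hc0.ne'
  have hH : 0 < ν.real (Set.Icc (b - η) b) := by
    rw [measureReal_def]
    exact ENNReal.toReal_pos (hb η hη0).ne' (measure_ne_top ν _)
  set q₀ : ℝ := ν.real (Set.Icc (b - η) b) ^ W.card * (1 / 4) with hq₀
  have hq0 : 0 < q₀ := by positivity
  -- the targets
  obtain ⟨K, hK⟩ := exists_nat_ge (2 * ((n₀ : ℝ) * s) / a)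
  have hk : ∀ (n : ℕ) (i : Fin N), ∃ k : ℕ, n < k ∧ K < k ∧
      P.real {ω | ¬ H2 (cf X ω) (ρ i) C δ ((n₀ : ℝ) * s) (k • v i)} ≤ p := by
    intro n i
    obtain ⟨k, hk1, hk2⟩ := hv i (max n K)
    exact ⟨k, lt_of_le_of_lt (le_max_left _ _) hk1, lt_of_le_of_lt (le_max_right _ _) hk1, hk2⟩
  choose k hk1 hk2 hk3 using hk
  have hfar : ∀ n i, 2 * ((n₀ : ℝ) * s) < μ (rv (k n i • v i)) := by
    intro n i
    refine lt_of_lt_of_le ?_ (hn.lo _)
    rw [nr_rv, n1_nsmul]
    obtain ⟨j, hj⟩ := exists_nat_n1 (v i)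
    have hj0 : 1 ≤ j := by
      rcases Nat.eq_zero_or_pos j with rfl | hj'
      · rw [Nat.cast_zero] at hj
        exact absurd (n1_eq_zero.1 hj) (hv0 i)
      · exact hj'
    rw [hj]
    have h1 : (1 : ℝ) ≤ (j : ℝ) := by exact_mod_cast hj0
    have h2 : (K : ℝ) < (k n i : ℝ) := by exact_mod_cast hk2 n i
    have h3 : (k n i : ℝ) ≤ (k n i : ℝ) * j := le_mul_of_one_le_right (Nat.cast_nonneg _) h1
    have h4 : 2 * ((n₀ : ℝ) * s) / a < (k n i : ℝ) * j := by linarith
    rw [div_lt_iff₀ ha] at h4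
    linarith
  -- the events
  set E : ℕ → Set (Edge d → ℝ) := fun n => {c | Bd a b c ∧ H1 μ c C δ ((n₀ : ℝ) * s) ∧
    (∀ i, H2 c (ρ i) C δ ((n₀ : ℝ) * s) (k n i • v i)) ∧ ∀ i, H3 c (w i) (3 * n₀) δ s} with hE
  set G : ℕ → Set (Edge d → ℝ) := fun n => {c | Bd a b c ∧
    GG μ ε ((n₀ : ℝ) * s) w c fun i => k n i • v i} with hG
  have hEm : ∀ n, MeasurableSet (E n) := by
    intro n
    have h2 : MeasurableSet {c : Edge d → ℝ | ∀ i, H2 c (ρ i) C δ ((n₀ : ℝ) * s)
        (k n i • v i)} := by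
      rw [Set.ofPred_forall]
      exact MeasurableSet.iInter fun i => measurableSet_H2 _ _ _ _ _
    have h3 : MeasurableSet {c : Edge d → ℝ | ∀ i, H3 c (w i) (3 * n₀) δ s} := by
      rw [Set.ofPred_forall]
      exact MeasurableSet.iInter fun i => measurableSet_H3 _ _ _ _
    exact (measurableSet_Bd a b).inter ((measurableSet_H1 μ C δ _).inter (h2.inter h3))
  have hGm : ∀ n, MeasurableSet (G n) := fun n =>
    (measurableSet_Bd a b).inter (measurableSet_GG _ _ _ _ _)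
  have hEP : ∀ n, 1 / 4 ≤ P.real {ω | (fun e => X e ω) ∈ E n} := by
    intro n
    have hX : Measurable fun ω e => X e ω := measurable_pi_lambda _ fun e => h.meas e
    have hms : MeasurableSet {ω | (fun e => X e ω) ∈ E n} := hX (hEm n)
    have hc := probReal_compl_eq_one_sub (μ := P) hms
    have hsub : {ω | (fun e => X e ω) ∈ E n}ᶜ ⊆ {ω | ¬ H1 μ (cf X ω) C δ ((n₀ : ℝ) * s)} ∪
        ((⋃ i, {ω | ¬ H2 (cf X ω) (ρ i) C δ ((n₀ : ℝ) * s) (k n i • v i)}) ∪
          ⋃ i, {ω | ¬ H3 (cf X ω) (w i) (3 * n₀) δ s}) := by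
      intro ω hω
      by_contra hcon
      simp only [Set.mem_union, Set.mem_ofPred_eq, Set.mem_iUnion, not_or, not_exists,
        not_not] at hcon
      exact hω ⟨h.cf_bd ω, hcon.1, hcon.2.1, hcon.2.2⟩
    have hle : P.real ({ω | (fun e => X e ω) ∈ E n}ᶜ) ≤ p + (N * p + N * p) := by
      refine (measureReal_mono hsub).trans ((measureReal_union_le _ _).trans
        (add_le_add e1 ((measureReal_union_le _ _).trans (add_le_add ?_ ?_))))
      · refine (measureReal_iUnion_fintype_le _).trans ?_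
        refine (Finset.sum_le_sum fun i _ => hk3 n i).trans ?_
        rw [Finset.sum_const, Finset.card_univ, Fintype.card_fin, nsmul_eq_mul]
      · refine (measureReal_iUnion_fintype_le _).trans ?_
        refine (Finset.sum_le_sum fun i _ => e3 i).trans ?_
        rw [Finset.sum_const, Finset.card_univ, Fintype.card_fin, nsmul_eq_mul]
    have hp4 : p * (4 * ((N : ℝ) + 1)) = 1 := by
      rw [← hpp]
      have : (4 * ((N : ℝ) + 1)) ≠ 0 := by positivity
      field_simp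
    have hN : (0 : ℝ) ≤ (N : ℝ) := Nat.cast_nonneg N
    nlinarith
  have hres : ∀ n, q₀ ≤ P.real {ω | (fun e => X e ω) ∈ G n} := by
    intro n
    refine le_trans ?_ (resample P X h.meas h.indep ν h.law W (Set.Icc (b - η) b)
      measurableSet_Icc (E n) (G n) (hEm n) (hGm n) ?_)
    · exact mul_le_mul_of_nonneg_left (hEP n) (by positivity)
    · rintro c c' ⟨hbd, h1, h2, h3⟩ hin hoff
      have hbd' : Bd a b c' := by
        refine ⟨ha, fun e => ?_⟩
        by_cases he : e ∈ W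
        · have := hin e he
          exact ⟨by linarith [this.1], this.2⟩
        · rw [hoff e he]
          exact hbd.2 e
      have hscn : Scn a b m μ w ρ g ε δ C ((m + b) / 2) η n₀ s c c' W
          (fun i => k n i • v i) :=
        { bd := hbd
          bd' := hbd'
          nrm := hn
          dir := hD
          wal := hWm
          off := hoff
          low := fun e he => by
            have h4 := (hin e he).1
            have h5 := (hbd.2 e).2
            linarith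
          hig := fun e he => by
            have h4 := (hin e he).1
            linarith
          eta := hη0.le
          card := hη2
          h1 := h1
          h2 := h2
          h3 := h3
          far := hfar n
          mpos := hm0
          b1 := hb₁.le
          dpos := hδ.le
          spos := c1
          nE := c2
          nC := c3
          nC' := c4
          nT := c5
          nW := c6
          nF := c7 }
      exact ⟨hbd', hscn.gg⟩
  -- infinitely often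
  have hGmΩ : ∀ n, MeasurableSet {ω | (fun e => X e ω) ∈ G n} := fun n =>
    (measurable_pi_lambda (fun ω e => X e ω) fun e => h.meas e) (hGm n)
  obtain ⟨hA, hAq⟩ := prob_io P (fun n => {ω | (fun e => X e ω) ∈ G n}) hGmΩ q₀ hres
  refine ⟨_, hA, ?_, ?_⟩
  · have h1 := lt_of_lt_of_le hq0 hAq
    rw [measureReal_def] at h1
    exact (ENNReal.toReal_pos_iff.1 h1).1
  · intro ω hω
    refine rays_of_GG (h.cf_bd ω) hb0.le hn ε ((n₀ : ℝ) * s) hr0 w v hv0 ?_
    intro n
    obtain ⟨j, hj, hjG⟩ := hω n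
    exact ⟨k j, fun i => lt_of_le_of_lt hj (hk1 j i), hjG.2⟩

end Pool.Agent.Helper79.GQ
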