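import Pool.Agent.Helper79.GQ.Defs
import Pool.Agent.Helper79.GR.FA

/-!
# GQ-FA: from steps to paths of the frozen statement
-/

set_option autoImplicit false

namespace Pool.Agent.Helper79.GQ

open Pool.Agent.Helper79.GR

private theorem GFA_near {d : ℕ} {x y : V d} (h : ∑ i, |x i - y i| = 1) :
    ∃ s : St d, y = x + sv s := by
  obtain ⟨i, hi⟩ : ∃ i, x i ≠ y i := by
    by_contra hcon
    push Not at hcon
    rw [Finset.sum_eq_zero (fun i _ => by rw [hcon i, sub_self, abs_zero])] at h
    exact zero_ne_one h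
  have h1 : 1 ≤ |x i - y i| := Int.one_le_abs (sub_ne_zero.2 hi)
  have h2 := Finset.add_sum_erase Finset.univ (fun j => |x j - y j|) (Finset.mem_univ i)
  have h3 : 0 ≤ ∑ j ∈ Finset.univ.erase i, |x j - y j| :=
    Finset.sum_nonneg fun j _ => abs_nonneg _
  have h2' : |x i - y i| + ∑ j ∈ Finset.univ.erase i, |x j - y j| = 1 := h2.trans h
  have h4 : ∑ j ∈ Finset.univ.erase i, |x j - y j| = 0 := by omega
  have h5 : |x i - y i| = 1 := by omega
  rw [Finset.sum_eq_zero_iff_of_nonneg (fun j _ => abs_nonneg _)] at h4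
  have h6 : ∀ j, j ≠ i → y j = x j := by
    intro j hj
    have h7 := h4 j (Finset.mem_erase.2 ⟨hj, Finset.mem_univ _⟩)
    have h8 := abs_eq_zero.1 h7
    omega
  rcases abs_eq (zero_le_one) |>.1 h5 with h7 | h7
  · refine ⟨(i, false), funext fun j => ?_⟩
    by_cases hj : j = i
    · subst hj
      simp only [sv, Pi.add_apply, Pi.single_eq_same]
      simp
      omega
    · rw [h6 j hj]
      simp [sv, hj]
  · refine ⟨(i, true), funext fun j => ?_⟩
    by_cases hj : j = i
    · subst hj
      simp only [sv, Pi.add_apply, Pi.single_eq_same]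
      simp
      omega
    · rw [h6 j hj]
      simp [sv, hj]

private theorem GFA_walk {d : ℕ} {c : Edge d → ℝ} (t : Sym2 (Fin d → ℤ) → ℝ)
    (ht : ∀ e : Edge d, t e.1 = c e) (q : ℕ → V d) (u : ℕ → St d) (L : ℕ)
    (hq : ∀ k < L, q (k + 1) = q k + sv (u k)) :
    pos (q 0) (pre u L) = q L ∧
      cost c (q 0) (pre u L) = ∑ k ∈ Finset.range L, t s(q k, q (k + 1)) := by
  induction L with
  | zero => exact ⟨rfl, rfl⟩
  | succ L ih =>
    obtain ⟨h1, h2⟩ := ih fun k hk => hq k (by omega)
    have h3 : pre u (L + 1) = pre u L ++ [u L] := by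
      unfold pre
      rw [List.range_succ, List.map_append]
      rfl
    have h4 := hq L (by omega)
    constructor
    · rw [h3, pos_append, h1, h4]
      rfl
    · rw [h3, cost_append, h1, h2, Finset.sum_range_succ]
      congr 1
      show c (ed (q L) (u L)) + 0 = _
      rw [add_zero, ← ht, h4]
      rfl

/-- See `GR/FA.lean` (`rays_to_paths`), the same with the starting point `x`. -/
theorem ray_path {d : ℕ} {a b : ℝ} {c : Edge d → ℝ} (hb : Bd a b c)
    (t : Sym2 (Fin d → ℤ) → ℝ) (ht : ∀ e : Edge d, t e.1 = c e) (x : V d) (s : ℕ → St d)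
    (hs : ∀ n, Geo c x (pre s n)) (γ : ℕ → (Fin d → ℤ)) (hγ : ∀ k, γ k = pos x (pre s k)) :
    Function.Injective γ ∧ (∀ k, ∑ i, |γ k i - γ (k + 1) i| = 1) ∧
      ∀ m n : ℕ, m ≤ n →
        ∀ (L : ℕ) (q : ℕ → (Fin d → ℤ)), q 0 = γ m → q L = γ n →
          (∀ k < L, ∑ i, |q k i - q (k + 1) i| = 1) →
          ∑ k ∈ Finset.range (n - m), t s(γ (m + k), γ (m + k + 1)) ≤
            ∑ k ∈ Finset.range L, t s(q k, q (k + 1)) := by
  have hpre : ∀ (u : ℕ → St d) (L : ℕ), pre u (L + 1) = pre u L ++ [u L] := by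
    intro u L
    unfold pre
    rw [List.range_succ, List.map_append]
    rfl
  have hstep : ∀ k, γ (k + 1) = γ k + sv (s k) := by
    intro k
    rw [hγ, hγ, hpre, pos_append]
    rfl
  have hlen : ∀ (u : ℕ → St d) (L : ℕ), (pre u L).length = L := by
    intro u L
    simp [pre]
  have htake : ∀ (u : ℕ → St d) (i j : ℕ), i ≤ j → (pre u j).take i = pre u i := by
    intro u i j hij
    unfold pre
    rw [← List.map_take, List.take_range, min_eq_left hij]
  refine ⟨?_, ?_, ?_⟩
  · have key : ∀ m n, m < n → γ m ≠ γ n := by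
      intro m n hmn h
      have h1 := Geo.pos_inj hb (hs n) hmn (by rw [hlen])
      rw [htake _ _ _ hmn.le, htake _ _ _ (le_refl n), ← hγ, ← hγ] at h1
      exact h1 h
    intro m n h
    rcases lt_trichotomy m n with h1 | h1 | h1
    · exact absurd h (key m n h1)
    · exact h1
    · exact absurd h.symm (key n m h1)
  · intro k
    rw [hstep]
    exact sum_sv _ _
  · intro m n hmn L q hq0 hqL hq
    have hex : ∀ k, ∃ u : St d, k < L → q (k + 1) = q k + sv u := by
      intro k
      by_cases hk : k < L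
      · obtain ⟨u, hu⟩ := GFA_near (hq k hk)
        exact ⟨u, fun _ => hu⟩
      · exact ⟨s 0, fun h => absurd h hk⟩
    choose u hu using hex
    obtain ⟨h1, h2⟩ := GFA_walk t ht q u L hu
    obtain ⟨h3, h4⟩ := GFA_walk t ht (fun k => γ (m + k)) (fun k => s (m + k)) (n - m)
      (fun k _ => hstep (m + k))
    have h5 : pre s n = pre s m ++ pre (fun k => s (m + k)) (n - m) := by
      unfold pre
      conv_lhs => rw [show n = m + (n - m) by omega, List.range_add, List.map_append,
        List.map_map]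
      rfl
    have h6 := hs n (pre s m ++ pre u L) (by
      rw [pos_append, ← hγ, ← hγ, ← hq0, h1, hqL])
    rw [h5, cost_append, cost_append, ← hγ] at h6
    have h7 : cost c (γ m) (pre (fun k => s (m + k)) (n - m)) ≤
        cost c (γ m) (pre u L) := le_of_add_le_add_left h6
    rw [← hq0, h2] at h7
    have h8 : cost c (q 0) (pre (fun k => s (m + k)) (n - m)) =
        ∑ k ∈ Finset.range (n - m), t s(γ (m + k), γ (m + (k + 1))) := by
      rw [hq0]
      exact h4
    rw [h8] at h7
    exact h7

end Pool.Agent.Helper79.GQ
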