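import Mathlib

/-!
# GQ-FD: the essential supremum of the law, and the exponential bound

`b' = sInf {x | μ (Ioi x) = 0}` (contains `b`, bounded below by `a`): `μ (Ioi b') = 0` (countable
union of `Ioi (b' + 1 / n)`), and `μ (Ioi (b' - ε)) > 0`, so `μ (Icc (b' - ε) b') > 0`.
`∫ x ≤ b'`, and equality would give `x = b'` almost everywhere, `μ {b'} = 1`.
-/

set_option autoImplicit false

namespace Pool.Agent.Helper79.GQ

open MeasureTheory

theorem exists_top (μ : Measure ℝ) [IsProbabilityMeasure μ] (a b : ℝ)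
    (h : μ (Set.Icc a b)ᶜ = 0) (hx : ∀ x, μ {x} ≠ 1) :
    ∃ b' : ℝ, μ (Set.Icc a b')ᶜ = 0 ∧ (∀ ε > 0, 0 < μ (Set.Icc (b' - ε) b')) ∧
      ∫ x, x ∂μ < b' := by
  obtain ⟨S, hS⟩ : ∃ S : Set ℝ, S = {x | μ (Set.Ioi x) = 0} := ⟨_, rfl⟩
  have hmem : ∀ x, x ∈ S ↔ μ (Set.Ioi x) = 0 := by
    intro x
    rw [hS]
    rfl
  have hbS : b ∈ S := by
    rw [hmem]
    refine measure_mono_null (t := (Set.Icc a b)ᶜ) ?_ h
    intro x hx1 hx2
    exact absurd hx1 (not_lt.2 hx2.2)
  have hlow : ∀ x ∈ S, a ≤ x := by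
    intro x hxS
    by_contra hlt
    push Not at hlt
    rw [hmem] at hxS
    have h0 : μ Set.univ = 0 := by
      refine measure_mono_null (t := Set.Ioi x ∪ (Set.Icc a b)ᶜ) ?_ (measure_union_null hxS h)
      intro y _
      by_cases hy : y ∈ Set.Icc a b
      · left
        exact lt_of_lt_of_le hlt hy.1
      · right
        exact hy
    rw [measure_univ] at h0
    exact one_ne_zero h0
  have hbdd : BddBelow S := ⟨a, hlow⟩
  obtain ⟨b', hb'⟩ : ∃ b', b' = sInf S := ⟨_, rfl⟩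
  have h1 : μ (Set.Ioi b') = 0 := by
    have hU : Set.Ioi b' ⊆ ⋃ n : ℕ, Set.Ioi (b' + 1 / ((n : ℝ) + 1)) := by
      intro x hx
      have hx0 : 0 < x - b' := sub_pos.2 hx
      obtain ⟨n, hn⟩ := exists_nat_one_div_lt hx0
      rw [Set.mem_iUnion]
      refine ⟨n, ?_⟩
      rw [Set.mem_Ioi]
      linarith
    refine measure_mono_null hU (measure_iUnion_null fun n => ?_)
    have hpos : (0 : ℝ) < 1 / ((n : ℝ) + 1) := by positivity
    obtain ⟨y, hy, hlt⟩ := exists_lt_of_csInf_lt (⟨b, hbS⟩ : S.Nonempty)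
      (show sInf S < b' + 1 / ((n : ℝ) + 1) by linarith)
    rw [hmem] at hy
    exact measure_mono_null (fun z hz => lt_trans hlt hz) hy
  have hab' : a ≤ b' := by
    rw [hb']
    exact le_csInf ⟨b, hbS⟩ hlow
  have hIcc : μ (Set.Icc a b')ᶜ = 0 := by
    refine measure_mono_null ?_ (measure_union_null h h1)
    intro x hx0
    by_cases hx1 : x ∈ Set.Icc a b
    · right
      by_contra hle
      exact hx0 ⟨hx1.1, not_lt.1 hle⟩
    · left
      exact hx1
  refine ⟨b', hIcc, ?_, ?_⟩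
  · intro ε hε
    rw [pos_iff_ne_zero]
    intro h0
    have h2 : b' - ε ∈ S := by
      rw [hmem]
      refine measure_mono_null (t := Set.Icc (b' - ε) b' ∪ Set.Ioi b') ?_
        (measure_union_null h0 h1)
      intro x hx0
      rcases le_or_gt x b' with hle | hgt
      · left
        exact ⟨le_of_lt hx0, hle⟩
      · right
        exact hgt
    have h3 := csInf_le hbdd h2
    rw [← hb'] at h3
    linarith
  · have hae : ∀ᵐ x ∂μ, x ∈ Set.Icc a b' := by
      rw [ae_iff]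
      exact hIcc
    have hint : Integrable (fun x : ℝ => x) μ := by
      refine Integrable.of_mem_Icc a b' (by fun_prop) hae
    by_contra hge
    push Not at hge
    have h2 : ∫ x, (b' - x) ∂μ = b' - ∫ x, x ∂μ := by
      rw [integral_sub (integrable_const _) hint]
      simp
    have h3 : 0 ≤ᵐ[μ] fun x => b' - x := by
      filter_upwards [hae] with x hx0
      exact sub_nonneg.2 hx0.2
    have h4 : ∫ x, (b' - x) ∂μ = 0 :=
      le_antisymm (by rw [h2]; linarith) (integral_nonneg_of_ae h3)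
    have h5 := (integral_eq_zero_iff_of_nonneg_ae h3 ((integrable_const _).sub hint)).1 h4
    apply hx b'
    have h6 : μ {b'}ᶜ = 0 := by
      have h7 : ∀ᵐ x ∂μ, x ∈ ({b'} : Set ℝ) := by
        filter_upwards [h5] with x hx0
        have : b' - x = 0 := hx0
        rw [Set.mem_singleton_iff]
        linarith
      exact h7
    exact (prob_compl_eq_zero_iff (measurableSet_singleton b')).1 h6

/-- `l = a / m ^ 2`, `cosh (l m) ≤ exp (l ^ 2 m ^ 2 / 2)` (`Real.cosh_le_exp_half_sq`), so the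
bracket is at most `exp (- a ^ 2 / (2 m ^ 2))`. -/
theorem exists_l (d N : ℕ) (a m : ℝ) (ha : 0 < a) (hm : 0 < m)
    (hN : (N : ℝ) ≤ Real.exp (a ^ 2 * d / (2 * m ^ 2))) :
    ∃ l : ℝ, 0 ≤ l ∧ ((N : ℝ) - 1) * (Real.exp (-(l * a)) * Real.cosh (l * m)) ^ d < 1 := by
  refine ⟨a / m ^ 2, by positivity, ?_⟩
  have h1 : Real.cosh (a / m ^ 2 * m) ≤ Real.exp ((a / m ^ 2 * m) ^ 2 / 2) :=
    Real.cosh_le_exp_half_sq _
  have hc : 0 < Real.cosh (a / m ^ 2 * m) := Real.cosh_pos _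
  have hq : Real.exp (-(a / m ^ 2 * a)) * Real.cosh (a / m ^ 2 * m) ≤
      Real.exp (-(a ^ 2 / (2 * m ^ 2))) := by
    calc Real.exp (-(a / m ^ 2 * a)) * Real.cosh (a / m ^ 2 * m)
        ≤ Real.exp (-(a / m ^ 2 * a)) * Real.exp ((a / m ^ 2 * m) ^ 2 / 2) :=
          mul_le_mul_of_nonneg_left h1 (Real.exp_pos _).le
      _ = Real.exp (-(a ^ 2 / (2 * m ^ 2))) := by
          rw [← Real.exp_add]
          congr 1
          field_simp
          ring
  have hq0 : 0 < Real.exp (-(a / m ^ 2 * a)) * Real.cosh (a / m ^ 2 * m) :=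
    mul_pos (Real.exp_pos _) hc
  have hqd : (Real.exp (-(a / m ^ 2 * a)) * Real.cosh (a / m ^ 2 * m)) ^ d ≤
      Real.exp (-(a ^ 2 * d / (2 * m ^ 2))) := by
    calc (Real.exp (-(a / m ^ 2 * a)) * Real.cosh (a / m ^ 2 * m)) ^ d
        ≤ Real.exp (-(a ^ 2 / (2 * m ^ 2))) ^ d := pow_le_pow_left₀ hq0.le hq d
      _ = Real.exp (-(a ^ 2 * d / (2 * m ^ 2))) := by
          rw [← Real.exp_nat_mul]
          congr 1
          ring
  have hqd0 : 0 < (Real.exp (-(a / m ^ 2 * a)) * Real.cosh (a / m ^ 2 * m)) ^ d := pow_pos hq0 d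
  calc ((N : ℝ) - 1) * (Real.exp (-(a / m ^ 2 * a)) * Real.cosh (a / m ^ 2 * m)) ^ d
      < (N : ℝ) * (Real.exp (-(a / m ^ 2 * a)) * Real.cosh (a / m ^ 2 * m)) ^ d :=
        mul_lt_mul_of_pos_right (by linarith) hqd0
    _ ≤ Real.exp (a ^ 2 * d / (2 * m ^ 2)) * Real.exp (-(a ^ 2 * d / (2 * m ^ 2))) :=
        mul_le_mul hN hqd hqd0.le (Real.exp_pos _).le
    _ = 1 := by rw [← Real.exp_add, add_neg_cancel, Real.exp_zero]

end Pool.Agent.Helper79.GQ
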