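import Pool.Agent.Helper79.GQ.Defs

/-!
# GQ-LE: the number of gradients is exponential in the dimension

`2 ^ d` is the number of sign vectors `s`.  For every `s` there is `ρ ∈ G` with
`1 ≤ exp (l (ρ s - a d))`, so
`2 ^ d ≤ ∑ ρ ∈ G, exp (- l a d) ∑ s, ∏ i, exp (l ρ i (± 1))
= ∑ ρ ∈ G, exp (- l a d) ∏ i, (2 cosh (l ρ i))` (`ρ i = ρ (Pi.single i 1)`,
`Finset.prod_univ_sum`, `Fintype.piFinset`), and `cosh (l ρ i) ≤ cosh (l m)` because
`|l ρ i| ≤ l m` (`Real.cosh_le_cosh`).
-/

set_option autoImplicit false

namespace Pool.Agent.Helper79.GQ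

open MeasureTheory ProbabilityTheory Pool.Agent.Helper79.GR

private theorem lin_sum {d : ℕ} (ρ : F d →L[ℝ] ℝ) (v : F d) :
    ρ v = ∑ i, v i * ρ (Pi.single i 1) := by
  have h : v = ∑ i, v i • (Pi.single i (1 : ℝ) : F d) := by
    ext j
    simp [Finset.sum_apply, Pi.single_apply]
  conv_lhs => rw [h]
  rw [map_sum]
  exact Finset.sum_congr rfl fun i _ => by rw [map_smul, smul_eq_mul]

theorem count_exp {d : ℕ} (G : Finset (F d →L[ℝ] ℝ)) (a m l : ℝ) (hl : 0 ≤ l)
    (hm : ∀ ρ ∈ G, ∀ i, |ρ (Pi.single i 1)| ≤ m)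
    (hG : ∀ s : Fin d → Bool, ∃ ρ ∈ G, a * d ≤ ρ (fun i => if s i then 1 else -1)) :
    1 ≤ (G.card : ℝ) * (Real.exp (-(l * a)) * Real.cosh (l * m)) ^ d := by
  have key : (2 : ℝ) ^ d ≤ G.card * (Real.exp (-(l * a)) ^ d * (2 * Real.cosh (l * m)) ^ d) := by
    calc (2 : ℝ) ^ d = ∑ _s : Fin d → Bool, (1 : ℝ) := by simp
      _ ≤ ∑ s : Fin d → Bool, ∑ ρ ∈ G,
          Real.exp (l * (ρ (fun i => if s i then 1 else -1) - a * d)) := by
        apply Finset.sum_le_sum
        intro s _
        obtain ⟨ρ, hρG, h⟩ := hG s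
        calc (1 : ℝ) ≤ Real.exp (l * (ρ (fun i => if s i then 1 else -1) - a * d)) :=
              Real.one_le_exp (mul_nonneg hl (by linarith))
          _ ≤ _ := Finset.single_le_sum
              (f := fun ρ : F d →L[ℝ] ℝ =>
                Real.exp (l * (ρ (fun i => if s i then 1 else -1) - a * d)))
              (fun _ _ => (Real.exp_pos _).le) hρG
      _ = ∑ ρ ∈ G, ∑ s : Fin d → Bool,
          Real.exp (l * (ρ (fun i => if s i then 1 else -1) - a * d)) := Finset.sum_comm
      _ ≤ ∑ _ρ ∈ G, (Real.exp (-(l * a)) ^ d * (2 * Real.cosh (l * m)) ^ d) := by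
        apply Finset.sum_le_sum
        intro ρ hρG
        have h1 : ∀ s : Fin d → Bool,
            Real.exp (l * (ρ (fun i => if s i then 1 else -1) - a * d)) =
              Real.exp (-(l * a)) ^ d *
                ∏ i, Real.exp (l * ((if s i then 1 else -1) * ρ (Pi.single i 1))) := by
          intro s
          rw [lin_sum, ← Real.exp_sum, ← Real.exp_nat_mul, ← Real.exp_add]
          congr 1
          rw [← Finset.mul_sum]
          ring
        rw [Finset.sum_congr rfl fun s _ => h1 s, ← Finset.mul_sum]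
        apply mul_le_mul_of_nonneg_left _ (pow_nonneg (Real.exp_pos _).le _)
        have h2 := Finset.prod_univ_sum (fun _ : Fin d => (Finset.univ : Finset Bool))
          (fun (i : Fin d) (b : Bool) =>
            Real.exp (l * ((if b then 1 else -1) * ρ (Pi.single i 1))))
        rw [Fintype.piFinset_univ] at h2
        rw [← h2]
        calc ∏ i : Fin d, ∑ b : Bool, Real.exp (l * ((if b then 1 else -1) * ρ (Pi.single i 1)))
            ≤ ∏ _i : Fin d, (2 * Real.cosh (l * m)) := by
              apply Finset.prod_le_prod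
              · intro i _
                exact Finset.sum_nonneg fun _ _ => (Real.exp_pos _).le
              · intro i _
                have h3 : ∑ b : Bool, Real.exp (l * ((if b then 1 else -1) * ρ (Pi.single i 1))) =
                    2 * Real.cosh (l * ρ (Pi.single i 1)) := by
                  rw [Fintype.sum_bool, Real.cosh_eq]
                  simp only [if_true, Bool.false_eq_true, if_false, one_mul, neg_mul, mul_neg]
                  ring
                rw [h3]
                have h4 : Real.cosh (l * ρ (Pi.single i 1)) ≤ Real.cosh (l * m) := by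
                  rw [Real.cosh_le_cosh, abs_mul, abs_mul, abs_of_nonneg hl]
                  exact mul_le_mul_of_nonneg_left ((hm ρ hρG i).trans (le_abs_self m)) hl
                linarith
          _ = (2 * Real.cosh (l * m)) ^ d := by simp
      _ = _ := by rw [Finset.sum_const, nsmul_eq_mul]
  have h2 : (0 : ℝ) < 2 ^ d := by positivity
  have h5 : (G.card : ℝ) * (Real.exp (-(l * a)) ^ d * (2 * Real.cosh (l * m)) ^ d) =
      2 ^ d * ((G.card : ℝ) * (Real.exp (-(l * a)) * Real.cosh (l * m)) ^ d) := by
    rw [mul_pow, mul_pow]; ring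
  rw [h5] at key
  exact le_of_mul_le_mul_left (by linarith) h2

end Pool.Agent.Helper79.GQ
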