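import Pool.Agent.Helper79.GQ.Defs

/-!
# GQ-LF: at least `2 d` gradients

The span of `G` is the whole dual space (a proper subspace of the dual of a finite-dimensional
space has a common zero `x ≠ 0`, e.g. `Submodule.exists_le_ker_of_lt_top` and reflexivity, or
argue with the map `x ↦ (ρ x) ρ ∈ G`, which is injective).  So `G` contains `d` linearly
independent elements `B` (`exists_linearIndependent`, `finrank` of the dual is `d`).  `B` and
`- B` are disjoint subsets of `G`: `b = - b'` with `b, b' ∈ B` contradicts the independence if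
`b ≠ b'` and gives `b = 0` if `b = b'`.
-/

set_option autoImplicit false

namespace Pool.Agent.Helper79.GQ

open MeasureTheory ProbabilityTheory Pool.Agent.Helper79.GR

private theorem LF_span {d : ℕ} (G : Finset (F d →L[ℝ] ℝ))
    (hsp : ∀ x : F d, x ≠ 0 → ∃ ρ ∈ G, ρ x ≠ 0) :
    Submodule.span ℝ (G : Set (F d →L[ℝ] ℝ)) = ⊤ := by
  by_contra hne
  obtain ⟨f, hf, hle⟩ := Submodule.exists_le_ker_of_lt_top _ (lt_top_iff_ne_top.mpr hne)
  set e : (F d →ₗ[ℝ] ℝ) ≃ₗ[ℝ] (F d →L[ℝ] ℝ) := LinearMap.toContinuousLinearMap with he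
  set g : Module.Dual ℝ (Module.Dual ℝ (F d)) := f.comp e.toLinearMap with hg
  set x : F d := (Module.evalEquiv ℝ (F d)).symm g with hx
  have hgx : ∀ φ : Module.Dual ℝ (F d), g φ = φ x := by
    intro φ
    have h1 : (Module.evalEquiv ℝ (F d)) x = g := (Module.evalEquiv ℝ (F d)).apply_symm_apply g
    rw [← h1]
    rfl
  have hfx : ∀ ρ : F d →L[ℝ] ℝ, f ρ = ρ x := by
    intro ρ
    have h1 := hgx (e.symm ρ)
    have h2 : g (e.symm ρ) = f ρ := by
      rw [hg, LinearMap.comp_apply]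
      change f (e (e.symm ρ)) = f ρ
      rw [e.apply_symm_apply]
    rw [← h2, h1]
    rfl
  by_cases hx0 : x = 0
  · apply hf
    ext ρ
    rw [hfx, hx0, map_zero]
    rfl
  · obtain ⟨ρ, hρ, h1⟩ := hsp x hx0
    apply h1
    rw [← hfx]
    exact hle (Submodule.subset_span hρ)

theorem count_sym {d : ℕ} (G : Finset (F d →L[ℝ] ℝ)) (hneg : ∀ ρ ∈ G, -ρ ∈ G)
    (hsp : ∀ x : F d, x ≠ 0 → ∃ ρ ∈ G, ρ x ≠ 0) : 2 * d ≤ G.card := by
  classical
  have hspan := LF_span G hsp
  obtain ⟨b, hb, hbs, hli⟩ := exists_linearIndependent ℝ (G : Set (F d →L[ℝ] ℝ))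
  have hfin : b.Finite := G.finite_toSet.subset hb
  have : Fintype b := hfin.fintype
  have hcard : b.toFinset.card = d := by
    rw [← finrank_span_set_eq_card hli, hbs, hspan, finrank_top]
    have e : (F d →ₗ[ℝ] ℝ) ≃ₗ[ℝ] (F d →L[ℝ] ℝ) := LinearMap.toContinuousLinearMap
    rw [← e.finrank_eq]
    rw [show Module.finrank ℝ (F d →ₗ[ℝ] ℝ) = Module.finrank ℝ (F d) from
      Subspace.dual_finrank_eq]
    simp
  have hdis : Disjoint b.toFinset (b.toFinset.image fun ρ => -ρ) := by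
    rw [Finset.disjoint_left]
    intro ρ hρ hρ'
    rw [Finset.mem_image] at hρ'
    obtain ⟨σ, hσ, hs⟩ := hρ'
    rw [Set.mem_toFinset] at hρ hσ
    have h0 : (⟨ρ, hρ⟩ : b).1 + (⟨σ, hσ⟩ : b).1 = 0 := by
      change ρ + σ = 0
      rw [← hs]
      simp
    have hne0 : ∀ τ : b, τ.1 ≠ 0 := fun τ => hli.ne_zero τ
    by_cases h : (⟨ρ, hρ⟩ : b) = ⟨σ, hσ⟩
    · rw [← h] at h0
      have h2 : (2 : ℝ) • (⟨ρ, hρ⟩ : b).1 = 0 := by
        rw [two_smul]
        exact h0
      rcases smul_eq_zero.mp h2 with h3 | h3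
      · norm_num at h3
      · exact hne0 _ h3
    · have h1 := linearIndependent_iff'.mp hli {⟨ρ, hρ⟩, ⟨σ, hσ⟩} (fun _ => (1 : ℝ)) (by
        rw [Finset.sum_pair h, one_smul, one_smul]
        exact h0) ⟨ρ, hρ⟩ (by simp)
      exact one_ne_zero h1
  have hsub : b.toFinset ∪ (b.toFinset.image fun ρ => -ρ) ⊆ G := by
    intro ρ hρ
    rw [Finset.mem_union, Finset.mem_image] at hρ
    rcases hρ with h | ⟨σ, hσ, rfl⟩
    · exact hb (Set.mem_toFinset.mp h)
    · exact hneg σ (hb (Set.mem_toFinset.mp hσ))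
  have h1 := Finset.card_le_card hsub
  rw [Finset.card_union_of_disjoint hdis, Finset.card_image_of_injective _ neg_injective,
    hcard] at h1
  omega

end Pool.Agent.Helper79.GQ
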