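import Pool.Agent.Helper79.GQ.LD
import Pool.Agent.Helper79.GQ.LE
import Pool.Agent.Helper79.GQ.LF

/-!
# GQ-LG: many directions with different gradients

Let `S` be the set of all `ρ` with `HasFDerivAt μ ρ w` for some `w`.  If `S` is finite with less
than `N` elements (`G`), use `cover`: every `x` has `ρ ∈ G` with `ρ x = μ x` (`grad_le`).  So
`count_sym` (`grad_neg`; `ρ x = μ x > 0`) gives `2 d ≤ card G < N`, and `count_exp`
(`μ s ≥ a nr s = a d` for sign vectors, `abs_le_of_le`) gives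
`1 ≤ card G * q ^ d ≤ (N - 1) * q ^ d`; one of them contradicts `hN`.  So there are `N` different
elements `ρ i` of `S` (`Set.Infinite` or `Set.ncard`; e.g. `Set.encard` and
`Set.exists_subset_encard_eq`, or `Function.Embedding`), with points `w' i ≠ 0` (`grad_ne`); put
`w i = (μ (w' i))⁻¹ • w' i` (`grad_smul`).  For `i ≠ j`: `ρ i (w j) ≤ μ (w j) = 1`, and
`ρ i (w j) = 1` would give `ρ i = ρ j` by `grad_unique`; `g` is the minimum of the finitely many
numbers `1 - ρ i (w j)` (or `1`).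
-/

set_option autoImplicit false

namespace Pool.Agent.Helper79.GQ

open MeasureTheory ProbabilityTheory Pool.Agent.Helper79.GR

private theorem nr_single {d : ℕ} (i : Fin d) : nr (Pi.single i 1 : F d) = 1 := by
  unfold nr
  rw [Finset.sum_eq_single i]
  · simp
  · intro j _ hj
    simp [Pi.single_eq_of_ne hj]
  · intro hi
    exact absurd (Finset.mem_univ _) hi

private theorem nr_sign {d : ℕ} (s : Fin d → Bool) :
    nr (fun i => if s i then (1 : ℝ) else -1 : F d) = d := by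
  unfold nr
  have : ∀ i : Fin d, |(if s i then (1 : ℝ) else -1)| = 1 := by
    intro i
    by_cases hs : s i = true
    · simp [hs]
    · simp [hs]
  simp [this]

private theorem card_ge {d : ℕ} (hd : 1 ≤ d) {a m : ℝ} {μ : F d → ℝ} (h : Nrm a m μ) (N : ℕ)
    (hN : N ≤ 2 * d ∨ ∃ l : ℝ, 0 ≤ l ∧
      ((N : ℝ) - 1) * (Real.exp (-(l * a)) * Real.cosh (l * m)) ^ d < 1)
    (G : Finset (F d →L[ℝ] ℝ))
    (hG : ∀ ρ : F d →L[ℝ] ℝ, ρ ∈ G ↔ ∃ w : F d, HasFDerivAt μ ρ w) : N ≤ G.card := by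
  have hcov := cover h G (fun w ρ hw => (hG ρ).2 ⟨w, hw⟩)
  rcases hN with hN | ⟨l, hl, hN⟩
  · refine hN.trans (count_sym G ?_ ?_)
    · intro ρ hρ
      obtain ⟨w, hw⟩ := (hG ρ).1 hρ
      exact (hG _).2 ⟨-w, grad_neg h hw⟩
    · intro x hx
      obtain ⟨ρ, hρ, hle⟩ := hcov x
      have := h.pos hx
      exact ⟨ρ, hρ, by linarith [this] |> fun (h0 : 0 < ρ x) => h0.ne'⟩
  · by_contra hlt
    push Not at hlt
    have h1 : 1 ≤ (G.card : ℝ) * (Real.exp (-(l * a)) * Real.cosh (l * m)) ^ d := by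
      refine count_exp G a m l hl ?_ ?_
      · intro ρ hρ i
        obtain ⟨w, hw⟩ := (hG ρ).1 hρ
        have := abs_le_of_le h (grad_le h hw) (Pi.single i 1)
        rwa [nr_single, mul_one] at this
      · intro s
        obtain ⟨ρ, hρ, hle⟩ := hcov (fun i => if s i then 1 else -1)
        refine ⟨ρ, hρ, le_trans ?_ hle⟩
        have := h.lo (fun i => if s i then 1 else -1)
        rwa [nr_sign] at this
    have h2 : (G.card : ℝ) ≤ (N : ℝ) - 1 := by
      have : (G.card : ℝ) + 1 ≤ N := by exact_mod_cast hlt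
      linarith
    have h3 : (0 : ℝ) ≤ (Real.exp (-(l * a)) * Real.cosh (l * m)) ^ d := by
      have := Real.cosh_pos (l * m)
      positivity
    have := mul_le_mul_of_nonneg_right h2 h3
    linarith

private theorem exists_many {d : ℕ} (hd : 1 ≤ d) {a m : ℝ} {μ : F d → ℝ} (h : Nrm a m μ) (N : ℕ)
    (hN : N ≤ 2 * d ∨ ∃ l : ℝ, 0 ≤ l ∧
      ((N : ℝ) - 1) * (Real.exp (-(l * a)) * Real.cosh (l * m)) ^ d < 1) :
    ∃ ρ : Fin N → F d →L[ℝ] ℝ, Function.Injective ρ ∧ ∀ i, ∃ w, HasFDerivAt μ (ρ i) w := by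
  classical
  by_cases hS : {ρ : F d →L[ℝ] ℝ | ∃ w, HasFDerivAt μ ρ w}.Infinite
  · obtain ⟨t, ht, hc⟩ := hS.exists_subset_card_eq N
    refine ⟨fun i => (t.equivFin.symm (i.cast hc.symm) : t).1, ?_, ?_⟩
    · intro i j hij
      have := t.equivFin.symm.injective (Subtype.ext hij)
      exact Fin.ext (by simpa [Fin.ext_iff] using this)
    · intro i
      exact ht (t.equivFin.symm (i.cast hc.symm)).2
  · rw [Set.not_infinite] at hS
    have hG : ∀ ρ : F d →L[ℝ] ℝ, ρ ∈ hS.toFinset ↔ ∃ w : F d, HasFDerivAt μ ρ w := by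
      intro ρ
      rw [Set.Finite.mem_toFinset]
      exact Iff.rfl
    have hle := card_ge hd h N hN hS.toFinset hG
    obtain ⟨t, ht, hc⟩ := Finset.exists_subset_card_eq hle
    refine ⟨fun i => (t.equivFin.symm (i.cast hc.symm) : t).1, ?_, ?_⟩
    · intro i j hij
      have := t.equivFin.symm.injective (Subtype.ext hij)
      exact Fin.ext (by simpa [Fin.ext_iff] using this)
    · intro i
      exact (hG _).1 (ht (t.equivFin.symm (i.cast hc.symm)).2)

private theorem exists_gap {N : ℕ} (f : Fin N × Fin N → ℝ) (hf : ∀ p, 0 < f p) :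
    ∃ g : ℝ, 0 < g ∧ ∀ p, g ≤ f p := by
  have h1 : ∀ᶠ g in nhdsWithin (0 : ℝ) (Set.Ioi 0), ∀ p, g ≤ f p := by
    rw [Filter.eventually_all]
    intro p
    have : ∀ᶠ g in nhdsWithin (0 : ℝ) (Set.Ioi 0), g ∈ Set.Ioo 0 (f p) :=
      Ioo_mem_nhdsGT (hf p)
    exact this.mono fun g hg => hg.2.le
  have h2 : ∀ᶠ g in nhdsWithin (0 : ℝ) (Set.Ioi 0), 0 < g := self_mem_nhdsWithin
  obtain ⟨g, hg1, hg2⟩ := (h1.and h2).exists
  exact ⟨g, hg2, hg1⟩

theorem exists_dir {d : ℕ} (hd : 1 ≤ d) {a m : ℝ} {μ : F d → ℝ} (h : Nrm a m μ) (N : ℕ)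
    (hN : N ≤ 2 * d ∨ ∃ l : ℝ, 0 ≤ l ∧
      ((N : ℝ) - 1) * (Real.exp (-(l * a)) * Real.cosh (l * m)) ^ d < 1) :
    ∃ (w : Fin N → F d) (ρ : Fin N → F d →L[ℝ] ℝ) (g : ℝ), Dir μ w ρ g := by
  classical
  obtain ⟨ρ, hinj, hρ⟩ := exists_many hd h N hN
  choose w' hw' using hρ
  have hpos : ∀ i, 0 < μ (w' i) := fun i => h.pos (grad_ne h hd (hw' i))
  have hder : ∀ i, HasFDerivAt μ (ρ i) ((μ (w' i))⁻¹ • w' i) := fun i =>
    grad_smul h (hw' i) (inv_pos.2 (hpos i))
  have hone : ∀ i, μ ((μ (w' i))⁻¹ • w' i) = 1 := by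
    intro i
    rw [h.smul _ (inv_pos.2 (hpos i)).le, inv_mul_cancel₀ (hpos i).ne']
  have hlt : ∀ i j, i ≠ j → ρ i ((μ (w' j))⁻¹ • w' j) < 1 := by
    intro i j hij
    have hle : ρ i ((μ (w' j))⁻¹ • w' j) ≤ μ ((μ (w' j))⁻¹ • w' j) := grad_le h (hw' i) _
    rw [hone] at hle
    refine lt_of_le_of_ne hle fun he => hij ?_
    refine hinj (grad_unique (hder j) (fun x => grad_le h (hw' i) x) ?_)
    rw [he, hone]
  obtain ⟨g, hg0, hg⟩ := exists_gap
    (fun p : Fin N × Fin N => if p.1 = p.2 then 1 else 1 - ρ p.1 ((μ (w' p.2))⁻¹ • w' p.2)) (by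
      intro p
      by_cases hp : p.1 = p.2
      · simp [hp]
      · have := hlt p.1 p.2 hp
        simp only [if_neg hp]
        linarith)
  refine ⟨fun i => (μ (w' i))⁻¹ • w' i, ρ, g, hone, hder, fun i x => grad_le h (hw' i) x, ?_, hg0,
    ?_⟩
  · intro i
    rw [grad_eq h (hder i), hone]
  · intro i j hij
    have := hg (i, j)
    simp only [if_neg hij] at this
    linarith

end Pool.Agent.Helper79.GQ
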