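import Pool.Agent.Helper79.GQ.FA
import Pool.Agent.Helper79.GQ.FD
import Pool.Agent.Helper79.GQ.LG
import Pool.Agent.Helper79.GQ.LH
import Pool.Agent.Helper79.GQ.AD
import Pool.Agent.Helper79.GQ.BL

/-!
# GQ-FE: the final theorem in the form of the frozen statement

`b'` from `exists_top`; weights `X e ω = max a (min b' (t e ω))`, almost surely equal to `t e ω` for
all edges, with law `μ` (compare `GR/FC.lean`).  `nrm_tc`, `exists_dir`, `theorem_disjoint`,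
`theorem_rays`, `ray_path`, `rays_to_paths`.
-/

set_option autoImplicit false

namespace Pool.Agent.Helper79.GQ

open MeasureTheory ProbabilityTheory Pool.Agent.Helper79.GR

theorem final : ∀ (d : ℕ), 2 ≤ d → ∀ (μ : Measure ℝ), IsProbabilityMeasure μ →
  ∀ (a b m : ℝ), 0 < a → μ (Set.Icc a b)ᶜ = 0 → (∀ x, μ {x} ≠ 1) → ∫ x, x ∂μ = m →
  ∀ (N : ℕ), (N ≤ 2 * d ∨ (N : ℝ) ≤ Real.exp (a ^ 2 * d / (2 * m ^ 2)) ∨
    ∃ l : ℝ, 0 ≤ l ∧ ((N : ℝ) - 1) * (Real.exp (-(l * a)) * Real.cosh (l * m)) ^ d < 1) →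
  ∀ (Ω : Type) (mΩ : MeasurableSpace Ω) (P : Measure Ω), IsProbabilityMeasure P →
  ∀ (t : Sym2 (Fin d → ℤ) → Ω → ℝ),
    (∀ e, Measurable (t e)) →
    iIndepFun
      (fun e : {e : Sym2 (Fin d → ℤ) //
          ∃ x y : Fin d → ℤ, e = s(x, y) ∧ ∑ i, |x i - y i| = 1} => t e.1)
      P →
    (∀ x y : Fin d → ℤ, ∑ i, |x i - y i| = 1 →
      Measure.map (t s(x, y)) P = μ) →
    (∃ A : Set Ω, MeasurableSet A ∧ 0 < P A ∧ ∀ ω ∈ A,
      (N : ℕ∞) ≤ Set.encard {γ : ℕ → (Fin d → ℤ) |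
        γ 0 = 0 ∧ Function.Injective γ ∧
        (∀ k, ∑ i, |γ k i - γ (k + 1) i| = 1) ∧
        ∀ m n : ℕ, m ≤ n →
          ∀ (L : ℕ) (q : ℕ → (Fin d → ℤ)), q 0 = γ m → q L = γ n →
            (∀ k < L, ∑ i, |q k i - q (k + 1) i| = 1) →
            ∑ k ∈ Finset.range (n - m), t s(γ (m + k), γ (m + k + 1)) ω ≤
              ∑ k ∈ Finset.range L, t s(q k, q (k + 1)) ω}) ∧
    ∀ᵐ ω ∂P, ∃ γ : Fin N → ℕ → (Fin d → ℤ),
      (∀ i j, i ≠ j → ∀ k l, γ i k ≠ γ j l) ∧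
      ∀ j, Function.Injective (γ j) ∧
        (∀ k, ∑ i, |γ j k i - γ j (k + 1) i| = 1) ∧
        ∀ m n : ℕ, m ≤ n →
          ∀ (L : ℕ) (q : ℕ → (Fin d → ℤ)), q 0 = γ j m → q L = γ j n →
            (∀ k < L, ∑ i, |q k i - q (k + 1) i| = 1) →
            ∑ k ∈ Finset.range (n - m), t s(γ j (m + k), γ j (m + k + 1)) ω ≤
              ∑ k ∈ Finset.range L, t s(q k, q (k + 1)) ω := by
  intro d hd μ hμ a b m ha hsupp hpt hmean N hN Ω mΩ P hP t htm hti htl
  obtain ⟨b', hb's, hb't, hb'm⟩ := exists_top μ a b hsupp hpt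
  have hae : ∀ᵐ x ∂μ, x ∈ Set.Icc a b' := by
    rw [ae_iff]
    exact hb's
  have hab' : a ≤ b' := by
    obtain ⟨x, hx⟩ := hae.exists
    exact hx.1.trans hx.2
  have hint : Integrable (fun x : ℝ => x) μ := Integrable.of_mem_Icc a b' (by fun_prop) hae
  have hm : 0 < m := by
    have h1 : ∫ _x, a ∂μ ≤ ∫ x, x ∂μ := by
      refine integral_mono_ae (integrable_const _) hint ?_
      filter_upwards [hae] with x hx
      exact hx.1
    rw [hmean] at h1
    simp at h1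
    linarith
  obtain ⟨g, hg⟩ : ∃ g : ℝ → ℝ, g = fun x => max a (min b' x) := ⟨_, rfl⟩
  have hgm : Measurable g := by
    rw [hg]
    fun_prop
  have hgbd : ∀ x, a ≤ g x ∧ g x ≤ b' := by
    intro x
    rw [hg]
    exact ⟨le_max_left _ _, max_le hab' (min_le_left _ _)⟩
  have hgae : ∀ᵐ x ∂μ, g x = x := by
    filter_upwards [hae] with x hx
    rw [hg]
    show max a (min b' x) = x
    rw [min_eq_right hx.2, max_eq_right hx.1]
  have hgmap : μ.map g = μ := by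
    rw [Measure.map_congr (g := id) hgae, Measure.map_id]
  have hlaw : ∀ e : Edge d, P.map (t e.1) = μ := by
    rintro ⟨e, x, y, rfl, hxy⟩
    exact htl x y hxy
  have henv : Env P (fun (e : Edge d) ω => g (t e.1 ω)) μ a b' := by
    refine ⟨hP, fun e => hgm.comp (htm e.1), ?_, ?_, ha, fun e ω => hgbd _⟩
    · exact hti.comp (fun _ => g) (fun _ => hgm)
    · intro e
      have h1 : P.map (fun ω => g (t e.1 ω)) = (P.map (t e.1)).map g := by
        rw [Measure.map_map hgm (htm e.1)]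
        rfl
      rw [h1, hlaw e, hgmap]
  have hnrm := nrm_tc henv
  rw [hmean] at hnrm
  have hN' : N ≤ 2 * d ∨ ∃ l : ℝ, 0 ≤ l ∧
      ((N : ℝ) - 1) * (Real.exp (-(l * a)) * Real.cosh (l * m)) ^ d < 1 := by
    rcases hN with h | h | h
    · exact Or.inl h
    · exact Or.inr (exists_l d N a m ha hm h)
    · exact Or.inr h
  obtain ⟨w, ρ, γ₀, hD⟩ := exists_dir (by omega) hnrm N hN'
  have hedge1 : ∀ e : Edge d, ∀ᵐ ω ∂P, g (t e.1 ω) = t e.1 ω := by
    intro e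
    have h1 : ∀ᵐ x ∂(P.map (t e.1)), g x = x := by
      rw [hlaw e]
      exact hgae
    exact ae_of_ae_map (htm e.1).aemeasurable h1
  have hedge : ∀ᵐ ω ∂P, ∀ e : Edge d, g (t e.1 ω) = t e.1 ω := by
    rw [ae_all_iff]
    exact hedge1
  refine ⟨?_, ?_⟩
  · obtain ⟨A, hA, hPA, hrays⟩ := theorem_rays henv (by omega) hb't hb'm hD
    have hBm : MeasurableSet {ω | ∀ e : Edge d, g (t e.1 ω) = t e.1 ω} := by
      have h1 : {ω | ∀ e : Edge d, g (t e.1 ω) = t e.1 ω} =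
          ⋂ e : Edge d, {ω | g (t e.1 ω) = t e.1 ω} := by
        ext ω
        simp
      rw [h1]
      exact MeasurableSet.iInter fun e => measurableSet_eq_fun (hgm.comp (htm e.1)) (htm e.1)
    refine ⟨A ∩ {ω | ∀ e : Edge d, g (t e.1 ω) = t e.1 ω}, hA.inter hBm, ?_, ?_⟩
    · have h1 : P (A ∩ {ω | ∀ e : Edge d, g (t e.1 ω) = t e.1 ω}) = P A := by
        refine measure_congr ?_
        filter_upwards [hedge] with ω hω
        refine propext ⟨fun h => h.1, fun h => ⟨h, hω⟩⟩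
      rw [h1]
      exact hPA
    · rintro ω ⟨hωA, hω2⟩
      obtain ⟨s, hs, hr⟩ := hrays ω hωA
      exact rays_to_paths (henv.cf_bd ω) (fun e => t e ω) (fun e => (hω2 e).symm) N s hs hr
  · filter_upwards [theorem_disjoint henv hD, hedge] with ω hω hω2
    obtain ⟨x, s, hs1, hs2⟩ := hω
    exact ⟨fun i k => pos (x i) (pre (s i) k), hs2, fun j =>
      ray_path (henv.cf_bd ω) (fun e => t e ω) (fun e => (hω2 e).symm) (x j) (s j) (hs1 j) _
        (fun k => rfl)⟩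

end Pool.Agent.Helper79.GQ
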