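import Pool.Agent.Helper79.GQ.LA

/-!
# GQ-IA: the uniform law of large numbers from every point

The event for `x` is the event for `0` for the shifted weights (`T_shift`,
`T (cf X ω) (0 + x) (v + x) = T (fun e => X (sh x e) ω) 0 v`), the shifted weights have the same
law (`map_shift`), and the event is measurable (countable union over `v`, `measurable_T_cfg`), so
both have the same probability; `lln_unif`.
-/

set_option autoImplicit false

namespace Pool.Agent.Helper79.GQ

open MeasureTheory ProbabilityTheory Pool.Agent.Helper79.GR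

variable {Ω : Type*} [MeasurableSpace Ω] {d : ℕ} {P : Measure Ω} {X : Edge d → Ω → ℝ}
  {ν : Measure ℝ} {a b : ℝ}

theorem lln_unif_at (h : Env P X ν a b) (R δ p : ℝ) (hR : 0 < R) (hδ : 0 < δ) (hp : 0 < p) :
    ∃ r₀ : ℕ, ∀ r ≥ r₀, ∀ x : V d, P.real {ω | ∃ v : V d, n1 v ≤ R * r ∧
      δ * r < |T (cf X ω) x (x + v) - tc (mm P X) (rv v)|} ≤ p := by
  obtain ⟨r₀, hr₀⟩ := lln_unif h R δ p hR hδ hp
  refine ⟨r₀, fun r hr x => ?_⟩
  refine le_trans (le_of_eq ?_) (hr₀ r hr)
  let S : Set (Edge d → ℝ) := {c | ∃ v : V d, n1 v ≤ R * r ∧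
    δ * r < |T c 0 v - tc (mm P X) (rv v)|}
  have hS : MeasurableSet S := by
    have hS' : S = ⋃ v : V d, {c | n1 v ≤ R * r ∧ δ * r < |T c 0 v - tc (mm P X) (rv v)|} := by
      ext c
      simp [S]
    rw [hS']
    refine MeasurableSet.iUnion fun v => ?_
    by_cases hv : n1 v ≤ R * r
    · simp only [hv, true_and]
      exact measurableSet_lt measurable_const
        (continuous_abs.measurable.comp ((measurable_T_cfg 0 v).sub_const _))
    · simp [hv]
  have h1 : {ω | ∃ v : V d, n1 v ≤ R * r ∧
      δ * r < |T (cf X ω) x (x + v) - tc (mm P X) (rv v)|} =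
      (fun ω e => X (sh x e) ω) ⁻¹' S := by
    ext ω
    have hT : ∀ v : V d, T (fun e => X (sh x e) ω) 0 v = T (cf X ω) x (x + v) := by
      intro v
      have := T_shift (cf X ω) x 0 v
      rw [zero_add, add_comm v x] at this
      exact this
    simp only [Set.mem_setOf_eq, Set.mem_preimage, S, hT]
  have h2 : {ω | ∃ v : V d, n1 v ≤ R * r ∧
      δ * r < |T (cf X ω) 0 v - tc (mm P X) (rv v)|} = (fun ω e => X e ω) ⁻¹' S := rfl
  rw [h1, h2, measureReal_def, measureReal_def,
    ← Measure.map_apply (measurable_pi_iff.2 fun e => h.meas (sh x e)) hS,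
    ← Measure.map_apply (measurable_pi_iff.2 h.meas) hS, map_shift h x]

end Pool.Agent.Helper79.GQ
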