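import Pool.Agent.Helper79.GQ.LA
import Pool.Agent.Helper79.GR.NC
import Pool.Agent.Helper79.GR.RC

/-!
# GQ-IB: the mean passage time is close to the time constant

`mm (fl R w) / R → tc w` (`tendsto_tc`, `subM_mm`) and `tc (rv (fl R w)) / R → tc w` (`tc_lip`,
`nr_fl`, `tc_smul`: the difference of `tc (rv (fl R w))` and `R tc w = tc (R • w)` is at most
`|b| d`), so the left side divided by `R` tends to `0`.
-/

set_option autoImplicit false

namespace Pool.Agent.Helper79.GQ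

open MeasureTheory ProbabilityTheory Filter Topology Pool.Agent.Helper79.GR

variable {Ω : Type*} [MeasurableSpace Ω] {d : ℕ} {P : Measure Ω} {X : Edge d → Ω → ℝ}
  {ν : Measure ℝ} {a b : ℝ}

theorem excess_small (h : Env P X ν a b) (w : F d) (K : ℕ) (δ : ℝ) (hδ : 0 < δ) :
    ∃ R₀ : ℕ, ∀ R ≥ R₀,
      (K : ℝ) * (mm P X (fl R w) - tc (mm P X) (rv (fl R w)) + 1) < δ * R := by
  have hS := subM_mm h
  have h1 : Tendsto (fun n : ℕ => (K : ℝ) * (mm P X (fl n w) / n - tc (mm P X) w +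
      (|b| * d + 1) / n)) atTop (𝓝 ((K : ℝ) * (tc (mm P X) w - tc (mm P X) w + 0))) :=
    (((tendsto_tc hS w).sub_const _).add
      (tendsto_const_div_atTop_nhds_zero_nat (|b| * d + 1))).const_mul _
  rw [sub_self, add_zero, mul_zero] at h1
  obtain ⟨R₀, hR₀⟩ := eventually_atTop.1 ((h1.eventually_lt_const hδ).and
    (eventually_gt_atTop 0))
  refine ⟨R₀, fun R hR => ?_⟩
  obtain ⟨h2, h3⟩ := hR₀ R hR
  have h3' : (0 : ℝ) < R := by exact_mod_cast h3
  have h4 : (R : ℝ) * tc (mm P X) w - |b| * d ≤ tc (mm P X) (rv (fl R w)) := by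
    have h5 := tc_lip hS (rv (fl R w)) ((R : ℝ) • w)
    rw [tc_smul hS _ h3'.le] at h5
    have h6 : b * nr (rv (fl R w) - (R : ℝ) • w) ≤ |b| * d :=
      (mul_le_mul_of_nonneg_right (le_abs_self b) (nr_nonneg _)).trans
        (mul_le_mul_of_nonneg_left (nr_fl R w) (abs_nonneg b))
    linarith [(abs_le.1 (h5.trans h6)).1]
  have h7 : (K : ℝ) * (mm P X (fl R w) - tc (mm P X) (rv (fl R w)) + 1) ≤
      (K : ℝ) * (mm P X (fl R w) - R * tc (mm P X) w + (|b| * d + 1)) :=
    mul_le_mul_of_nonneg_left (by linarith) (Nat.cast_nonneg K)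
  refine h7.trans_lt ?_
  have h8 : (K : ℝ) * (mm P X (fl R w) - R * tc (mm P X) w + (|b| * d + 1)) =
      (K : ℝ) * (mm P X (fl R w) / R - tc (mm P X) w + (|b| * d + 1) / R) * R := by
    field_simp
  rw [h8]
  exact mul_lt_mul_of_pos_right h2 h3'

end Pool.Agent.Helper79.GQ
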