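import Pool.Agent.Helper79.GQ.LB

/-!
# GQ-IC: differentiability at scale `r`

`HasFDerivAt` gives `κ > 0` with `μ (w + h) - μ w - ρ h ≤ δ / (2 C) ‖h‖` for `‖h‖ ≤ κ`
(`HasFDerivAt.isLittleO`, `Asymptotics.isLittleO_iff`).  Take `M ≥ 1` with `C / M ≤ κ`.  For
`n = M r`, `r ≥ 1`, `h = y / n`: `‖h‖ ≤ nr y / n ≤ C / M ≤ κ`, so
`μ (n • w + y) - μ (n • w) = n (μ (w + h) - μ w) ≤ ρ y + δ / (2 C) nr y ≤ ρ y + δ r / 2`, and
replacing `n • w` by `rv (fl n w)` costs at most `2 m d` (`nr_fl`, `Nrm.lip'`), `≤ δ r / 2` for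
`r ≥ r₀`.
-/

set_option autoImplicit false

namespace Pool.Agent.Helper79.GQ

open MeasureTheory ProbabilityTheory Pool.Agent.Helper79.GR

theorem diff_upper {d : ℕ} {a m : ℝ} {μ : F d → ℝ} (h : Nrm a m μ) {w : F d}
    {ρ : F d →L[ℝ] ℝ} (hw : HasFDerivAt μ ρ w) (C δ : ℝ) (hC : 0 < C) (hδ : 0 < δ) :
    ∃ M : ℕ, 1 ≤ M ∧ ∃ r₀ : ℕ, ∀ r : ℕ, r₀ ≤ r → ∀ y : F d, nr y ≤ C * r →
      μ (rv (fl (M * r) w) + y) - μ (rv (fl (M * r) w)) ≤ ρ y + δ * r := by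
  have hε : 0 < δ / (2 * C) := by positivity
  have h1 := hasFDerivAt_iff_isLittleO_nhds_zero.1 hw
  have h2 := (Asymptotics.isLittleO_iff.1 h1) hε
  obtain ⟨κ, hκ, hκ2⟩ := Metric.eventually_nhds_iff.1 h2
  obtain ⟨M, hM⟩ := exists_nat_gt (C / κ)
  have hM0 : (0 : ℝ) < M := lt_trans (div_pos hC hκ) hM
  have hM1 : 1 ≤ M := by exact_mod_cast hM0
  obtain ⟨r₁, hr₁⟩ := exists_nat_gt (4 * |m| * d / δ)
  refine ⟨M, hM1, r₁ + 1, fun r hr y hy => ?_⟩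
  have hrr : (r₁ : ℝ) + 1 ≤ r := by exact_mod_cast hr
  have hr0 : (0 : ℝ) < r := by
    have : (0 : ℝ) ≤ r₁ := Nat.cast_nonneg _
    linarith
  have hr2 : 4 * |m| * d ≤ δ * r := by
    have h3 : 4 * |m| * d / δ < r := by linarith
    rw [div_lt_iff₀ hδ] at h3
    linarith
  set n : ℝ := ((M * r : ℕ) : ℝ) with hn
  have hn' : n = M * r := by rw [hn]; push_cast; ring
  have hn0 : 0 < n := by rw [hn']; positivity
  have hnr : nr (n⁻¹ • y) = n⁻¹ * nr y := by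
    rw [nr_smul, abs_of_pos (inv_pos.2 hn0)]
  have hnorm : ‖n⁻¹ • y‖ ≤ n⁻¹ * nr y := hnr ▸ norm_le_nr _
  have hsmall : ‖n⁻¹ • y‖ < κ := by
    have h3 : n⁻¹ * nr y ≤ n⁻¹ * (C * r) :=
      mul_le_mul_of_nonneg_left hy (inv_nonneg.2 hn0.le)
    have h4 : n⁻¹ * (C * r) < κ := by
      rw [inv_mul_lt_iff₀ hn0, hn']
      rw [div_lt_iff₀ hκ] at hM
      have : C * r < M * κ * r := mul_lt_mul_of_pos_right hM hr0
      linarith
    linarith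
  have h5 := hκ2 (y := n⁻¹ • y) (by rwa [dist_zero_right])
  have h6 := (abs_le.1 (by rwa [Real.norm_eq_abs] at h5)).2
  have h7 : μ (n • w + y) = n * μ (w + n⁻¹ • y) := by
    rw [← h.smul n hn0.le, smul_add, smul_smul, mul_inv_cancel₀ hn0.ne', one_smul]
  have h8 : μ (n • w) = n * μ w := h.smul n hn0.le w
  have h9 : ρ y = n * ρ (n⁻¹ • y) := by
    rw [map_smul, smul_eq_mul, ← mul_assoc, mul_inv_cancel₀ hn0.ne', one_mul]
  have h10 : n * (μ (w + n⁻¹ • y) - μ w - ρ (n⁻¹ • y)) ≤ n * (δ / (2 * C) * ‖n⁻¹ • y‖) :=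
    mul_le_mul_of_nonneg_left h6 hn0.le
  have h11 : n * (δ / (2 * C) * ‖n⁻¹ • y‖) ≤ δ * r / 2 := by
    have h12 : n * ‖n⁻¹ • y‖ ≤ nr y := by
      have h13 := mul_le_mul_of_nonneg_left hnorm hn0.le
      rwa [← mul_assoc, mul_inv_cancel₀ hn0.ne', one_mul] at h13
    calc n * (δ / (2 * C) * ‖n⁻¹ • y‖) = δ / (2 * C) * (n * ‖n⁻¹ • y‖) := by ring
      _ ≤ δ / (2 * C) * (C * r) := mul_le_mul_of_nonneg_left (h12.trans hy) hε.le
      _ = δ * r / 2 := by field_simp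
  have h12 : μ (n • w + y) - μ (n • w) ≤ ρ y + δ * r / 2 := by
    rw [h7, h8, h9]
    linarith
  have hfl : nr (rv (fl (M * r) w) - n • w) ≤ d := nr_fl (M * r) w
  have hml : m * nr (rv (fl (M * r) w) - n • w) ≤ |m| * d := by
    refine (mul_le_mul_of_nonneg_right (le_abs_self m) (nr_nonneg _)).trans ?_
    exact mul_le_mul_of_nonneg_left hfl (abs_nonneg m)
  have h14 := h.lip' (rv (fl (M * r) w) + y) (n • w + y)
  rw [add_sub_add_right_eq_sub] at h14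
  have h15 := h.lip' (n • w) (rv (fl (M * r) w))
  rw [nr_sub_comm] at h15
  linarith

end Pool.Agent.Helper79.GQ
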