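import Pool.Agent.Helper79.GQ.IA
import Pool.Agent.Helper79.GQ.IB
import Pool.Agent.Helper79.GQ.IC
import Pool.Agent.Helper79.GQ.ID
import Pool.Agent.Helper79.GQ.LC
import Pool.Agent.Helper79.GQ.LH
import Pool.Agent.Helper79.GR.RK

/-!
# GQ-IE: the increments in probability

`w ≠ 0`, so `d ≥ 1` and `b ≥ 0` (`Bd.hi_nonneg`).  Choose `κ ≤ 1`, `δ₁` with
`4 δ₁ + 2 (b + m) κ ≤ δ`; `C' : ℕ` with `1 ≤ C'`, `C ≤ C'`; `M, r₁` from `diff_upper` with
`2 (C' + κ)` and `δ₁`; the net of `exists_net` with `κ / C'` at the radius `C' r`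
(`A = X (C' * r)`, card at most `K`); `R = M nr w + d + 2 (C' + κ)`
(`n1 (fl (M r) w) ≤ M r nr w + d`).  For `r ≥ r₀` put `v = fl (M * r) w` (`≠ 0` for large `r`, as
`n1 v ≥ M r nr w - d`).  Events:
(1) `lln_unif_at` with `R`, `δ₁`, `p / (2 (K + 1))` for every `x ∈ A`: total probability `≤ p / 2`;
(2) `good_targets` with `w := v`, `r := 1` and `δ := p' δ₁ r`, `p' = p / (2 (K + 1))`
(`excess_small` with `K` and `p' δ₁ / M` at `R := M * r`; note `card A ≤ K` and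
`mm v - tc v + 1 ≥ 0` by `mul_tc_le`) gives infinitely many `k`, and `markov_targets` with
`δ' = δ₁ r` for the target `z = (k + 1) • (1 • v)`: probability `≤ card A p' ≤ p / 2`.
Off these events `incr_det` (with `C := C'`) gives `H2`.  Compare the proof of `main_event` in
`GR/RL.lean`.
-/

set_option autoImplicit false

namespace Pool.Agent.Helper79.GQ

open MeasureTheory ProbabilityTheory Pool.Agent.Helper79.GR

variable {Ω : Type*} [MeasurableSpace Ω] {d : ℕ} {P : Measure Ω} {X : Edge d → Ω → ℝ}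
  {ν : Measure ℝ} {a b : ℝ}

/-- the integer part of a large multiple of a vector which is not zero -/
private theorem IE_fl_ne {d : ℕ} {w : F d} (hw : w ≠ 0) :
    ∃ r₀ : ℕ, ∀ n ≥ r₀, fl n w ≠ 0 := by
  obtain ⟨i, hi⟩ : ∃ i, w i ≠ 0 := by
    by_contra hn
    push Not at hn
    exact hw (funext hn)
  obtain ⟨r₀, hr₀⟩ := exists_nat_ge (1 / |w i|)
  have hpos : 0 < |w i| := abs_pos.2 hi
  have h1 : 1 ≤ (r₀ : ℝ) * |w i| := (div_le_iff₀ hpos).1 hr₀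
  refine ⟨r₀, fun n hn h0 => ?_⟩
  have hn' : (r₀ : ℝ) ≤ n := by exact_mod_cast hn
  have h2 : 1 ≤ (n : ℝ) * |w i| := h1.trans (mul_le_mul_of_nonneg_right hn' hpos.le)
  have h3 : ⌊(n : ℝ) * w i⌋ = 0 := congrFun h0 i
  rw [Int.floor_eq_zero_iff, Set.mem_Ico] at h3
  rcases lt_or_gt_of_ne hi with hlt | hgt
  · rw [abs_of_neg hlt] at h2
    linarith [h3.1]
  · rw [abs_of_pos hgt] at h2
    linarith [h3.2]

/-- the union over a finite set -/
private theorem IE_union [IsProbabilityMeasure P] (A : Finset (V d)) (E : V d → Set Ω) (p' : ℝ)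
    (hE : ∀ x, P.real (E x) ≤ p') : P.real {ω | ∃ x ∈ A, ω ∈ E x} ≤ A.card * p' := by
  have e1 : {ω | ∃ x ∈ A, ω ∈ E x} = ⋃ x ∈ A, E x := by
    ext ω
    simp
  rw [e1]
  refine (measureReal_biUnion_finset_le _ _).trans ?_
  have e2 : (A.card : ℝ) * p' = ∑ _x ∈ A, p' := by rw [Finset.sum_const, nsmul_eq_mul]
  rw [e2]
  exact Finset.sum_le_sum fun x _ => hE x

theorem increments (h : Env P X ν a b) {w : F d} {ρ : F d →L[ℝ] ℝ}
    (hw : HasFDerivAt (tc (mm P X)) ρ w) (hw0 : w ≠ 0) (C δ p : ℝ) (hC : 0 < C) (hδ : 0 < δ)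
    (hp : 0 < p) : ∃ r₀ : ℕ, ∀ r : ℕ, r₀ ≤ r → ∃ v : V d, v ≠ 0 ∧ ∀ k₀ : ℕ, ∃ k > k₀,
      P.real {ω | ¬ H2 (cf X ω) ρ C δ r (k • v)} ≤ p := by
  have := h.prob
  have hN : Nrm a (∫ x, x ∂ν) (tc (mm P X)) := nrm_tc h
  have hρ : ∀ x, ρ x ≤ tc (mm P X) x := grad_le hN hw
  obtain ⟨i, -⟩ : ∃ i, w i ≠ 0 := by
    by_contra hn
    push Not at hn
    exact hw0 (funext hn)
  have hd : 1 ≤ d := by
    have := i.2
    omega
  obtain ⟨ω₀⟩ : Nonempty Ω := P.nonempty_of_neZero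
  have hb : 0 ≤ b := (h.cf_bd ω₀).hi_nonneg i
  obtain ⟨m, hm⟩ : ∃ m : ℝ, m = ∫ x, x ∂ν := ⟨_, rfl⟩
  rw [← hm] at hN
  have hm0 : 0 ≤ m := hN.apos.le.trans (hN.a_le_m hd)
  -- the constants
  obtain ⟨κ, hκ, hκb⟩ : ∃ κ : ℝ, 0 < κ ∧ 2 * (b + m) * κ ≤ δ / 2 := by
    refine ⟨δ / (4 * (b + m + 1)), by positivity, ?_⟩
    have h4 : 0 < b + m + 1 := by positivity
    calc 2 * (b + m) * (δ / (4 * (b + m + 1)))
        ≤ 2 * (b + m + 1) * (δ / (4 * (b + m + 1))) :=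
          mul_le_mul_of_nonneg_right (by linarith) (by positivity)
      _ = δ / 2 := by field_simp; norm_num
  obtain ⟨δ₁, hδ₁, hδδ⟩ : ∃ δ₁ : ℝ, 0 < δ₁ ∧ 4 * δ₁ ≤ δ / 2 := ⟨δ / 8, by positivity, by linarith⟩
  obtain ⟨C', hC'1, hCC'⟩ : ∃ C' : ℕ, 1 ≤ C' ∧ C ≤ C' := by
    obtain ⟨C₀, hC₀⟩ := exists_nat_ge C
    exact ⟨C₀ + 1, by omega, hC₀.trans (by push_cast; linarith)⟩
  have hC'0 : (0 : ℝ) < C' := by exact_mod_cast hC'1
  obtain ⟨M, hM1, r₁, hr₁⟩ := diff_upper hN hw (2 * (C' + κ)) δ₁ (by positivity) hδ₁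
  have hM0 : (0 : ℝ) < M := by exact_mod_cast hM1
  obtain ⟨K, N, hK, r₂, hr₂⟩ := exists_net d (κ / C') (by positivity)
  obtain ⟨R, hRdef⟩ : ∃ R : ℝ, R = M * nr w + d + 2 * (C' + κ) := ⟨_, rfl⟩
  have hR0 : 0 < R := by
    have := nr_nonneg w
    rw [hRdef]
    positivity
  have hK1 : (0 : ℝ) < K + 1 := by positivity
  obtain ⟨p', hp', hKp⟩ : ∃ p' : ℝ, 0 < p' ∧ K * p' ≤ p / 2 := by
    refine ⟨p / (2 * (K + 1)), by positivity, ?_⟩
    rw [mul_div_assoc', div_le_div_iff₀ (by positivity) (by positivity)]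
    nlinarith
  obtain ⟨r₃, hr₃⟩ := lln_unif_at h R δ₁ p' hR0 hδ₁ hp'
  obtain ⟨r₄, hr₄⟩ := excess_small h w K (p' * δ₁ / M) (by positivity)
  obtain ⟨r₅, hr₅⟩ := IE_fl_ne hw0
  refine ⟨max (max r₁ r₂) (max (max r₃ r₄) (max r₅ 1)), fun r hr => ?_⟩
  have hrr₁ : r₁ ≤ r := (le_max_left _ _).trans ((le_max_left _ _).trans hr)
  have hrr₂ : r₂ ≤ r := (le_max_right _ _).trans ((le_max_left _ _).trans hr)
  have hrr₃ : r₃ ≤ r :=
    (le_max_left _ _).trans ((le_max_left _ _).trans ((le_max_right _ _).trans hr))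
  have hrr₄ : r₄ ≤ r :=
    (le_max_right _ _).trans ((le_max_left _ _).trans ((le_max_right _ _).trans hr))
  have hrr₅ : r₅ ≤ r :=
    (le_max_left _ _).trans ((le_max_right _ _).trans ((le_max_right _ _).trans hr))
  have hr1 : 1 ≤ r :=
    (le_max_right _ _).trans ((le_max_right _ _).trans ((le_max_right _ _).trans hr))
  have hr0 : (0 : ℝ) < r := by exact_mod_cast hr1
  have hr1' : (1 : ℝ) ≤ r := by exact_mod_cast hr1
  have hMr : r ≤ M * r := Nat.le_mul_of_pos_left r hM1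
  have hCr : r ≤ C' * r := Nat.le_mul_of_pos_left r hC'1
  refine ⟨fl (M * r) w, hr₅ (M * r) (hrr₅.trans hMr), fun k₀ => ?_⟩
  obtain ⟨v, hv⟩ : ∃ v : V d, v = fl (M * r) w := ⟨_, rfl⟩
  rw [← hv]
  obtain ⟨A, hA⟩ : ∃ A : Finset (V d), A = N (C' * r) := ⟨_, rfl⟩
  have hcard : (A.card : ℝ) ≤ K := by
    rw [hA]
    exact_mod_cast hK (C' * r)
  have hnn : 0 ≤ mm P X (1 • v) - (1 : ℕ) * tc (mm P X) (rv v) + 1 := by
    have := mul_tc_le (subM_mm h) v 1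
    linarith
  have hex := hr₄ (M * r) (hrr₄.trans hMr)
  rw [← hv] at hex
  have hex' : (K : ℝ) * (mm P X (1 • v) - (1 : ℕ) * tc (mm P X) (rv v) + 1) < p' * δ₁ * r := by
    have e1 : p' * δ₁ / M * ((M * r : ℕ) : ℝ) = p' * δ₁ * r := by
      push_cast
      field_simp
    rw [e1] at hex
    rw [one_smul, Nat.cast_one, one_mul]
    exact hex
  obtain ⟨k, hk, hgood⟩ := good_targets (subM_mm h) v A 1 (p' * δ₁ * r)
    ((mul_le_mul_of_nonneg_right hcard hnn).trans_lt hex') k₀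
  refine ⟨k + 1, by omega, ?_⟩
  have E1 := markov_targets h v 1 k A (p' * δ₁ * r) (δ₁ * r) (mul_pos hδ₁ hr0) hgood
  rw [one_smul] at E1
  have E2 := IE_union (P := P) A (fun x => {ω | ∃ u : V d, n1 u ≤ R * r ∧
    δ₁ * r < |T (cf X ω) x (x + u) - tc (mm P X) (rv u)|}) p' (hr₃ r hrr₃)
  have hsub : {ω | ¬ H2 (cf X ω) ρ C δ r ((k + 1) • v)} ⊆
      {ω | ∃ x ∈ A, T (cf X ω) x ((k + 1) • v) <
        T (cf X ω) x (x + v) + T (cf X ω) (x + v) ((k + 1) • v) - δ₁ * r} ∪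
      {ω | ∃ x ∈ A, ω ∈ {ω | ∃ u : V d, n1 u ≤ R * r ∧
        δ₁ * r < |T (cf X ω) x (x + u) - tc (mm P X) (rv u)|}} := by
    intro ω hω
    by_contra hn
    simp only [Set.mem_union, Set.mem_setOf_eq, not_or, not_exists, not_and, not_lt] at hn
    obtain ⟨hn1, hn2⟩ := hn
    apply hω
    have hnet : ∀ q : V d, n1 q ≤ C' * (r : ℝ) → ∃ x ∈ A, n1 (x - q) ≤ κ * r := by
      intro q hq
      obtain ⟨x, hx, hxq⟩ := hr₂ (C' * r) (hrr₂.trans hCr) q (by push_cast; exact hq)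
      refine ⟨x, by rw [hA]; exact hx, hxq.trans (le_of_eq ?_)⟩
      push_cast
      field_simp
    have hvR : n1 v + 2 * (C' + κ) * (r : ℝ) ≤ R * r := by
      have h1 := n1_fl_le (M * r) w
      rw [← hv] at h1
      push_cast at h1
      have h2 : (d : ℝ) ≤ d * r := le_mul_of_one_le_right (Nat.cast_nonneg d) hr1'
      rw [hRdef]
      nlinarith
    have h3 : ∀ y : F d, nr y ≤ 2 * (C' + κ) * (r : ℝ) →
        tc (mm P X) (rv v + y) - tc (mm P X) (rv v) ≤ ρ y + δ₁ * r := by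
      intro y hy
      rw [hv]
      exact hr₁ r hrr₁ y hy
    have key := incr_det (h.cf_bd ω) hN hρ A v ((k + 1) • v) r C' κ δ₁ R hb hm0 hnet
      hn1 hn2 hvR h3
    intro x y hx hy
    have hCC : C * (r : ℝ) ≤ C' * r := mul_le_mul_of_nonneg_right hCC' hr0.le
    have h5 := key x y (hx.trans hCC) (hy.trans hCC)
    have h6 : (4 * δ₁ + 2 * (b + m) * κ) * r ≤ δ * r :=
      mul_le_mul_of_nonneg_right (by linarith) hr0.le
    linarith
  refine (measureReal_mono hsub).trans ?_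
  refine (measureReal_union_le _ _).trans ?_
  have h9 : (A.card : ℝ) * (p' * δ₁ * r) / (δ₁ * r) = A.card * p' := by
    field_simp
  rw [h9] at E1
  have h10 : (A.card : ℝ) * p' ≤ p / 2 :=
    (mul_le_mul_of_nonneg_right hcard hp'.le).trans hKp
  linarith

end Pool.Agent.Helper79.GQ
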